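import Pool.Agent.MUR.AIN

/-!
The theorem for near pairs, flat form. (150 lines)

P := zs Y, rk P + 1 = rank. (0) If rank = 2: rk P = 1; P = {c}: two different elements would be parallel. F := ∅, cl ∅ = ∅ (no loops).
(1) If rank ≤ 6 and Disc P ∅ then rk X + rk Y = rk P ≤ 5, so one of the two has rank ≤ 2: SmallSep (symmetric). So we may
assume: rank ≥ 3 and (not Disc P ∅, or SmallSep P).
(2) not Disc P ∅: ∅ is a flat, not met (s ∈ cl {p}, s ≠ p contradicts Simple). `unmet_exists` with A = ∅ gives H. The set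
cl (insert p H) equals insert p H: an element x of it is p; or Y x = 0, and then x ∈ H (else by exchange p ∈ cl (insert x H) ⊆ P);
or Y x ≠ 0, x ≠ p, impossible as H is not met. Take Z ∈ cov with zs Z = insert p H (`flat_eq_zs`). F := H, c := p. rk H + 2 = rank.
(3) SmallSep: X, X' flats with X ∪ X' = P, X ∩ X' = ∅, X ≠ ∅, rk X ≤ 2, rk X + rk X' = rk P. Fact: for x ∈ X, cl (insert x X') =
insert x X': for z ∈ X in the closure, z ≠ x: rk (X' ∪ {x, z}) = rk X' + 1, but submodularity with X gives
rk P + rk {x, z} ≤ rk (X' ∪ {x,z}) + rk X, so rk {x, z} ≤ 1, parallel, contradiction.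
If rk X = 1: X = {c}, F := X', Y itself. (rk X ≠ 0 since no loops.)
If rk X = 2: if X has exactly two elements x1, x2: F := insert x2 X', c := x1, covector Y. If it has three distinct elements q_0, q_1, q_2:
G := X', rk G + 3 = rank. If for each i there is s_i with Y (s_i) ≠ 0, s_i ∈ cl (insert p (insert q_i G)), s_i ∉ cl (insert p G) then
`at_most_two` gives a contradiction (q_i ∉ cl (insert q_j G) by the Fact). So for some i there is no such s. Put x := q_i,
F := cl (insert p G), c := x. Claim cl (insert x F) = insert x F: let z be in it; if Y z = 0 then z ∈ insert x G (else, by exchange,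
p ∈ cl of a subset of P: precisely z ∈ cl (insert p (insert x G)), z ∉ cl (insert x G) = insert x G, so p ∈ cl (insert z (insert x G)) ⊆ P); if
Y z ≠ 0 then z ∈ F by the choice of x. x ∉ F: else x ∈ cl G by exchange. Ranks: rk F = rk G + 1.
Take a covector with zero set insert x F (`flat_eq_zs`).
-/

namespace MUR

universe u v

namespace OM

variable {α : Type u} {β : Type v}

private theorem afn_flat [Finite α] (M : OM α) {c : α} {F : Set α} (hc : c ∉ F)
    (h1 : M.cl (insert c F) = insert c F) (h2 : M.cl F = F) (h3 : M.rk F + 2 = M.rank) :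
    M.Flat := by
  obtain ⟨Z, hZ, hz⟩ := M.flat_eq_zs h1
  refine ⟨F, c, Z, hc, hZ, fun e => ?_, h2, h3⟩
  rw [← hz]
  exact Iff.rfl

private theorem afn_pick [Finite α] (M : OM α) {A P : Set α} (h : M.rk A < M.rk P) :
    ∃ q ∈ P, q ∉ M.cl A := by
  by_contra hc
  push Not at hc
  have h1 := M.rk_mono (A := P) (B := M.cl A) hc
  rw [M.rk_cl] at h1
  omega

private theorem afn_empty (M : OM α) (hs : M.Simple) : M.cl ∅ = ∅ := by
  apply Set.eq_empty_of_forall_notMem
  intro x hx
  obtain ⟨X, hX, hx0⟩ := hs.1 x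
  exact hx0 (hx X hX fun a ha => ha.elim)

private theorem afn_par (M : OM α) (hs : M.Simple) {x y : α} (h : y ≠ x) : y ∉ M.cl {x} := by
  intro hy
  obtain ⟨X, hX, h1, h2⟩ := hs.2 x y h.symm
  refine h2 (hy X hX fun a ha => ?_)
  rw [Set.mem_singleton_iff.1 ha]
  exact h1

private theorem afn_rk1 [Finite α] (M : OM α) (hs : M.Simple) (x : α) : M.rk {x} = 1 := by
  have h : x ∉ M.cl ∅ := by
    rw [M.afn_empty hs]
    exact fun h => h
  have h1 := M.rk_insert_not h
  rw [M.rk_empty] at h1
  simpa using h1

private theorem afn_rk2 [Finite α] (M : OM α) (hs : M.Simple) {x y : α} (h : y ≠ x)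
    {A : Set α} (hx : x ∈ A) (hy : y ∈ A) : 2 ≤ M.rk A := by
  have h1 := M.rk_insert_not (M.afn_par hs h)
  rw [M.afn_rk1 hs] at h1
  have h2 : M.rk (insert y {x}) ≤ M.rk A :=
    M.rk_mono (Set.insert_subset hy (Set.singleton_subset_iff.2 hx))
  omega

private theorem afn_conn [Finite α] (M : OM α) (hs : M.Simple) (hr : 3 ≤ M.rank)
    {Y : α → SignType} {p : α} (h : M.NearPair Y p) (hP : ¬ M.Disc (zs Y) ∅) : M.Flat := by
  have hc := (M.cocircuit_iff Y).1 h.1
  have hPc : M.cl (zs Y) = zs Y := M.cl_zs hc.1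
  have hr1 := hc.2.2
  have hm : ¬ M.Met Y p ∅ := by
    rintro ⟨s, h1, h2, h3⟩
    exact M.afn_par hs h2 (by simpa using h3)
  obtain ⟨H, hH, hHP, hHr, hHm⟩ := M.unmet_exists h (M.rank - 3) ∅ (M.afn_empty hs)
    (Set.empty_subset _) hm hP (by rw [M.rk_empty]; omega)
  · refine M.afn_flat (c := p) (F := H) (fun hp => h.2.1 (hHP hp)) ?_ hH (by omega)
    apply Set.Subset.antisymm _ (M.subset_cl _)
    intro x hx
    by_contra hn
    have hn1 : x ≠ p := fun h1 => hn (Or.inl h1)
    have hn2 : x ∉ M.cl H := fun h1 => hn (Or.inr (hH ▸ h1))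
    by_cases hYx : Y x = 0
    · have h1 := M.exch hx hn2
      have h2 : M.cl (insert x H) ⊆ zs Y := by
        have := M.cl_mono (Set.insert_subset (show x ∈ zs Y from hYx) hHP)
        rwa [hPc] at this
      exact h.2.1 (h2 h1)
    · exact hHm ⟨x, hYx, hn1, hx⟩

private theorem afn_sep [Finite α] (M : OM α) (hs : M.Simple)
    {Y : α → SignType} {p : α} (h : M.NearPair Y p) (hP : M.SmallSep (zs Y)) : M.Flat := by
  have hc := (M.cocircuit_iff Y).1 h.1
  have hPc : M.cl (zs Y) = zs Y := M.cl_zs hc.1
  have hr1 := hc.2.2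
  obtain ⟨X, G, hX, hG, hXG, hdis, hne, hX2, hrk⟩ := hP
  have hXP : X ⊆ zs Y := hXG ▸ Set.subset_union_left
  have hGP : G ⊆ zs Y := hXG ▸ Set.subset_union_right
  have hXnG : ∀ x ∈ X, x ∉ G := fun x hx hg => by
    have : x ∈ X ∩ G := ⟨hx, hg⟩
    rw [hdis] at this
    exact this
  have hXnG' : ∀ x ∈ X, x ∉ M.cl G := fun x hx hg => hXnG x hx (hG ▸ hg)
  have hsub : ∀ {q : α} {B : Set α}, q ∈ zs Y → B ⊆ zs Y → M.cl (insert q B) ⊆ zs Y := by
    intro q B hq hB
    have := M.cl_mono (Set.insert_subset hq hB)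
    rwa [hPc] at this
  have fact : ∀ x ∈ X, M.cl (insert x G) = insert x G := by
    intro x hx
    apply Set.Subset.antisymm _ (M.subset_cl _)
    intro z hz
    by_contra hn
    have hzx : z ≠ x := fun h1 => hn (Or.inl h1)
    have hzG : z ∉ G := fun h1 => hn (Or.inr h1)
    have hzP : z ∈ zs Y := hsub (hXP hx) hGP hz
    have hzX : z ∈ X := by
      rw [← hXG] at hzP
      exact hzP.resolve_right hzG
    have h1 : M.rk (insert z (insert x G)) = M.rk G + 1 := by
      rw [M.rk_insert_mem hz, M.rk_insert_not (hXnG' x hx)]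
    have h2 := M.rk_submod (insert z (insert x G)) X
    have h3 : M.rk (zs Y) ≤ M.rk (insert z (insert x G) ∪ X) := by
      apply M.rk_mono
      rw [← hXG]
      rintro y (hy | hy)
      · exact Or.inr hy
      · exact Or.inl (Or.inr (Or.inr hy))
    have h4 : 2 ≤ M.rk (insert z (insert x G) ∩ X) :=
      M.afn_rk2 hs hzx ⟨Or.inr (Or.inl rfl), hx⟩ ⟨Or.inl rfl, hzX⟩
    omega
  obtain ⟨x1, hx1⟩ := Set.nonempty_iff_ne_empty.2 hne
  have hX1 : 1 ≤ M.rk X := by
    have := M.rk_mono (Set.singleton_subset_iff.2 hx1)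
    rwa [M.afn_rk1 hs] at this
  by_cases hX1' : M.rk X = 1
  · exact M.afn_flat (hXnG x1 hx1) (fact x1 hx1) hG (by omega)
  · have hX2' : M.rk X = 2 := by omega
    obtain ⟨x2, hx2, hx21⟩ := M.afn_pick (A := {x1}) (P := X) (by rw [M.afn_rk1 hs]; omega)
    have h21 : x2 ≠ x1 := by
      rintro rfl
      exact hx21 (M.subset_cl _ rfl)
    by_cases h3 : ∃ x3 ∈ X, x3 ≠ x1 ∧ x3 ≠ x2
    · obtain ⟨x3, hx3, h31, h32⟩ := h3
      obtain ⟨x, hx, hxs⟩ : ∃ x ∈ X, ∀ s, Y s ≠ 0 → s ∈ M.cl (insert p (insert x G)) →
          s ∈ M.cl (insert p G) := by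
        by_contra hno
        push Not at hno
        obtain ⟨s1, hs1, ht1, hu1⟩ := hno x1 hx1
        obtain ⟨s2, hs2, ht2, hu2⟩ := hno x2 hx2
        obtain ⟨s3, hs3, ht3, hu3⟩ := hno x3 hx3
        have hne' : ∀ x ∈ X, ∀ y ∈ X, x ≠ y → x ∉ M.cl (insert y G) := by
          intro x hx y hy hxy
          rw [fact y hy]
          rintro (h4 | h4)
          · exact hxy h4
          · exact hXnG x hx h4
        refine M.at_most_two h hGP (by omega) ![x1, x2, x3] ![s1, s2, s3] ?_ ?_ ?_ ?_ ?_
        · intro i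
          fin_cases i
          · exact hXP hx1
          · exact hXP hx2
          · exact hXP hx3
        · intro i
          fin_cases i
          · exact hs1
          · exact hs2
          · exact hs3
        · intro i
          fin_cases i
          · exact ht1
          · exact ht2
          · exact ht3
        · intro i
          fin_cases i
          · exact hu1
          · exact hu2
          · exact hu3
        · intro i j hij
          fin_cases i <;> fin_cases j
          · exact absurd rfl hij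
          · exact hne' x1 hx1 x2 hx2 h21.symm
          · exact hne' x1 hx1 x3 hx3 h31.symm
          · exact hne' x2 hx2 x1 hx1 h21
          · exact absurd rfl hij
          · exact hne' x2 hx2 x3 hx3 h32.symm
          · exact hne' x3 hx3 x1 hx1 h31
          · exact hne' x3 hx3 x2 hx2 h32
          · exact absurd rfl hij
      have hxF : x ∉ M.cl (insert p G) := by
        intro h4
        exact h.2.1 (hsub (hXP hx) hGP (M.exch h4 (hXnG' x hx)))
      have hpG : p ∉ M.cl G := by
        intro h4
        have := M.cl_mono hGP h4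
        rw [hPc] at this
        exact h.2.1 this
      refine M.afn_flat (c := x) (F := M.cl (insert p G)) hxF ?_ (M.cl_cl _) ?_
      · apply Set.Subset.antisymm _ (M.subset_cl _)
        intro z hz
        rw [M.cl_insert_cl, Set.insert_comm] at hz
        by_cases hYz : Y z = 0
        · by_cases hzi : z ∈ insert x G
          · rcases hzi with rfl | hzi
            · exact Or.inl rfl
            · exact Or.inr (M.subset_cl _ (Or.inr hzi))
          · exfalso
            rw [← fact x hx] at hzi
            have h4 := M.exch hz hzi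
            exact h.2.1 (hsub (show z ∈ zs Y from hYz)
              (Set.insert_subset (hXP hx) hGP) h4)
        · exact Or.inr (hxs z hYz hz)
      · rw [M.rk_cl, M.rk_insert_not hpG]
        omega
    · push Not at h3
      have hPe : insert x1 (insert x2 G) = zs Y := by
        apply Set.Subset.antisymm
        · exact Set.insert_subset (hXP hx1) (Set.insert_subset (hXP hx2) hGP)
        · rw [← hXG]
          rintro y (hy | hy)
          · by_cases h4 : y = x1
            · exact Or.inl h4
            · exact Or.inr (Or.inl (h3 y hy h4))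
          · exact Or.inr (Or.inr hy)
      refine M.afn_flat (c := x1) (F := insert x2 G) ?_ (by rw [hPe, hPc]) (fact x2 hx2) ?_
      · rintro (h4 | h4)
        · exact h21 h4.symm
        · exact hXnG x1 hx1 h4
      · rw [M.rk_insert_not (hXnG' x2 hx2)]
        omega

theorem main_near [Finite α] (M : OM α) (hs : M.Simple) (hr : 2 ≤ M.rank)
    {Y : α → SignType} {p : α} (h : M.NearPair Y p)
    (hP : M.rank ≤ 6 ∨ ¬ M.Disc (zs Y) ∅ ∨ M.SmallSep (zs Y)) : M.Flat := by
  have hc := (M.cocircuit_iff Y).1 h.1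
  have hPc : M.cl (zs Y) = zs Y := M.cl_zs hc.1
  have hr1 := hc.2.2
  by_cases hr2 : M.rank = 2
  · obtain ⟨c, hcP, -⟩ := M.afn_pick (A := ∅) (P := zs Y) (by rw [M.rk_empty]; omega)
    have hPe : insert c ∅ = zs Y := by
      apply Set.Subset.antisymm
      · exact Set.insert_subset hcP (Set.empty_subset _)
      · intro y hy
        by_contra hn
        have hyc : y ≠ c := fun h1 => hn (Or.inl h1)
        have := M.afn_rk2 hs hyc hcP hy
        omega
    exact M.afn_flat (c := c) (F := ∅) (fun h1 => h1) (by rw [hPe, hPc]) (M.afn_empty hs)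
      (by rw [M.rk_empty]; omega)
  · have hr3 : 3 ≤ M.rank := by omega
    by_cases hD : M.Disc (zs Y) ∅
    · rcases hP with hP | hP | hP
      · obtain ⟨X, X', hX, hX', hu, hi, h1, h2, h3⟩ := hD
        rw [M.rk_empty] at h3
        apply M.afn_sep hs h
        by_cases h4 : M.rk X ≤ 2
        · exact ⟨X, X', hX, hX', hu, hi, h1, h4, by omega⟩
        · refine ⟨X', X, hX', hX, ?_, ?_, h2, by omega, by omega⟩
          · rw [Set.union_comm]; exact hu
          · rw [Set.inter_comm]; exact hi
      · exact absurd hD hP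
      · exact M.afn_sep hs h hP
    · exact M.afn_conn hs hr3 h hD

end OM

end MUR
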