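import Pool.Agent.MUR.RKC

/-!
At most two met hyperplanes over a flat of corank three. (100 lines)

Indices i, j range over Fin 3. For each i let W_i be a covector vanishing on insert p (insert (a i) G), nonzero
(`exists_cov_of_rk`, rank of this set is at most rank - 1: rk G + 3 = rank). Ranks: a i ∉ cl G (otherwise s i in
cl (insert p G)), so rk (insert (a i) G) + 2 = rank, and rk (insert p (insert (a i) G)) + 1 = rank (p is not in cl of
a subset of zs Y). Let P := zs Y. zs W_i ∩ P is a flat, has rank rank - 2 (it is properly inside P because Y p ≠ 0 = W_i p: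
if zs Y is inside zs W_i then equality of ranks makes them equal) and so is cl (insert (a i) G).
W_i (s i) = 0. For i ≠ j: W_i (s j) ≠ 0: otherwise by exchange (s j ∈ cl (insert (a j) (insert p G)), not in cl (insert p G))
a j ∈ cl (insert (s j) (insert p G)) inside zs W_i, so a j ∈ cl (insert (a i) G), contradiction to hne.
W_i is a cocircuit through p sharing a coline with Y ({Y = 0 and W_i = 0} has rank rank - 2). NearPair: W_i and Y are
conformal or W_i and -Y are. Replacing W_i by -W_i we may assume W_i s = Y s whenever both are nonzero; so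
W_i (s j) = Y (s j) for j ≠ i. Eliminate s 2 between W_0 and -W_1 (W_0 (s 2) = W_1 (s 2) = Y (s 2)): V with V (s 2) = 0,
V (s 0) = -W_1 (s 0) = -Y (s 0), V (s 1) = W_0 (s 1) = Y (s 1), V = 0 on G and p. V (a 2) = 0 by exchange as above. So V is
again a cocircuit through p sharing a coline with Y (contains insert (a 2) G); NearPair for V contradicts
the signs at s 0 and s 1.
-/

namespace MUR

universe u v

namespace OM

variable {α : Type u} {β : Type v}

private theorem stw_neg {t : SignType} (ht : t ≠ 0) : t ≠ -t := by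
  revert ht
  revert t
  decide

private theorem stw_near [Finite α] (M : OM α) {Y : α → SignType} {p : α} (h : M.NearPair Y p)
    {G : Set α} (hG : G ⊆ zs Y) (hr : M.rk G + 3 = M.rank) {a : α} (ha : Y a = 0)
    (hag : a ∉ M.cl G) {W : α → SignType} (hW : W ∈ M.cov) {e : α} (he : W e ≠ 0)
    (hp : W p = 0) (hWG : ∀ g ∈ G, W g = 0) (hWa : W a = 0) :
    (∀ e, Y e = 0 ∨ W e = 0 ∨ Y e = W e) ∨ (∀ e, Y e = 0 ∨ W e = 0 ∨ Y e = -W e) := by
  obtain ⟨hYc, hYp, hnear⟩ := h
  have hY : Y ∈ M.cov := hYc.1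
  have r1 := M.rk_insert_not hag
  have hsub : insert a G ⊆ zs Y := Set.insert_subset ha hG
  have hpc : ∀ D : Set α, D ⊆ zs Y → p ∉ M.cl D := fun D hD hc =>
    hYp (M.cl_sub_zs hY (fun x hx => hD hx) hc)
  have r2 := M.rk_insert_not (hpc _ hsub)
  have h0 : ∀ x ∈ insert p (insert a G), W x = 0 := by
    rintro x (rfl | rfl | hx)
    · exact hp
    · exact hWa
    · exact hWG x hx
  obtain ⟨r3, -⟩ := M.rk_zs_eq hW he h0 (by omega)
  have hWc : M.Cocircuit W := (M.cocircuit_iff W).2 ⟨hW, ⟨e, he⟩, r3⟩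
  apply hnear W hWc hp
  have hD1 : M.rk (insert a G) ≤ M.rk {e | Y e = 0 ∧ W e = 0} := by
    apply M.rk_mono
    rintro x (rfl | hx)
    · exact ⟨ha, hWa⟩
    · exact ⟨hG hx, hWG x hx⟩
  have hD2 := M.rk_insert_not (hpc {e | Y e = 0 ∧ W e = 0} (fun x hx => hx.1))
  have hD3 : M.rk (insert p {e | Y e = 0 ∧ W e = 0}) ≤ M.rk (zs W) := by
    apply M.rk_mono
    rintro x (rfl | hx)
    · exact hp
    · exact hx.2
  omega

theorem at_most_two [Finite α] (M : OM α) {Y : α → SignType} {p : α} (h : M.NearPair Y p)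
    {G : Set α} (hG : G ⊆ zs Y) (hr : M.rk G + 3 = M.rank) (a s : Fin 3 → α)
    (ha : ∀ i, Y (a i) = 0) (hs : ∀ i, Y (s i) ≠ 0)
    (h1 : ∀ i, s i ∈ M.cl (insert p (insert (a i) G))) (h2 : ∀ i, s i ∉ M.cl (insert p G))
    (hne : ∀ i j, i ≠ j → a i ∉ M.cl (insert (a j) G)) : False := by
  have hYp : Y p ≠ 0 := h.2.1
  have hY : Y ∈ M.cov := h.1.1
  have hpc : ∀ D : Set α, D ⊆ zs Y → p ∉ M.cl D := fun D hD hc =>
    hYp (M.cl_sub_zs hY (fun x hx => hD hx) hc)
  have hag : ∀ i, a i ∉ M.cl G := by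
    intro i hc
    apply h2 i
    refine M.cl_subset_of ?_ (h1 i)
    rintro x (rfl | rfl | hx)
    · exact M.subset_cl _ (Or.inl rfl)
    · exact M.cl_mono (Set.subset_insert _ _) hc
    · exact M.subset_cl _ (Or.inr hx)
  have hsub : ∀ i, insert (a i) G ⊆ zs Y := fun i => Set.insert_subset (ha i) hG
  have r1 : ∀ i, M.rk (insert (a i) G) = M.rk G + 1 := fun i => M.rk_insert_not (hag i)
  -- exchange facts
  have hsa : ∀ W ∈ M.cov, W p = 0 → (∀ g ∈ G, W g = 0) → ∀ j, W (s j) = 0 → W (a j) = 0 := by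
    intro W hW hp hWG j hj
    have e1 : s j ∈ M.cl (insert (a j) (insert p G)) := by
      rw [Set.insert_comm]
      exact h1 j
    have e2 := M.exch e1 (h2 j)
    apply e2 W hW
    rintro x (rfl | rfl | hx)
    · exact hj
    · exact hp
    · exact hWG x hx
  have has : ∀ W ∈ M.cov, W p = 0 → (∀ g ∈ G, W g = 0) → ∀ j, W (a j) = 0 → W (s j) = 0 := by
    intro W hW hp hWG j hj
    apply h1 j W hW
    rintro x (rfl | rfl | hx)
    · exact hp
    · exact hj
    · exact hWG x hx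
  have htwo : ∀ W ∈ M.cov, W p = 0 → (∀ g ∈ G, W g = 0) → ∀ i j, i ≠ j → W (a i) = 0 →
      W (a j) = 0 → ∀ e, W e = 0 := by
    intro W hW hp hWG i j hij hi hj e
    have r2 := M.rk_insert_not (hne j i (Ne.symm hij))
    have r3 := M.rk_insert_not (hpc _ (Set.insert_subset (ha j) (hsub i)))
    refine M.zero_of_span hW (A := insert p (insert (a j) (insert (a i) G))) ?_ ?_ e
    · rintro x (rfl | rfl | rfl | hx)
      · exact hp
      · exact hj
      · exact hi
      · exact hWG x hx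
    · have := r1 i
      omega
  have hex : ∀ i, ∃ W ∈ M.cov, (∃ e, W e ≠ 0) ∧ W p = 0 ∧ (∀ g ∈ G, W g = 0) ∧ W (a i) = 0 ∧
      ∀ e, Y e = 0 ∨ W e = 0 ∨ Y e = W e := by
    intro i
    have r2 := M.rk_insert_not (hpc _ (hsub i))
    have r3 := r1 i
    obtain ⟨W, hW, ⟨e, he⟩, h0⟩ := M.exists_cov_of_rk (A := insert p (insert (a i) G)) (by omega)
    have hp : W p = 0 := h0 p (Or.inl rfl)
    have hWa : W (a i) = 0 := h0 _ (Or.inr (Or.inl rfl))
    have hWG : ∀ g ∈ G, W g = 0 := fun g hg => h0 g (Or.inr (Or.inr hg))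
    rcases M.stw_near h hG hr (ha i) (hag i) hW he hp hWG hWa with hc | hc
    · exact ⟨W, hW, ⟨e, he⟩, hp, hWG, hWa, hc⟩
    · refine ⟨_, M.neg_mem W hW, ⟨e, ?_⟩, by simp [hp], fun g hg => by simp [hWG g hg],
        by simp [hWa], fun x => ?_⟩
      · simpa using he
      · rcases hc x with hx | hx | hx
        · exact Or.inl hx
        · exact Or.inr (Or.inl (by simp [hx]))
        · exact Or.inr (Or.inr hx)
  have hnz : ∀ W ∈ M.cov, (∃ e, W e ≠ 0) → W p = 0 → (∀ g ∈ G, W g = 0) → ∀ i j, i ≠ j →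
      W (a i) = 0 → W (s j) ≠ 0 := by
    rintro W hW ⟨e, he⟩ hp hWG i j hij hi hc
    exact he (htwo W hW hp hWG i j hij hi (hsa W hW hp hWG j hc) e)
  obtain ⟨W0, hW0, hn0, hp0, hG0, ha0, hc0⟩ := hex 0
  obtain ⟨W1, hW1, hn1, hp1, hG1, ha1, hc1⟩ := hex 1
  have hs00 : W0 (s 0) = 0 := has W0 hW0 hp0 hG0 0 ha0
  have hs11 : W1 (s 1) = 0 := has W1 hW1 hp1 hG1 1 ha1
  have key0 : ∀ j, (0 : Fin 3) ≠ j → W0 (s j) = Y (s j) := by
    intro j hj
    rcases hc0 (s j) with hx | hx | hx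
    · exact absurd hx (hs j)
    · exact absurd hx (hnz W0 hW0 hn0 hp0 hG0 0 j hj ha0)
    · exact hx.symm
  have key1 : ∀ j, (1 : Fin 3) ≠ j → W1 (s j) = Y (s j) := by
    intro j hj
    rcases hc1 (s j) with hx | hx | hx
    · exact absurd hx (hs j)
    · exact absurd hx (hnz W1 hW1 hn1 hp1 hG1 1 j hj ha1)
    · exact hx.symm
  have k02 := key0 2 (by decide)
  have k12 := key1 2 (by decide)
  have k01 := key0 1 (by decide)
  have k10 := key1 0 (by decide)
  obtain ⟨V, hV, hV2, hVa, hVb, -, -⟩ := M.elim' hW0 (M.neg_mem W1 hW1) (s := s 2)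
    (by rw [k02]; exact hs 2) (by rw [k02, k12])
  have hVp : V p = 0 := by rw [hVa p hp0, hp1]; rfl
  have hVG : ∀ g ∈ G, V g = 0 := by
    intro g hg
    rw [hVa g (hG0 g hg), hG1 g hg]
    rfl
  have hV0 : V (s 0) = -Y (s 0) := by rw [hVa _ hs00, k10]
  have hV1 : V (s 1) = Y (s 1) := by
    rw [hVb (s 1) (by simp [hs11]), k01]
  have hVa2 : V (a 2) = 0 := hsa V hV hVp hVG 2 hV2
  rcases M.stw_near h hG hr (ha 2) (hag 2) hV (e := s 1) (by rw [hV1]; exact hs 1) hVp hVG hVa2
    with hc | hc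
  · rcases hc (s 0) with hx | hx | hx
    · exact hs 0 hx
    · rw [hV0] at hx
      exact hs 0 (by simpa using hx)
    · rw [hV0] at hx
      exact stw_neg (hs 0) hx
  · rcases hc (s 1) with hx | hx | hx
    · exact hs 1 hx
    · rw [hV1] at hx
      exact hs 1 hx
    · rw [hV1] at hx
      exact stw_neg (hs 1) hx

end OM

end MUR
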