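import Pool.Agent.MUR.STW

/-!
The met points outside a suitable hyperplane form one class. (130 lines)

P := zs Y, V := {q | q ∈ P, q ∉ A, Met (insert q A)}. Choose a maximal set B0 ⊆ V independent over A, i.e. with
rk (A ∪ B0) = rk A + card B0, and extend it to B ⊆ P with rk (A ∪ B) = rk A + card B = rk P. B is nonempty. Choose v ∈ B,
with v ∈ B0 if B0 is nonempty, and H := cl (A ∪ (B \ {v})). H is a flat, A ⊆ H ⊆ P, rk H + 1 = rk P, v ∉ H.
Let q ∈ P \ H with Met (insert q A). Then q ∈ V, so B0 is nonempty, q ∈ cl (A ∪ B0), v ∈ B0. Suppose q ∉ cl (insert v A). Take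
B1 ⊆ B0 minimal with q ∈ cl (A ∪ B1). v ∈ B1 since q ∉ H; B1 ≠ {v}; let v' ∈ B1, v' ≠ v. Then q ∉ cl (A ∪ (B \ {v'})): by
submodularity the intersection of cl (A ∪ B1) and cl (A ∪ (B \ {v'})) has rank at most rk A + card B1 - 1 = rk (A ∪ (B1 \ {v'})), so it is
cl (A ∪ (B1 \ {v'})), contradicting minimality. Let G := A ∪ (B \ {v, v'}), rk G + 3 = rank. Apply `at_most_two` to
a := v, v', q and their s i (from Met): s i ∈ cl (insert p (insert (a i) G)) by monotonicity; s i ∉ cl (insert p G): otherwise a i ∈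
cl (insert p G) (exchange, s i ∉ cl (insert p A) because A is not met), hence a i ∈ cl G (else p ∈ cl (insert (a i) G) ⊆ P by exchange, but
Y p ≠ 0), impossible. Pairwise conditions: v ∉ cl (insert v' G) = H part, v' ∉ cl (insert v G) by rank, q ∉ cl (insert v' G) ⊆ H,
q ∉ cl (insert v G) shown above, and v, v' ∉ cl (insert q G) by exchange.
(Met requires s ≠ p and Y s ≠ 0.)
-/

namespace MUR

universe u v

namespace OM

variable {α : Type u} {β : Type v}

private theorem vlm_core [Finite α] (M : OM α) {Y : α → SignType} {p : α} (h : M.NearPair Y p)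
    {A G : Set α} (hAG : A ⊆ G) (hG : G ⊆ zs Y) (hm : ¬ M.Met Y p A) (hr : M.rk G + 3 = M.rank)
    (a : Fin 3 → α) (ha : ∀ i, Y (a i) = 0) (hM : ∀ i, M.Met Y p (insert (a i) A))
    (hne : ∀ i j, i ≠ j → a i ∉ M.cl (insert (a j) G)) : False := by
  choose s hs using hM
  have hYcov : Y ∈ M.cov := h.1.1
  have haG : ∀ i, a i ∉ M.cl G := by
    intro i hi
    obtain ⟨j, hj⟩ : ∃ j : Fin 3, i ≠ j := by
      by_cases h0 : i = 0
      · exact ⟨1, by rw [h0]; decide⟩
      · exact ⟨0, h0⟩
    exact hne i j hj (M.cl_mono (Set.subset_insert _ _) hi)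
  refine M.at_most_two h hG hr a s ha (fun i => (hs i).1) (fun i => ?_) (fun i hi => ?_) hne
  · exact M.cl_mono (Set.insert_subset_insert (Set.insert_subset_insert hAG)) (hs i).2.2
  · have h1 : s i ∉ M.cl (insert p A) := fun hh => hm ⟨s i, (hs i).1, (hs i).2.1, hh⟩
    have h2 : s i ∈ M.cl (insert (a i) (insert p A)) := by
      rw [Set.insert_comm]; exact (hs i).2.2
    have h3 : a i ∈ M.cl (insert (s i) (insert p A)) := M.exch h2 h1
    have h4 : a i ∈ M.cl (insert p G) := by
      refine M.cl_subset_of ?_ h3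
      refine Set.insert_subset hi ?_
      exact (Set.insert_subset_insert hAG).trans (M.subset_cl _)
    have h5 : p ∈ M.cl (insert (a i) G) := M.exch h4 (haG i)
    exact h.2.1 (h5 Y hYcov (fun x hx => by
      rcases hx with rfl | hx
      · exact ha i
      · exact hG hx))

private theorem vlm_rk_le [Finite α] (M : OM α) (A : Set α) (B : Finset α) :
    M.rk (A ∪ B) ≤ M.rk A + B.card := by
  classical
  induction B using Finset.induction_on with
  | empty => simp
  | insert x B hx ih =>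
    rw [Finset.card_insert_of_notMem hx, Finset.coe_insert, Set.union_insert]
    have := M.rk_insert_le (A ∪ B) x
    omega

private theorem vlm_sub [Finite α] (M : OM α) {A : Set α} {B B' : Finset α} (hBB : B' ⊆ B)
    (h : M.rk (A ∪ B) = M.rk A + B.card) : M.rk (A ∪ B') = M.rk A + B'.card := by
  classical
  apply le_antisymm (M.vlm_rk_le A B')
  have h1 := M.vlm_rk_le (A ∪ B') (B \ B')
  have h2 : (A ∪ (B' : Set α)) ∪ ((B \ B' : Finset α) : Set α) = A ∪ B := by
    rw [Set.union_assoc, ← Finset.coe_union, Finset.union_sdiff_of_subset hBB]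
  rw [h2, h] at h1
  have h3 : (B \ B').card + B'.card = B.card := Finset.card_sdiff_add_card_eq_card hBB
  omega

/-- extension to a maximal set independent over `A` inside `V`. -/
private theorem vlm_ext [Finite α] (M : OM α) {A V : Set α} {B0 : Finset α} (hB0 : (B0 : Set α) ⊆ V)
    (h0 : M.rk (A ∪ B0) = M.rk A + B0.card) :
    ∃ B : Finset α, B0 ⊆ B ∧ (B : Set α) ⊆ V ∧ M.rk (A ∪ B) = M.rk A + B.card ∧
      V ⊆ M.cl (A ∪ B) := by
  classical
  obtain ⟨B, ⟨hB1, hB2, hB3⟩, hmax⟩ := Set.exists_max_image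
    {B : Finset α | B0 ⊆ B ∧ (B : Set α) ⊆ V ∧ M.rk (A ∪ B) = M.rk A + B.card} Finset.card
    (Set.toFinite _) ⟨B0, Finset.Subset.refl _, hB0, h0⟩
  refine ⟨B, hB1, hB2, hB3, fun q hq => ?_⟩
  by_contra hqc
  have hqB : q ∉ B := fun hh => hqc (M.subset_cl _ (Or.inr hh))
  have h1 := M.rk_insert_not hqc
  have h2 := hmax (insert q B) ⟨hB1.trans (Finset.subset_insert _ _), by
    rw [Finset.coe_insert]; exact Set.insert_subset hq hB2, by
    rw [Finset.coe_insert, Set.union_insert, h1, hB3, Finset.card_insert_of_notMem hqB]; omega⟩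
  rw [Finset.card_insert_of_notMem hqB] at h2
  omega

theorem met_class [Finite α] (M : OM α) {Y : α → SignType} {p : α} (h : M.NearPair Y p)
    {A : Set α} (hA : M.cl A = A) (hAP : A ⊆ zs Y) (hm : ¬ M.Met Y p A)
    (hr : M.rk A + 2 ≤ M.rk (zs Y)) :
    ∃ (H : Set α) (v : α), M.cl H = H ∧ A ⊆ H ∧ H ⊆ zs Y ∧ M.rk H + 1 = M.rk (zs Y) ∧
      Y v = 0 ∧ v ∉ H ∧ ∀ q, Y q = 0 → q ∉ H → M.Met Y p (insert q A) → q ∈ M.cl (insert v A) := by
  classical
  have hYcov : Y ∈ M.cov := h.1.1
  have hPr : M.rk (zs Y) + 1 = M.rank := ((M.cocircuit_iff Y).1 h.1).2.2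
  have hPc : M.cl (zs Y) = zs Y := M.cl_zs hYcov
  set V : Set α := {q | Y q = 0 ∧ q ∉ A ∧ M.Met Y p (insert q A)} with hV
  have hVP : V ⊆ zs Y := fun q hq => hq.1
  obtain ⟨B0, -, hB0V, hB0r, hB0c⟩ := M.vlm_ext (A := A) (V := V) (B0 := ∅) (by simp) (by simp)
  obtain ⟨B, hB0B, hBP, hBr, hBc⟩ := M.vlm_ext (A := A) (V := zs Y) (B0 := B0) (hB0V.trans hVP) hB0r
  have hBrk : M.rk (A ∪ B) = M.rk (zs Y) := by
    apply le_antisymm
    · exact M.rk_mono (Set.union_subset hAP hBP)
    · have := M.rk_mono hBc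
      rwa [M.rk_cl] at this
  have hcard : M.rk A + B.card = M.rk (zs Y) := by rw [← hBr, hBrk]
  obtain ⟨v, hvB, hvB0⟩ : ∃ v ∈ B, (B0.Nonempty → v ∈ B0) := by
    by_cases hne : B0.Nonempty
    · obtain ⟨v, hv⟩ := hne
      exact ⟨v, hB0B hv, fun _ => hv⟩
    · have : 0 < B.card := by omega
      obtain ⟨v, hv⟩ := Finset.card_pos.1 this
      exact ⟨v, hv, fun hh => absurd hh hne⟩
  -- erasing one element
  have herase : ∀ x ∈ B, M.rk (A ∪ (B.erase x : Finset α)) + 1 = M.rk (zs Y) := by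
    intro x hx
    rw [M.vlm_sub (Finset.erase_subset x B) hBr, Finset.card_erase_of_mem hx]
    have : 0 < B.card := Finset.card_pos.2 ⟨x, hx⟩
    omega
  have hnot : ∀ x ∈ B, x ∉ M.cl (A ∪ (B.erase x : Finset α)) := by
    intro x hx hxc
    have h1 := M.rk_insert_mem hxc
    have h2 : insert x (A ∪ ((B.erase x : Finset α) : Set α)) = A ∪ B := by
      rw [← Set.union_insert, ← Finset.coe_insert, Finset.insert_erase hx]
    rw [h2, hBrk] at h1
    have := herase x hx
    omega
  have hsubP : ∀ x, M.cl (A ∪ (B.erase x : Finset α)) ⊆ zs Y := by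
    intro x
    rw [← hPc]
    refine M.cl_mono (Set.union_subset hAP ?_)
    exact (Finset.coe_subset.2 (Finset.erase_subset x B)).trans hBP
  refine ⟨M.cl (A ∪ (B.erase v : Finset α)), v, M.cl_cl _,
    Set.subset_union_left.trans (M.subset_cl _), hsubP v, by rw [M.rk_cl]; exact herase v hvB,
    hBP hvB, hnot v hvB, fun q hq hqH hqM => ?_⟩
  have hqA : q ∉ A := fun hh => hqH (M.subset_cl _ (Or.inl hh))
  have hqV : q ∈ V := ⟨hq, hqA, hqM⟩
  have hqc : q ∈ M.cl (A ∪ B0) := hB0c hqV
  have hB0ne : B0.Nonempty := by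
    rw [Finset.nonempty_iff_ne_empty]
    rintro rfl
    apply hqA
    rw [← hA]
    simpa using hqc
  have hv0 : v ∈ B0 := hvB0 hB0ne
  by_contra hqv
  obtain ⟨B1, ⟨hB1s, hB1c⟩, hmin⟩ := Set.exists_min_image
    {B1 : Finset α | B1 ⊆ B0 ∧ q ∈ M.cl (A ∪ B1)} Finset.card (Set.toFinite _)
    ⟨B0, Finset.Subset.refl _, hqc⟩
  have hvB1 : v ∈ B1 := by
    by_contra hh
    apply hqH
    refine M.cl_mono (Set.union_subset_union_right _ ?_) hB1c
    rw [Finset.coe_subset]
    intro x hx
    rw [Finset.mem_erase]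
    exact ⟨fun he => hh (he ▸ hx), hB0B (hB1s hx)⟩
  obtain ⟨v', hv'1, hv'v⟩ : ∃ v' ∈ B1, v' ≠ v := by
    by_contra hh
    push Not at hh
    apply hqv
    refine M.cl_mono ?_ hB1c
    rintro x (hx | hx)
    · exact Or.inr hx
    · exact Or.inl (hh x hx)
  have hv'B0 : v' ∈ B0 := hB1s hv'1
  have hv'B : v' ∈ B := hB0B hv'B0
  -- q is not in the second hyperplane
  have hq2 : q ∉ M.cl (A ∪ (B.erase v' : Finset α)) := by
    intro hq2
    have hsub := M.rk_submod (M.cl (A ∪ B1)) (M.cl (A ∪ (B.erase v' : Finset α)))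
    rw [M.rk_cl, M.rk_cl] at hsub
    have h1 : M.rk (zs Y) ≤ M.rk (M.cl (A ∪ B1) ∪ M.cl (A ∪ (B.erase v' : Finset α))) := by
      rw [← hBrk]
      apply M.rk_mono
      apply Set.union_subset
      · exact (Set.subset_union_left.trans (M.subset_cl _)).trans Set.subset_union_left
      · intro x hx
        by_cases hxv : x = v'
        · exact Or.inl (M.subset_cl _ (Or.inr (hxv ▸ hv'1)))
        · exact Or.inr (M.subset_cl _ (Or.inr (by
            rw [Finset.mem_coe, Finset.mem_erase]; exact ⟨hxv, hx⟩)))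
    have h2 : M.rk (A ∪ B1) = M.rk A + B1.card := M.vlm_sub (hB1s.trans hB0B) hBr
    have h3 : M.rk (A ∪ (B1.erase v' : Finset α)) = M.rk A + (B1.erase v').card :=
      M.vlm_sub ((Finset.erase_subset _ _).trans (hB1s.trans hB0B)) hBr
    have h4 : (B1.erase v').card + 1 = B1.card := Finset.card_erase_add_one hv'1
    have h5 := herase v' hv'B
    have h6 : A ∪ ((B1.erase v' : Finset α) : Set α) ⊆
        M.cl (A ∪ B1) ∩ M.cl (A ∪ (B.erase v' : Finset α)) := by
      apply Set.subset_inter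
      · refine (Set.union_subset_union_right _ ?_).trans (M.subset_cl _)
        exact Finset.coe_subset.2 (Finset.erase_subset _ _)
      · refine (Set.union_subset_union_right _ ?_).trans (M.subset_cl _)
        exact Finset.coe_subset.2 (Finset.erase_subset_erase _ (hB1s.trans hB0B))
    have h7 : M.rk (M.cl (A ∪ B1) ∩ M.cl (A ∪ (B.erase v' : Finset α))) ≤
        M.rk (A ∪ (B1.erase v' : Finset α)) := by omega
    have h8 := M.sub_cl_of_rk h6 h7 ⟨hB1c, hq2⟩
    have h9 := hmin (B1.erase v') ⟨(Finset.erase_subset _ _).trans hB1s, h8⟩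
    omega
  -- the three points over G
  set G : Set α := A ∪ (((B.erase v).erase v' : Finset α) : Set α) with hGdef
  have hv'Bv : v' ∈ B.erase v := Finset.mem_erase.2 ⟨hv'v, hv'B⟩
  have hvBv' : v ∈ B.erase v' := Finset.mem_erase.2 ⟨fun e => hv'v e.symm, hvB⟩
  have hG1 : insert v' G = A ∪ ((B.erase v : Finset α) : Set α) := by
    rw [hGdef, ← Set.union_insert, ← Finset.coe_insert, Finset.insert_erase hv'Bv]
  have hG2 : insert v G = A ∪ ((B.erase v' : Finset α) : Set α) := by
    rw [hGdef, ← Set.union_insert, ← Finset.coe_insert, Finset.erase_right_comm,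
      Finset.insert_erase hvBv']
  have hGr : M.rk G + 3 = M.rank := by
    have h1 : M.rk G = M.rk A + ((B.erase v).erase v').card :=
      M.vlm_sub ((Finset.erase_subset _ _).trans (Finset.erase_subset _ _)) hBr
    have h2 : ((B.erase v).erase v').card + 1 = (B.erase v).card := Finset.card_erase_add_one hv'Bv
    have h3 : (B.erase v).card + 1 = B.card := Finset.card_erase_add_one hvB
    omega
  have hGP : G ⊆ zs Y := by
    refine Set.union_subset hAP ?_
    exact (Finset.coe_subset.2 ((Finset.erase_subset _ _).trans (Finset.erase_subset _ _))).trans hBP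
  have c1 : v ∉ M.cl (insert v' G) := by rw [hG1]; exact hnot v hvB
  have c2 : v' ∉ M.cl (insert v G) := by rw [hG2]; exact hnot v' hv'B
  have c3 : q ∉ M.cl (insert v' G) := by rw [hG1]; exact hqH
  have c4 : q ∉ M.cl (insert v G) := by rw [hG2]; exact hq2
  have c5 : v ∉ M.cl (insert q G) := fun hh =>
    c4 (M.exch hh fun h0 => c1 (M.cl_mono (Set.subset_insert _ _) h0))
  have c6 : v' ∉ M.cl (insert q G) := fun hh =>
    c3 (M.exch hh fun h0 => c2 (M.cl_mono (Set.subset_insert _ _) h0))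
  refine M.vlm_core h (Set.subset_union_left : A ⊆ G) hGP hm hGr ![v, v', q] ?_ ?_ ?_
  · intro i
    fin_cases i
    · exact hBP hvB
    · exact hBP hv'B
    · exact hq
  · intro i
    fin_cases i
    · exact (hB0V hv0).2.2
    · exact (hB0V hv'B0).2.2
    · exact hqM
  · intro i j hij
    fin_cases i <;> fin_cases j
    · exact absurd rfl hij
    · exact c1
    · exact c5
    · exact c2
    · exact absurd rfl hij
    · exact c6
    · exact c4
    · exact c3
    · exact absurd rfl hij

end OM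

end MUR
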