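import Pool.Agent.MUR.TOX
import Pool.Agent.MUR.VLM
import Pool.Agent.MUR.STW

/-!
An unmet hyperplane of a connected link. (100 lines)

Induction on rk (zs Y) - rk A. P := zs Y; rk P + 1 = rank (`cocircuit_iff`).
Case rk A + 2 = rk P: suppose every flat h with A ⊆ h ⊆ P, rk h + 1 = rk P is met. Take q1 ∈ P \ A, h1 := cl (insert q1 A); q2 ∈
P \ h1, h2 := cl (insert q2 A). If P = h1 ∪ h2 then Disc P A (h1 ∩ h2 = A by ranks). So there is q3 ∈ P outside both.
Met h_i gives s_i with s_i ∈ cl (insert p h_i) = cl (insert p (insert q_i A)), s_i ∉ cl (insert p A) as A is not met. `at_most_two` with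
G := A.
Case rk A + 3 ≤ rk P: `met_class` gives H, v; `exists_conn_point` gives B. B = cl (insert q A) for q ∈ B \ A. q ∉ H (else B ⊆ H) and
q ∉ cl (insert v A) (else, by ranks, v ∈ B). So insert q A is not met, hence B is not met
(cl (insert p B) = cl (insert p (insert q A))). Apply the induction hypothesis to B.
-/

namespace MUR

universe u v

namespace OM

variable {α : Type u} {β : Type v}

private theorem ain_met_cl (M : OM α) {Y : α → SignType} {p : α} {B : Set α}
    (h : M.Met Y p (M.cl B)) : M.Met Y p B := by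
  obtain ⟨s, h1, h2, h3⟩ := h
  rw [M.cl_insert_cl] at h3
  exact ⟨s, h1, h2, h3⟩

private theorem ain_ex (M : OM α) {A : Set α} {x y : α} (hx : x ∉ M.cl A)
    (h : y ∉ M.cl (insert x A)) : x ∉ M.cl (insert y A) := fun h1 => h (M.exch h1 hx)

private theorem ain_pick [Finite α] (M : OM α) {A P : Set α} (h : M.rk A < M.rk P) :
    ∃ q ∈ P, q ∉ M.cl A := by
  by_contra hc
  push Not at hc
  have h1 := M.rk_mono (A := P) (B := M.cl A) hc
  rw [M.rk_cl] at h1
  omega

theorem unmet_exists [Finite α] (M : OM α) {Y : α → SignType} {p : α} (h : M.NearPair Y p)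
    (n : ℕ) : ∀ A : Set α, M.cl A = A → A ⊆ zs Y → ¬ M.Met Y p A → ¬ M.Disc (zs Y) A →
    M.rk A + 2 + n = M.rk (zs Y) →
    ∃ H : Set α, M.cl H = H ∧ H ⊆ zs Y ∧ M.rk H + 1 = M.rk (zs Y) ∧ ¬ M.Met Y p H := by
  have hc := (M.cocircuit_iff Y).1 h.1
  have hP : M.cl (zs Y) = zs Y := M.cl_zs hc.1
  have hsub : ∀ {q : α} {B : Set α}, q ∈ zs Y → B ⊆ zs Y → M.cl (insert q B) ⊆ zs Y := by
    intro q B hq hB
    have := M.cl_mono (Set.insert_subset hq hB)
    rwa [hP] at this
  induction n with
  | zero =>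
    intro A hA hAP hm hconn hrk
    by_contra hno
    push Not at hno
    have hcl : ∀ x, x ∉ A → x ∉ M.cl A := fun x hx h1 => hx (hA ▸ h1)
    obtain ⟨q1, hq1, hq1A⟩ := M.ain_pick (A := A) (P := zs Y) (by omega)
    have hr1 : M.rk (M.cl (insert q1 A)) = M.rk A + 1 := by
      rw [M.rk_cl, M.rk_insert_not hq1A]
    obtain ⟨q2, hq2, hq21⟩ := M.ain_pick (A := M.cl (insert q1 A)) (P := zs Y) (by omega)
    rw [M.cl_cl] at hq21
    have hq2A : q2 ∉ M.cl A := fun h1 => hq21 (M.cl_mono (Set.subset_insert _ _) h1)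
    have hr2 : M.rk (M.cl (insert q2 A)) = M.rk A + 1 := by
      rw [M.rk_cl, M.rk_insert_not hq2A]
    obtain ⟨q3, hq3, hq31, hq32⟩ : ∃ q3 ∈ zs Y, q3 ∉ M.cl (insert q1 A) ∧
        q3 ∉ M.cl (insert q2 A) := by
      by_contra hc3
      push Not at hc3
      apply hconn
      refine ⟨M.cl (insert q1 A), M.cl (insert q2 A), M.cl_cl _, M.cl_cl _, ?_, ?_, ?_, ?_, ?_⟩
      · apply Set.Subset.antisymm
        · exact Set.union_subset (hsub hq1 hAP) (hsub hq2 hAP)
        · intro x hx
          by_cases hx1 : x ∈ M.cl (insert q1 A)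
          · exact Or.inl hx1
          · exact Or.inr (hc3 x hx hx1)
      · apply Set.Subset.antisymm
        · rintro x ⟨hx1, hx2⟩
          by_contra hxA
          have h2 := M.exch hx2 (hcl x hxA)
          apply hq21
          have h3 : M.cl (insert x A) ⊆ M.cl (insert q1 A) :=
            M.cl_subset_of (Set.insert_subset hx1
              ((Set.subset_insert _ _).trans (M.subset_cl _)))
          exact h3 h2
        · intro x hx
          exact ⟨M.subset_cl _ (Or.inr hx), M.subset_cl _ (Or.inr hx)⟩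
      · intro he
        exact hq1A (by rw [hA, ← he]; exact M.subset_cl _ (Or.inl rfl))
      · intro he
        exact hq2A (by rw [hA, ← he]; exact M.subset_cl _ (Or.inl rfl))
      · rw [hr1, hr2]
        omega
    have hq3A : q3 ∉ M.cl A := fun h1 => hq31 (M.cl_mono (Set.subset_insert _ _) h1)
    have hmet : ∀ q ∈ zs Y, q ∉ M.cl A → ∃ s, Y s ≠ 0 ∧ s ∈ M.cl (insert p (insert q A)) ∧
        s ∉ M.cl (insert p A) := by
      intro q hq hqA
      have h1 := hno (M.cl (insert q A)) (M.cl_cl _) (hsub hq hAP)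
        (by rw [M.rk_cl, M.rk_insert_not hqA]; omega)
      obtain ⟨s, hs1, hs2, hs3⟩ := M.ain_met_cl h1
      exact ⟨s, hs1, hs3, fun h4 => hm ⟨s, hs1, hs2, h4⟩⟩
    obtain ⟨s1, hs1, ht1, hu1⟩ := hmet q1 hq1 hq1A
    obtain ⟨s2, hs2, ht2, hu2⟩ := hmet q2 hq2 hq2A
    obtain ⟨s3, hs3, ht3, hu3⟩ := hmet q3 hq3 hq3A
    refine M.at_most_two h hAP (by have := hc.2.2; omega) ![q1, q2, q3] ![s1, s2, s3] ?_ ?_ ?_ ?_ ?_
    · intro i
      fin_cases i
      · exact hq1
      · exact hq2
      · exact hq3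
    · intro i
      fin_cases i
      · exact hs1
      · exact hs2
      · exact hs3
    · intro i
      fin_cases i
      · exact ht1
      · exact ht2
      · exact ht3
    · intro i
      fin_cases i
      · exact hu1
      · exact hu2
      · exact hu3
    · intro i j hij
      fin_cases i <;> fin_cases j
      · exact absurd rfl hij
      · exact M.ain_ex hq1A hq21
      · exact M.ain_ex hq1A hq31
      · exact hq21
      · exact absurd rfl hij
      · exact M.ain_ex hq2A hq32
      · exact hq31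
      · exact hq32
      · exact absurd rfl hij
  | succ n ih =>
    intro A hA hAP hm hconn hrk
    obtain ⟨H, v, hH, hAH, hHP, hHr, hv, hvH, hcls⟩ := M.met_class h hA hAP hm (by omega)
    obtain ⟨B, hB, hAB, hBP, hBr, hBH, hvB, hBc⟩ :=
      M.exists_conn_point hP hA hH hAH hHP hHr (by omega) (show v ∈ zs Y from hv) hvH hconn
    obtain ⟨q, hqB, hqH⟩ := Set.not_subset.1 hBH
    have hqA : q ∉ M.cl A := fun h1 => hqH (hAH (hA ▸ h1))
    have hiB : insert q A ⊆ B := Set.insert_subset hqB hAB
    have hBe : B ⊆ M.cl (insert q A) :=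
      M.sub_cl_of_rk hiB (by rw [M.rk_insert_not hqA]; omega)
    have hBe' : B = M.cl (insert q A) := by
      apply Set.Subset.antisymm hBe
      have := M.cl_mono hiB
      rwa [hB] at this
    refine ih B hB hBP ?_ hBc (by omega)
    intro hmB
    have h1 : M.Met Y p (insert q A) := by
      apply M.ain_met_cl
      rwa [← hBe']
    have h2 := hcls q (hBP hqB) hqH h1
    have h3 := M.exch h2 hqA
    rw [← hBe'] at h3
    exact hvB h3

end OM

end MUR
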