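import Pool.Agent.MUR.RKC

/-!
The relation Bt and line arcs. (70 lines)

Data of Bt Y V: W, G, s. Let V' be the elimination of s between Y and W (`elim'`): V' s = 0,
V' f = 1 (Y f = W f = 1), V' p = Y p (W p = 0), V' = 0 on G. V and V' both vanish on insert s G (rank
rank - 1 since Y s nonzero) and V f = V' f = 1, so V = V'. Hence V p = Y p, and V h = W h when
Y h = 0.
Case Y p = 1: LArc V Y. X := elimination of f between Y and -W: X f = 0, X p = Y p = 1 (W p = 0),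
X = 0 on G. Choose e in zs Y with V e nonzero (if zs Y is inside zs V then, both having rank
rank - 1, Y = V by `uniq` with f, but V s = 0 and Y s nonzero). V e = W e (as Y e = 0), X e = -W e = -V e.
Case Y p = -1: LArc Y V. X := elimination of f between W and -Y: X p = -Y p = 1, X s: W s = -Y s
so X s = W s = -Y s. Element s.
-/

namespace MUR

universe u v

namespace OM

variable {α : Type u} {β : Type v}

private theorem bt_aux [Finite α] (M : OM α) {f : α} {Y V W : α → SignType} {G : Set α} {s : α}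
    (hY : M.Vx f Y) (hV : M.Vx f V) (hW : W ∈ M.cov) (hG : M.rk G + 2 = M.rank)
    (h0 : ∀ g ∈ G, Y g = 0 ∧ V g = 0 ∧ W g = 0) (hWf : W f = 1) (hVs : V s = 0) (hYs : Y s ≠ 0)
    (hWs : W s = -Y s) : (∀ h, Y h = 0 → V h = W h) ∧ (∀ h, W h = 0 → V h = Y h) := by
  have hs : s ∉ M.cl G := fun h => hYs (h Y hY.1 fun g hg => (h0 g hg).1)
  have hr : M.rk (insert s G) + 1 = M.rank := by
    rw [M.rk_insert_not hs]
    omega
  obtain ⟨Z, hZ, hZs, hZ1, hZ2, hZ3, -⟩ := M.elim' hY.1 hW hYs hWs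
  have hVZ : V = Z := by
    refine M.uniq hV.1 hZ hr ?_ ?_ (e := f) ?_ ?_
    · intro g hg
      rcases hg with rfl | hg
      · exact hVs
      · exact (h0 g hg).2.1
    · intro g hg
      rcases hg with rfl | hg
      · exact hZs
      · rw [hZ1 g (h0 g hg).1]
        exact (h0 g hg).2.2
    · rw [hV.2.1]
      decide
    · rw [hV.2.1, hZ3 f (by rw [hY.2.1, hWf]), hY.2.1]
  subst hVZ
  exact ⟨hZ1, hZ2⟩

theorem bt_side [Finite α] (M : OM α) {f p : α} {Y V : α → SignType} (h : M.Bt f p Y V) :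
    V p = Y p := by
  obtain ⟨hY, hV, hYp, W, G, s, hW, hG, h0, hWf, hWp, hVs, hYs, hWs⟩ := h
  exact (M.bt_aux hY hV hW hG h0 hWf hVs hYs hWs).2 p hWp

theorem bt_larc_pos [Finite α] (M : OM α) {f p : α} {Y V : α → SignType} (h : M.Bt f p Y V)
    (hp : Y p = 1) : M.LArc f p V Y := by
  obtain ⟨hY, hV, hYp, W, G, s, hW, hG, h0, hWf, hWp, hVs, hYs, hWs⟩ := h
  obtain ⟨h1, h2⟩ := M.bt_aux hY hV hW hG h0 hWf hVs hYs hWs
  have hYf : Y f ≠ 0 := by rw [hY.2.1]; decide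
  obtain ⟨X, hX, hXf, hX1, hX2, -, -⟩ := M.elim' hY.1 (M.neg_mem W hW) (s := f) hYf
    (by simp only [hWf, hY.2.1])
  obtain ⟨e, heY, heV⟩ : ∃ e, Y e = 0 ∧ V e ≠ 0 := by
    by_contra hc
    push Not at hc
    have hYV : Y = V := by
      refine M.uniq hY.1 hV.1 hY.2.2 (fun g hg => hg) (fun g hg => hc g hg) (e := f) hYf ?_
      rw [hY.2.1, hV.2.1]
    rw [hYV] at hYs
    exact hYs hVs
  refine ⟨hV, hY, X, G, e, hX, hG, ?_, hXf, ?_, heY, heV, ?_⟩
  · intro g hg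
    refine ⟨(h0 g hg).2.1, (h0 g hg).1, ?_⟩
    rw [hX1 g (h0 g hg).1, (h0 g hg).2.2]
    decide
  · rw [hX2 p (by rw [hWp]; decide), hp]
  · rw [hX1 e heY, h1 e heY]

theorem bt_larc_neg [Finite α] (M : OM α) {f p : α} {Y V : α → SignType} (h : M.Bt f p Y V)
    (hp : Y p = -1) : M.LArc f p Y V := by
  obtain ⟨hY, hV, hYp, W, G, s, hW, hG, h0, hWf, hWp, hVs, hYs, hWs⟩ := h
  have hWf' : W f ≠ 0 := by rw [hWf]; decide
  obtain ⟨X, hX, hXf, hX1, hX2, hX3, -⟩ := M.elim' hW (M.neg_mem Y hY.1) (s := f) hWf'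
    (by simp only [hWf, hY.2.1])
  refine ⟨hY, hV, X, G, s, hX, hG, ?_, hXf, ?_, hVs, hYs, ?_⟩
  · intro g hg
    refine ⟨(h0 g hg).1, (h0 g hg).2.1, ?_⟩
    rw [hX1 g (h0 g hg).2.2, (h0 g hg).1]
    decide
  · rw [hX1 p hWp, hp]
    decide
  · rw [hX3 s hWs, hWs]

end OM

end MUR
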