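import Pool.Agent.MUR.Defs

/-!
First facts: closure operator, exchange, composition.
-/

namespace MUR

universe u v

namespace OM

variable {α : Type u} {β : Type v}

theorem cl_mono (M : OM α) {A B : Set α} (h : A ⊆ B) : M.cl A ⊆ M.cl B :=
  fun _ hx X hX h0 => hx X hX fun a ha => h0 a (h ha)

theorem subset_cl (M : OM α) (A : Set α) : A ⊆ M.cl A := fun _ hx _ _ h0 => h0 _ hx

theorem cl_cl (M : OM α) (A : Set α) : M.cl (M.cl A) = M.cl A := by
  apply Set.Subset.antisymm _ (M.subset_cl _)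
  intro x hx X hX h0
  exact hx X hX fun a ha => ha X hX h0

theorem cl_subset_of (M : OM α) {A B : Set α} (h : A ⊆ M.cl B) : M.cl A ⊆ M.cl B := by
  have := M.cl_mono h
  rwa [M.cl_cl] at this

theorem cl_insert_cl (M : OM α) (A : Set α) (e : α) : M.cl (insert e (M.cl A)) = M.cl (insert e A) := by
  apply Set.Subset.antisymm
  · apply M.cl_subset_of
    apply Set.insert_subset
    · exact M.subset_cl _ (Set.mem_insert _ _)
    · exact M.cl_mono (Set.subset_insert _ _)
  · exact M.cl_mono (Set.insert_subset_insert (M.subset_cl _))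

theorem not_mem_cl (M : OM α) {A : Set α} {x : α} (h : x ∉ M.cl A) :
    ∃ X ∈ M.cov, (∀ a ∈ A, X a = 0) ∧ X x ≠ 0 := by
  simp only [cl, Set.mem_setOf_eq, not_forall] at h
  obtain ⟨X, hX, h0, h1⟩ := h
  exact ⟨X, hX, h0, h1⟩

/-- Exchange. -/
theorem exch (M : OM α) {A : Set α} {x y : α} (h1 : x ∈ M.cl (insert y A)) (h2 : x ∉ M.cl A) :
    y ∈ M.cl (insert x A) := by
  intro X hX h0
  by_contra hy
  obtain ⟨Y, hY, hYA, hYx⟩ := M.not_mem_cl h2
  have hYy : Y y ≠ 0 := by
    intro h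
    apply hYx
    apply h1 Y hY
    intro a ha
    rcases ha with rfl | ha
    · exact h
    · exact hYA a ha
  have hX0 : ∀ a ∈ A, X a = 0 := fun a ha => h0 a (Set.mem_insert_of_mem _ ha)
  have hXx : X x = 0 := h0 x (Set.mem_insert _ _)
  -- choose the sign of Y
  obtain ⟨Y', hY', hYA', hYx', hyy⟩ : ∃ Y' ∈ M.cov, (∀ a ∈ A, Y' a = 0) ∧ Y' x ≠ 0 ∧ X y = -Y' y := by
    by_cases hc : X y = -Y y
    · exact ⟨Y, hY, hYA, hYx, hc⟩
    · refine ⟨_, M.neg_mem Y hY, fun a ha => by simp [hYA a ha], by simpa using hYx, ?_⟩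
      revert hc hy hYy
      generalize X y = s
      generalize Y y = t
      revert s t
      decide
  obtain ⟨Z, hZ, hZy, hZ1⟩ := M.elim X hX Y' hY' y hy hyy
  have : Z x = 0 := by
    apply h1 Z hZ
    intro a ha
    rcases ha with rfl | ha
    · exact hZy
    · rw [hZ1 a (Or.inl (hX0 a ha))]; simp [comp, hX0 a ha, hYA' a ha]
  rw [hZ1 x (Or.inl hXx)] at this
  simp [comp, hXx] at this
  exact hYx' this

/-- The zero set of a covector is closed. -/
theorem cl_zs (M : OM α) {X : α → SignType} (hX : X ∈ M.cov) : M.cl (zs X) = zs X := by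
  apply Set.Subset.antisymm _ (M.subset_cl _)
  intro x hx
  exact hx X hX fun a ha => ha

theorem cl_sub_zs (M : OM α) {X : α → SignType} (hX : X ∈ M.cov) {A : Set α} (h : ∀ a ∈ A, X a = 0) :
    M.cl A ⊆ zs X := fun _ hx => hx X hX h

theorem cl_inter (M : OM α) {A B : Set α} (hA : M.cl A = A) (hB : M.cl B = B) :
    M.cl (A ∩ B) = A ∩ B := by
  apply Set.Subset.antisymm _ (M.subset_cl _)
  intro x hx
  exact ⟨hA ▸ M.cl_mono Set.inter_subset_left hx, hB ▸ M.cl_mono Set.inter_subset_right hx⟩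

theorem comp_zs (X Y : α → SignType) : zs (comp X Y) = zs X ∩ zs Y := by
  ext e
  simp only [zs, comp, Set.mem_setOf_eq, Set.mem_inter_iff]
  by_cases h : X e = 0 <;> simp [h]

/-- The elimination axiom in a more convenient form: `X s = - Y s` nonzero. Outside the separation
set the result is the composition. -/
theorem elim' (M : OM α) {X Y : α → SignType} (hX : X ∈ M.cov) (hY : Y ∈ M.cov) {s : α}
    (hs : X s ≠ 0) (hs' : Y s = -X s) :
    ∃ Z ∈ M.cov, Z s = 0 ∧ (∀ h, X h = 0 → Z h = Y h) ∧ (∀ h, Y h = 0 → Z h = X h) ∧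
      (∀ h, X h = Y h → Z h = X h) ∧ (∀ h, X h ≠ 0 → X h ≠ -Y h → Z h = X h) := by
  obtain ⟨Z, hZ, h0, h1⟩ := M.elim X hX Y hY s hs (by rw [hs', neg_neg])
  refine ⟨Z, hZ, h0, fun h hh => ?_, fun h hh => ?_, fun h hh => ?_, fun h hh hh' => ?_⟩
  · rw [h1 h (Or.inl hh)]; simp [comp, hh]
  · by_cases hx : X h = 0
    · rw [h1 h (Or.inl hx)]; simp [comp, hx, hh]
    · rw [h1 h (Or.inr (by rw [hh]; simpa using hx))]; simp [comp, hx]
  · by_cases hx : X h = 0
    · rw [h1 h (Or.inl hx)]; simp [comp, hx, ← hh]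
    · have : X h ≠ -Y h := by
        rw [← hh]
        revert hx
        generalize X h = t
        revert t
        decide
      rw [h1 h (Or.inr this)]; simp [comp, hx]
  · rw [h1 h (Or.inr hh')]; simp [comp, hh]

end OM

end MUR
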