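import Pool.Agent.MUR.RKC

/-!
Line arcs decompose into arcs between neighbours. (100 lines)

Induction on the number of e with Y e = -Z e nonzero (S(Y,Z)). Data: X, G, e of the LArc.
Let X' be the elimination of f between Z and -Y (Z f = 1, (-Y) f = -1): X' f = 0,
X' h = comp Z (-Y) h unless Z h = Y h nonzero. X and X' vanish on insert f G, of rank rank - 1
(f is not in cl G as Y f = 1), and X e = -Y e = X' e nonzero, so X = X' by `uniq`.
If S(Y,Z) is empty: Arc Y Z: cocircuits by `cocircuit_iff`; Y ≠ Z by e; the rank of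
{Y = 0 and Z = 0} = zs (comp Y Z) is rank - 2: it contains G, and it is a flat properly inside
zs Z (it misses e). The relation Y h = 0 -> X h = Z h and Z h = 0 -> X h = -Y h from X = X'.
If s is in S(Y,Z): eliminate s between Y and Z: V with V s = 0, V f = 1, V = 0 on G,
V h = comp Y Z h outside S(Y,Z). V is a vertex (zs V contains insert s G, rank rank - 1). Then
LArc Y V (same X, G, element s: X s = Z s = -Y s by X = X') and LArc V Z (same X, G, element e:
V e = Y e). S(Y,V) and S(V,Z) are inside S(Y,Z) minus s. Use `Relation.TransGen.trans`.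
`acyclic_lacyclic`: a closed chain of line arcs gives a closed chain of arcs
(`Relation.TransGen.trans_induction_on` or `Relation.TransGen.lift'`/bind).
-/

namespace MUR

universe u v

namespace OM

variable {α : Type u} {β : Type v}

private lemma LAR_aux [Finite α] (M : OM α) (f p : α) : ∀ (n : ℕ) (Y Z : α → SignType),
    {s | Y s ≠ 0 ∧ Z s = -Y s}.ncard = n → M.LArc f p Y Z →
      Relation.TransGen (M.Arc f p) Y Z := by
  intro n
  induction n using Nat.strong_induction_on with
  | _ n ih =>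
  intro Y Z hn h
  obtain ⟨hY, hZ, X, G, e, hX, hG, hG0, hXf, hXp, hZe, hYe, hXe⟩ := h
  obtain ⟨hYc, hYf, hYr⟩ := hY
  obtain ⟨hZc, hZf, hZr⟩ := hZ
  have hfG : f ∉ M.cl G := fun hf => by
    have := hf Y hYc (fun g hg => (hG0 g hg).1)
    rw [hYf] at this
    exact absurd this (by decide)
  have hfr : M.rk (insert f G) + 1 = M.rank := by
    rw [M.rk_insert_not hfG]
    omega
  obtain ⟨X', hX', hX'f, h1, h2, h3, -⟩ := M.elim' hZc (M.neg_mem Y hYc) (s := f)
    (by rw [hZf]; decide) (by rw [hZf, hYf])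
  have hXX : X = X' := by
    refine M.uniq hX hX' hfr ?_ ?_ (e := e) ?_ ?_
    · rintro g (rfl | hg)
      · exact hXf
      · exact (hG0 g hg).2.2
    · rintro g (rfl | hg)
      · exact hX'f
      · rw [h1 g (hG0 g hg).2.1, (hG0 g hg).1]
        decide
    · rw [hXe]
      revert hYe
      generalize Y e = t
      revert t
      decide
    · rw [hXe, h1 e hZe]
  subst hXX
  by_cases hS : ∃ s, Y s ≠ 0 ∧ Z s = -Y s
  · obtain ⟨s, hs, hs'⟩ := hS
    obtain ⟨V, hV, hVs, v1, v2, v3, v4⟩ := M.elim' hYc hZc hs hs'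
    have hVf : V f = 1 := by rw [v3 f (by rw [hYf, hZf]), hYf]
    have hVG : ∀ g ∈ G, V g = 0 := fun g hg => by rw [v1 g (hG0 g hg).1, (hG0 g hg).2.1]
    have hsG : s ∉ M.cl G := fun hc => hs (hc Y hYc (fun g hg => (hG0 g hg).1))
    have hsr : M.rk (insert s G) + 1 = M.rank := by
      rw [M.rk_insert_not hsG]
      omega
    have hVx : M.Vx f V := by
      refine ⟨hV, hVf, (M.rk_zs_eq hV (e := f) (by rw [hVf]; decide) (A := insert s G) ?_ hsr).1⟩
      rintro g (rfl | hg)
      · exact hVs
      · exact hVG g hg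
    have hXs : X s = -Y s := by
      rw [h3 s hs', hs']
    have a1 : M.LArc f p Y V := ⟨⟨hYc, hYf, hYr⟩, hVx, X, G, s, hX, hG,
      fun g hg => ⟨(hG0 g hg).1, hVG g hg, (hG0 g hg).2.2⟩, hXf, hXp, hVs, hs, hXs⟩
    have hVe : V e = Y e := v2 e hZe
    have a2 : M.LArc f p V Z := ⟨hVx, ⟨hZc, hZf, hZr⟩, X, G, e, hX, hG,
      fun g hg => ⟨hVG g hg, (hG0 g hg).2.1, (hG0 g hg).2.2⟩, hXf, hXp, hZe,
      by rw [hVe]; exact hYe, by rw [hVe]; exact hXe⟩
    have b1 : {h | Y h ≠ 0 ∧ V h = -Y h} ⊂ {h | Y h ≠ 0 ∧ Z h = -Y h} := by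
      refine Set.ssubset_iff_exists.mpr ⟨?_, s, ⟨hs, hs'⟩, ?_⟩
      · rintro h ⟨c1, c2⟩
        refine ⟨c1, ?_⟩
        by_contra hc
        have c3 : Y h ≠ -Z h := by
          intro hh
          apply hc
          rw [hh, neg_neg]
        have c4 := v4 h c1 c3
        rw [c4] at c2
        revert c1 c2
        generalize Y h = t
        revert t
        decide
      · rintro ⟨-, c2⟩
        rw [hVs] at c2
        revert hs c2
        generalize Y s = t
        revert t
        decide
    have b2 : {h | V h ≠ 0 ∧ Z h = -V h} ⊂ {h | Y h ≠ 0 ∧ Z h = -Y h} := by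
      refine Set.ssubset_iff_exists.mpr ⟨?_, s, ⟨hs, hs'⟩, ?_⟩
      · rintro h ⟨c1, c2⟩
        have c5 : Y h ≠ 0 := by
          intro h0
          have c6 := v1 h h0
          rw [← c6] at c2
          revert c1 c2
          generalize V h = t
          revert t
          decide
        refine ⟨c5, ?_⟩
        by_contra hc
        have c3 : Y h ≠ -Z h := by
          intro hh
          apply hc
          rw [hh, neg_neg]
        rw [v4 h c5 c3] at c2
        exact hc c2
      · rintro ⟨c1, -⟩
        exact c1 hVs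
    have n1 : {h | Y h ≠ 0 ∧ V h = -Y h}.ncard < n := by
      rw [← hn]
      exact Set.ncard_lt_ncard b1 (Set.toFinite _)
    have n2 : {h | V h ≠ 0 ∧ Z h = -V h}.ncard < n := by
      rw [← hn]
      exact Set.ncard_lt_ncard b2 (Set.toFinite _)
    exact (ih _ n1 Y V rfl a1).trans (ih _ n2 V Z rfl a2)
  · push_neg at hS
    refine Relation.TransGen.single ⟨?_, ?_, hYf, hZf, ?_, ?_, ?_, X, hX, hXf, hXp, ?_⟩
    · exact (M.cocircuit_iff Y).mpr ⟨hYc, ⟨e, hYe⟩, hYr⟩
    · exact (M.cocircuit_iff Z).mpr ⟨hZc, ⟨f, by rw [hZf]; decide⟩, hZr⟩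
    · intro hc
      rw [hc] at hYe
      exact hYe hZe
    · intro h
      have c1 := hS h
      revert c1
      generalize Y h = t
      generalize Z h = t'
      revert t t'
      decide
    · have c1 : M.rk G ≤ M.rk {e | Y e = 0 ∧ Z e = 0} :=
        M.rk_mono fun g hg => ⟨(hG0 g hg).1, (hG0 g hg).2.1⟩
      have c2 : e ∉ M.cl {e | Y e = 0 ∧ Z e = 0} := fun hc =>
        hYe (hc Y hYc fun a ha => ha.1)
      have c3 : M.rk (insert e {e | Y e = 0 ∧ Z e = 0}) ≤ M.rk (zs Z) := by
        apply M.rk_mono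
        rintro a (rfl | ha)
        · exact hZe
        · exact ha.2
      rw [M.rk_insert_not c2] at c3
      omega
    · intro h
      refine ⟨fun c1 => ?_, fun c1 => h1 h c1⟩
      exact h2 h (by simp [c1])

theorem larc_transGen [Finite α] (M : OM α) {f p : α} {Y Z : α → SignType}
    (h : M.LArc f p Y Z) : Relation.TransGen (M.Arc f p) Y Z :=
  LAR_aux M f p _ Y Z rfl h

theorem acyclic_lacyclic [Finite α] (M : OM α) {f p : α} (h : M.Acyclic f p) :
    M.LAcyclic f p := by
  intro Y hY
  have key : ∀ Z, Relation.TransGen (M.LArc f p) Y Z → Relation.TransGen (M.Arc f p) Y Z := by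
    intro Z hZ
    induction hZ with
    | single h1 => exact M.larc_transGen h1
    | tail _ h1 ih => exact ih.trans (M.larc_transGen h1)
  exact h Y (key Y hY)

end OM

end MUR
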