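import Pool.Agent.MUR.BTA

/-!
Sources exist, and every other vertex has a chain to one. (60 lines)

The relation R V Y := Bt Y V has no directed cycle: along R the value at p is constant (`bt_side`) and
nonzero, so all steps are of the same kind (`bt_larc_pos` or `bt_larc_neg`) and a cycle would give
a cycle of line arcs (in the same or in the reverse direction, `Relation.transGen_swap`). As the
type of sign vectors is finite, the transitive closure of R is well founded
(`Finite.wellFounded_of_trans_of_irrefl`). Induct: if Y is not a source there is V with Bt Y V;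
apply the induction hypothesis to V (a vertex with V p nonzero): either V is a source (take
w := Y, P := V) or the chain continues.
-/

namespace MUR

universe u v

namespace OM

variable {α : Type u} {β : Type v}

private lemma PTH_chain [Finite α] (M : OM α) {f p : α} {V Y : α → SignType}
    (h : Relation.TransGen (fun V Y => M.Bt f p Y V) V Y) :
    V p = Y p ∧ Y p ≠ 0 ∧ (Y p = 1 → Relation.TransGen (M.LArc f p) V Y) ∧
      (Y p = -1 → Relation.TransGen (M.LArc f p) Y V) := by
  induction h with
  | single h =>
    exact ⟨M.bt_side h, h.2.2.1, fun h1 => .single (M.bt_larc_pos h h1),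
      fun h1 => .single (M.bt_larc_neg h h1)⟩
  | @tail b c _ h ih =>
    have hs := M.bt_side h
    refine ⟨ih.1.trans hs, h.2.2.1, fun h1 => ?_, fun h1 => ?_⟩
    · exact (ih.2.2.1 (hs.trans h1)).tail (M.bt_larc_pos h h1)
    · exact Relation.TransGen.head (M.bt_larc_neg h h1) (ih.2.2.2 (hs.trans h1))

theorem path [Finite α] (M : OM α) {f p : α} (hac : M.LAcyclic f p) {Y : α → SignType}
    (hY : M.Vx f Y) (hp : Y p ≠ 0) :
    M.Source f p Y ∨ ∃ w P, M.Bt f p w P ∧ M.Source f p P := by
  have hirr : ∀ Z : α → SignType, ¬ Relation.TransGen (fun V Y => M.Bt f p Y V) Z Z := by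
    intro Z hZ
    obtain ⟨-, h0, h1, h2⟩ := PTH_chain M hZ
    have h3 : Z p = 1 ∨ Z p = -1 := by
      revert h0
      generalize Z p = t
      revert t
      decide
    rcases h3 with h3 | h3
    · exact hac _ (h1 h3)
    · exact hac _ (h2 h3)
  haveI : IsTrans (α → SignType) (Relation.TransGen (fun V Y => M.Bt f p Y V)) :=
    ⟨fun _ _ _ h1 h2 => h1.trans h2⟩
  haveI : Std.Irrefl (Relation.TransGen (fun V Y => M.Bt f p Y V)) := ⟨hirr⟩
  have hwf : WellFounded (Relation.TransGen (fun V Y => M.Bt f p Y V)) :=
    Finite.wellFounded_of_trans_of_irrefl _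
  induction Y using hwf.induction with
  | _ Y ih =>
    by_cases hS : M.Source f p Y
    · exact Or.inl hS
    · have h1 : ∃ V, M.Bt f p Y V := by
        by_contra hc
        push_neg at hc
        exact hS ⟨hY, hp, hc⟩
      obtain ⟨V, hV⟩ := h1
      have hVp : V p ≠ 0 := by
        rw [M.bt_side hV]
        exact hp
      rcases ih V (.single hV) hV.2.1 hVp with h2 | h2
      · exact Or.inr ⟨Y, V, hV, h2⟩
      · exact Or.inr h2

end OM

end MUR
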