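import Pool.Agent.MUR.RKB

/-!
Rank and closure in minors. (60 lines)

`cl_minor` is direct from the definition. `rk_minor`: by induction on the finite set B: for B = ∅ both
sides are rk A; inserting b: by `cl_minor`, b is in the closure of B in the minor iff i b is in
M.cl (i '' B ∪ A); apply the insertion rules on both sides.
-/

namespace MUR

universe u v

namespace OM

variable {α : Type u} {β : Type v}

theorem cl_minor (M : OM α) (i : β → α) (A : Set α) (B : Set β) :
    (M.minor i A).cl B = {b | i b ∈ M.cl (i '' B ∪ A)} := by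
  ext b
  constructor
  · intro hb Y hY h0
    exact hb (fun b => Y (i b)) ⟨Y, hY, fun a ha => h0 a (Or.inr ha), rfl⟩
      (fun a ha => h0 _ (Or.inl ⟨a, ha, rfl⟩))
  · rintro hb X ⟨Y, hY, hA, rfl⟩ h0
    refine hb Y hY ?_
    rintro _ (⟨a, ha, rfl⟩ | ha)
    · exact h0 a ha
    · exact hA _ ha

theorem rk_minor [Finite α] [Finite β] (M : OM α) (i : β → α) (A : Set α) (B : Set β) :
    (M.minor i A).rk B + M.rk A = M.rk (i '' B ∪ A) := by
  induction B, B.toFinite using Set.Finite.induction_on with
  | empty => simp [rk_empty]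
  | @insert b B hb _ ih =>
    rw [Set.image_insert_eq, Set.insert_union]
    by_cases h : b ∈ (M.minor i A).cl B
    · have h1 : i b ∈ M.cl (i '' B ∪ A) := by
        rw [cl_minor] at h
        exact h
      rw [rk_insert_mem _ h, rk_insert_mem _ h1, ih]
    · have h1 : i b ∉ M.cl (i '' B ∪ A) := by
        rw [cl_minor] at h
        exact h
      rw [rk_insert_not _ h, rk_insert_not _ h1, ← ih]
      ring

theorem rank_minor [Finite α] [Finite β] (M : OM α) (i : β → α) (A : Set α) :
    (M.minor i A).rank + M.rk A = M.rk (Set.range i ∪ A) := by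
  unfold rank
  rw [rk_minor, Set.image_univ]

private lemma RKM_ext {M N : OM β} (h : M.cov = N.cov) : M = N := by
  cases M
  cases N
  simp only at h
  subst h
  rfl

theorem minor_con (M : OM α) (i : β → α) (p : α) : M.minor i {p} = (M.con p).minor i ∅ := by
  apply RKM_ext
  ext X
  constructor
  · rintro ⟨Y, hY, h0, rfl⟩
    exact ⟨Y, ⟨Y, hY, h0, rfl⟩, fun a ha => absurd ha (Set.notMem_empty a), rfl⟩
  · rintro ⟨Y, ⟨Z, hZ, h0, rfl⟩, -, rfl⟩
    exact ⟨Z, hZ, h0, rfl⟩

end OM

end MUR
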