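import Pool.Agent.MUR.RKC

/-!
The star of a source. (60 lines)

Let A := insert p G. f is not in A (Y f = 1 and Y = 0 on G; p ≠ f). W is a nonzero covector vanishing on
A, so by Generic there is X with X f nonzero vanishing on A. rk A + 1 = rank (p is not in cl G as
Y p nonzero). By `uniq'` W = X or W = -X, so W f is nonzero. Let W' be W or -W with W' f = 1 (W' e = W f * W e).
Suppose W s, Y s nonzero and W s ≠ Y s * W f. Then W' s = -Y s. Eliminate s between Y and W': V
with V s = 0, V f = 1, V = 0 on G. Then V is a vertex (zs V contains insert s G of rank rank - 1,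
`rk_zs_eq`) and Bt Y V holds with W', G, s: contradiction with Source.
-/

namespace MUR

universe u v

namespace OM

variable {α : Type u} {β : Type v}

theorem star [Finite α] (M : OM α) {f p : α} (hg : M.Generic f) (hpf : p ≠ f)
    {Y : α → SignType} (hS : M.Source f p Y) {W : α → SignType} {G : Set α} (hW : W ∈ M.cov)
    (hW0 : ∃ e, W e ≠ 0) (hWp : W p = 0) (hG : M.rk G + 2 = M.rank)
    (h0 : ∀ g ∈ G, Y g = 0 ∧ W g = 0) :
    W f ≠ 0 ∧ ∀ s, W s = 0 ∨ Y s = 0 ∨ W s = Y s * W f := by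
  obtain ⟨hY, hYp, hnb⟩ := hS
  obtain ⟨hYc, hYf, hYr⟩ := id hY
  obtain ⟨e₀, he₀⟩ := hW0
  have hYG : ∀ g ∈ G, Y g = 0 := fun g hg' => (h0 g hg').1
  have hWG : ∀ g ∈ G, W g = 0 := fun g hg' => (h0 g hg').2
  have hfA : f ∉ insert p G := by
    intro hf
    rcases hf with hf | hf
    · exact hpf hf.symm
    · have := hYG f hf
      rw [hYf] at this
      exact absurd this (by decide)
  have hWA : ∀ a ∈ insert p G, W a = 0 := by
    intro a ha
    rcases ha with rfl | ha
    · exact hWp
    · exact hWG a ha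
  obtain ⟨X, hX, hXf, hXA⟩ := hg.2 (insert p G) hfA ⟨W, hW, ⟨e₀, he₀⟩, hWA⟩
  have hpG : p ∉ M.cl G := fun h => hYp (h Y hYc hYG)
  have hrA : M.rk (insert p G) + 1 = M.rank := by
    rw [M.rk_insert_not hpG]; omega
  have hWf : W f ≠ 0 := by
    rcases M.uniq' hW hX hrA hWA hXA he₀ hXf with h | h
    · rw [h]; exact hXf
    · rw [h]; simpa using hXf
  refine ⟨hWf, fun s => ?_⟩
  by_contra hcon
  push Not at hcon
  obtain ⟨hWs, hYs, hne⟩ := hcon
  -- the normalised covector
  obtain ⟨W', hW', hW'0, hW'f, hW's⟩ : ∃ W' ∈ M.cov, (∀ h, W h = 0 → W' h = 0) ∧ W' f = 1 ∧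
      W' s = -Y s := by
    rcases h1 : W f with _ | _ | _
    · exact absurd h1 hWf
    · refine ⟨_, M.neg_mem W hW, fun h hh => by simp [hh], ?_, ?_⟩
      · show -W f = 1
        rw [h1]; rfl
      · show -W s = -Y s
        rw [h1] at hne
        revert hWs hYs hne
        generalize W s = a
        generalize Y s = b
        revert a b
        decide
    · refine ⟨W, hW, fun h hh => hh, h1, ?_⟩
      rw [h1] at hne
      revert hWs hYs hne
      generalize W s = a
      generalize Y s = b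
      revert a b
      decide
  obtain ⟨V, hV, hVs, hV1, hV2, hV3, -⟩ := M.elim' hYc hW' hYs hW's
  have hVf : V f = 1 := by
    rw [hV3 f (by rw [hYf, hW'f]), hYf]
  have hVG : ∀ g ∈ G, V g = 0 := fun g hg' => by
    rw [hV1 g (hYG g hg')]; exact hW'0 g (hWG g hg')
  have hsG : s ∉ M.cl G := fun h => hYs (h Y hYc hYG)
  have hrs : M.rk (insert s G) + 1 = M.rank := by
    rw [M.rk_insert_not hsG]; omega
  have hVs' : ∀ a ∈ insert s G, V a = 0 := by
    intro a ha
    rcases ha with rfl | ha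
    · exact hVs
    · exact hVG a ha
  have hVz := (M.rk_zs_eq hV (e := f) (by rw [hVf]; decide) hVs' hrs).1
  exact hnb V ⟨hY, ⟨hV, hVf, hVz⟩, hYp, W', G, s, hW', hG,
    fun g hg' => ⟨hYG g hg', hVG g hg', hW'0 g (hWG g hg')⟩, hW'f, hW'0 p hWp, hVs, hYs, hW's⟩

end OM

end MUR
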