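import Pool.Agent.MUR.RKC

/-!
Vertices avoiding an element. (60 lines)

Let B be maximal among the subsets of the complement of f that contain A and satisfy e ∉ cl B (finite).
Claim rk B + 1 = rank. Otherwise insert e B does not span (rk (insert e B) = rk B + 1 < rank); as f is
not a coloop (first part of Generic) some h ≠ f is outside cl (insert e B) (otherwise a nonzero
covector vanishing on insert e B would vanish on all h ≠ f, hence be zero). By maximality e ∈
cl (insert h B), by exchange h ∈ cl (insert e B), contradiction. Take Y vanishing on B with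
Y e nonzero (`not_mem_cl`). By Generic there is X with X f nonzero vanishing on B; by
`uniq'` Y f is nonzero; replace Y by -Y if necessary. Vx by `rk_zs_eq`.
-/

namespace MUR

universe u v

namespace OM

variable {α : Type u} {β : Type v}

theorem vertex_exists [Finite α] (M : OM α) {f : α} (hg : M.Generic f) {A : Set α} {e : α}
    (hf : f ∉ A) (hef : e ≠ f) (he : e ∉ M.cl A) :
    ∃ Y, M.Vx f Y ∧ (∀ a ∈ A, Y a = 0) ∧ Y e ≠ 0 := by
  obtain ⟨B, hAB, hBmax⟩ := (Set.toFinite {B : Set α | A ⊆ B ∧ f ∉ B ∧ e ∉ M.cl B}).exists_le_maximal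
    (show A ∈ {B : Set α | A ⊆ B ∧ f ∉ B ∧ e ∉ M.cl B} from ⟨subset_rfl, hf, he⟩)
  obtain ⟨⟨hAB', hfB, heB⟩, hmax⟩ := hBmax
  have hrkB : M.rk B + 1 = M.rank := by
    have h1 : M.rk (insert e B) = M.rk B + 1 := M.rk_insert_not heB
    have h2 : M.rk (insert e B) ≤ M.rank := M.rk_mono (Set.subset_univ _)
    by_contra hne
    have h3 : M.rk (insert e B) < M.rank := by omega
    obtain ⟨X, hX, ⟨x, hx⟩, hX0⟩ := M.exists_cov_of_rk h3
    obtain ⟨h, hhf, hXh⟩ : ∃ h, h ≠ f ∧ X h ≠ 0 := by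
      by_contra hc
      push Not at hc
      have hXf := hg.1 X hX hc
      by_cases hxf : x = f
      · exact hx (hxf ▸ hXf)
      · exact hx (hc x hxf)
    have h4 : h ∉ M.cl (insert e B) := fun h5 => hXh (h5 X hX hX0)
    have h5 : e ∈ M.cl (insert h B) := by
      by_contra h6
      have h7 : insert h B ≤ B := hmax (show insert h B ∈ {B : Set α | A ⊆ B ∧ f ∉ B ∧ e ∉ M.cl B} from
        ⟨hAB'.trans (Set.subset_insert _ _), fun h8 => by
          rcases h8 with h8 | h8
          · exact hhf h8.symm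
          · exact hfB h8, h6⟩) (Set.subset_insert _ _)
      exact h4 (M.subset_cl _ (Set.mem_insert_of_mem _ (h7 (Set.mem_insert _ _))))
    exact h4 (M.exch h5 heB)
  obtain ⟨Y, hY, hYB, hYe⟩ := M.not_mem_cl heB
  obtain ⟨X, hX, hXf, hXB⟩ := hg.2 B hfB ⟨Y, hY, ⟨e, hYe⟩, hYB⟩
  have hYf : Y f ≠ 0 := by
    rcases M.uniq' hY hX hrkB hYB hXB hYe hXf with h | h
    · rw [h]; exact hXf
    · rw [h]; simpa using hXf
  obtain ⟨Y', hY', hYB', hYe', hYf'⟩ : ∃ Y' ∈ M.cov, (∀ a ∈ B, Y' a = 0) ∧ Y' e ≠ 0 ∧ Y' f = 1 := by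
    by_cases hc : Y f = 1
    · exact ⟨Y, hY, hYB, hYe, hc⟩
    · refine ⟨_, M.neg_mem Y hY, fun a ha => by simp [hYB a ha], by simpa using hYe, ?_⟩
      revert hc hYf
      generalize Y f = t
      revert t
      decide
  exact ⟨Y', ⟨hY', hYf', (M.rk_zs_eq hY' hYe' hYB' hrkB).1⟩, fun a ha => hYB' a (hAB' ha), hYe'⟩

end OM

end MUR
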