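import Pool.Agent.MUR.RKC
import Pool.Agent.MUR.RKM
import Pool.Agent.MUR.STR
import Pool.Agent.MUR.LAR
import Pool.Agent.MUR.PTH
import Pool.Agent.MUR.VXE

/-!
From the extended oriented matroid on Option to the deletion. (120 lines)

D := M.del = M.minor some ∅: rk_D B = rk (some '' B) (rk ∅ = 0). `rank_del`: range some together with f spans, and f =
none is in cl (range some) by the first part of Generic.
`simpleOff_del`: SimpleOff from Simple of the deletion (elements e ≠ none are some a).
`flat_del`: restrict Y and F: F' := some ⁻¹' F; none ∉ F and c ≠ none since Y none = 1; closures by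
`cl_minor`; ranks by `rk_minor`.
`near_of_source`: let Z be a cocircuit of D with Z p = 0, coline condition. Lift Z to W in M.cov. G := some '' {Y = 0 and Z = 0}. By
`star`: W none ≠ 0 and for all s: W s = 0 or Y s = 0 or W s = Y s * W none; distinguish W none = 1 or -1.
Cocircuit of D: `cocircuit_iff` and ranks.
`source_exists`: `vertex_exists` with A = ∅, e = some p, and `path`.
-/

namespace MUR

universe u v

namespace OM

variable {α : Type u} {β : Type v}

theorem rank_del [Finite α] (M : OM (Option α)) (hg : M.Generic none) :
    M.del.rank = M.rank := by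
  have h1 := M.rank_minor (some : α → Option α) ∅
  rw [M.rk_empty, Nat.add_zero, Set.union_empty] at h1
  have h2 : M.cl (Set.range (some : α → Option α)) = Set.univ := by
    apply Set.eq_univ_of_forall
    intro x X hX h0
    cases x with
    | some a => exact h0 _ ⟨a, rfl⟩
    | none =>
      apply hg.1 X hX
      intro e he
      cases e with
      | some a => exact h0 _ ⟨a, rfl⟩
      | none => exact absurd rfl he
  have h3 := M.rk_cl (Set.range (some : α → Option α))
  rw [h2] at h3
  show (M.minor some ∅).rank = M.rk Set.univ
  rw [h1, h3]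

theorem simpleOff_of_del (M : OM (Option α)) (hs : M.del.Simple) : M.SimpleOff none := by
  refine ⟨fun e he => ?_, fun e h he hh heh => ?_⟩
  · cases e with
    | none => exact absurd rfl he
    | some a =>
      obtain ⟨X, ⟨Y, hY, -, rfl⟩, hX⟩ := hs.1 a
      exact ⟨Y, hY, hX⟩
  · cases e with
    | none => exact absurd rfl he
    | some a =>
      cases h with
      | none => exact absurd rfl hh
      | some b =>
        obtain ⟨X, ⟨Y, hY, -, rfl⟩, hX1, hX2⟩ := hs.2 a b (fun hab => heh (by rw [hab]))
        exact ⟨Y, hY, hX1, hX2⟩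

private theorem del_rk [Finite α] (M : OM (Option α)) (B : Set α) : M.del.rk B = M.rk (some '' B) := by
  have h1 := M.rk_minor (some : α → Option α) ∅ B
  rw [M.rk_empty, Nat.add_zero, Set.union_empty] at h1
  exact h1

private theorem del_zs {Y : Option α → SignType} (hY : Y none ≠ 0) :
    some '' (zs fun a => Y (some a)) = zs Y := by
  ext x
  constructor
  · rintro ⟨a, ha, rfl⟩
    exact ha
  · intro hx
    cases x with
    | none => exact absurd hx hY
    | some a => exact ⟨a, hx, rfl⟩

theorem flat_del [Finite α] (M : OM (Option α)) (hg : M.Generic none)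
    (h : ∃ (F : Set (Option α)) (c : Option α) (Y : Option α → SignType), c ∉ F ∧ M.Vx none Y ∧
      (∀ e, Y e = 0 ↔ e ∈ insert c F) ∧ M.cl F = F ∧ M.rk F + 2 = M.rank) : M.del.Flat := by
  obtain ⟨F, c, Y, hc, ⟨hY, hYn, -⟩, hz, hcl, hrk⟩ := h
  have hn : none ∉ insert c F := by
    intro hh
    have := (hz none).2 hh
    rw [hYn] at this
    exact absurd this (by decide)
  have hnF : none ∉ F := fun hh => hn (Set.mem_insert_of_mem _ hh)
  cases c with
  | none => exact absurd (Set.mem_insert _ _) hn
  | some c =>
    have hF : some '' (some ⁻¹' F : Set α) = F := by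
      ext x
      constructor
      · rintro ⟨a, ha, rfl⟩
        exact ha
      · intro hx
        cases x with
        | none => exact absurd hx hnF
        | some a => exact ⟨a, hx, rfl⟩
    refine ⟨some ⁻¹' F, c, fun a => Y (some a), hc, ⟨Y, hY, by simp, rfl⟩, ?_, ?_, ?_⟩
    · intro e
      rw [hz (some e)]
      constructor
      · rintro (h1 | h1)
        · left
          exact Option.some_injective _ h1
        · right
          exact h1
      · rintro (h1 | h1)
        · left
          rw [h1]
        · right
          exact h1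
    · have h1 := M.cl_minor (some : α → Option α) ∅ (some ⁻¹' F)
      rw [Set.union_empty, hF, hcl] at h1
      exact h1
    · rw [M.rank_del hg, del_rk, hF]
      exact hrk

theorem near_of_source [Finite α] (M : OM (Option α)) (hg : M.Generic none) {p : α}
    {Y : Option α → SignType} (hS : M.Source none (some p) Y) :
    M.del.NearPair (fun a => Y (some a)) p := by
  obtain ⟨⟨hY, hYn, hYr⟩, hYp, hB⟩ := hS
  have hYn0 : Y none ≠ 0 := by
    rw [hYn]
    decide
  refine ⟨?_, hYp, ?_⟩
  · rw [cocircuit_iff]
    refine ⟨⟨Y, hY, by simp, rfl⟩, ⟨p, hYp⟩, ?_⟩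
    rw [del_rk, M.rank_del hg, del_zs hYn0]
    exact hYr
  · intro Z hZ hZp hr
    obtain ⟨⟨W, hW, -, rfl⟩, ⟨e0, he0⟩, -⟩ := hZ
    rw [del_rk, M.rank_del hg] at hr
    obtain ⟨h1, h2⟩ := M.star hg (by simp : (some p : Option α) ≠ none) ⟨⟨hY, hYn, hYr⟩, hYp, hB⟩ hW
      ⟨some e0, he0⟩ hZp hr (by
        rintro g ⟨a, ha, rfl⟩
        exact ha)
    have h3 : W none = 1 ∨ W none = -1 := by
      revert h1
      generalize W none = t
      revert t
      decide
    rcases h3 with h3 | h3
    · left
      intro e
      rcases h2 (some e) with h4 | h4 | h4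
      · exact Or.inr (Or.inl h4)
      · exact Or.inl h4
      · rw [h3, mul_one] at h4
        exact Or.inr (Or.inr h4.symm)
    · right
      intro e
      rcases h2 (some e) with h4 | h4 | h4
      · exact Or.inr (Or.inl h4)
      · exact Or.inl h4
      · right
        right
        show Y (some e) = -W (some e)
        rw [h4, h3]
        generalize Y (some e) = t
        revert t
        decide

theorem source_exists [Finite α] (M : OM (Option α)) (hg : M.Generic none) (hs : M.del.Simple)
    {p : α} (hac : M.LAcyclic none (some p)) : ∃ Y, M.Source none (some p) Y := by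
  have he : (some p : Option α) ∉ M.cl ∅ := by
    obtain ⟨X, ⟨Y, hY, -, rfl⟩, hX⟩ := hs.1 p
    intro hh
    exact hX (hh Y hY (by simp))
  obtain ⟨Y, hY, -, hYp⟩ := M.vertex_exists hg (A := ∅) (e := some p) (by simp) (by simp) he
  rcases M.path hac hY hYp with h | ⟨w, P, -, h⟩
  · exact ⟨Y, h⟩
  · exact ⟨P, h⟩

end OM

end MUR
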