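import Mathlib

/-!
Definitions for oriented matroids given by covectors, their tope graphs, programs with a point in
general position, and the local condition used in the results on Murty's conjecture.
-/

namespace MUR

universe u v

/-- Composition of sign vectors. -/
def comp {α : Type u} (X Y : α → SignType) : α → SignType := fun e => if X e = 0 then Y e else X e

/-- An oriented matroid on the ground set `α`, given by its set of covectors. -/
structure OM (α : Type u) where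
  cov : Set (α → SignType)
  zero_mem : (fun _ => 0) ∈ cov
  neg_mem : ∀ X ∈ cov, (fun e => -X e) ∈ cov
  comp_mem : ∀ X ∈ cov, ∀ Y ∈ cov, comp X Y ∈ cov
  elim : ∀ X ∈ cov, ∀ Y ∈ cov, ∀ e, X e ≠ 0 → X e = -Y e →
    ∃ Z ∈ cov, Z e = 0 ∧ ∀ h, (X h = 0 ∨ X h ≠ -Y h) → Z h = comp X Y h

namespace OM

variable {α : Type u} {β : Type v}

/-- Zero set of a sign vector. -/
def zs (X : α → SignType) : Set α := {e | X e = 0}

/-- Independence in the underlying matroid: every element of `I` is separated from the rest of `I`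
by a covector. -/
def Indep (M : OM α) (I : Set α) : Prop :=
  ∀ e ∈ I, ∃ X ∈ M.cov, X e ≠ 0 ∧ ∀ a ∈ I, a ≠ e → X a = 0

/-- Rank of a set in the underlying matroid: the largest size of an independent subset. -/
noncomputable def rk (M : OM α) (A : Set α) : ℕ :=
  sSup {n | ∃ I : Finset α, (I : Set α) ⊆ A ∧ M.Indep I ∧ I.card = n}

/-- The rank of the oriented matroid. -/
noncomputable def rank (M : OM α) : ℕ := M.rk Set.univ

/-- Closure in the underlying matroid. -/
def cl (M : OM α) (A : Set α) : Set α := {x | ∀ X ∈ M.cov, (∀ a ∈ A, X a = 0) → X x = 0}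

/-- Simple: no loops and no parallel elements. -/
def Simple (M : OM α) : Prop :=
  (∀ e, ∃ X ∈ M.cov, X e ≠ 0) ∧ ∀ e h, e ≠ h → ∃ X ∈ M.cov, X e = 0 ∧ X h ≠ 0

/-- Cocircuits: nonzero covectors with maximal zero set (equivalently minimal support). -/
def Cocircuit (M : OM α) (Y : α → SignType) : Prop :=
  Y ∈ M.cov ∧ (∃ e, Y e ≠ 0) ∧
    ∀ X ∈ M.cov, (∃ e, X e ≠ 0) → (∀ e, Y e = 0 → X e = 0) → ∀ e, X e = 0 → Y e = 0

/-- Topes: maximal covectors. -/
def Tope (M : OM α) (T : α → SignType) : Prop :=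
  T ∈ M.cov ∧ ∀ X ∈ M.cov, (∀ e, T e ≠ 0 → X e = T e) → X = T

/-- The tope graph: topes are adjacent when they differ in exactly one coordinate. -/
def topeGraph (M : OM α) : SimpleGraph {T : α → SignType // M.Tope T} where
  Adj T U := ∃ e, T.1 e ≠ U.1 e ∧ ∀ h, T.1 h ≠ U.1 h → h = e
  symm := ⟨by
    rintro T U ⟨e, h1, h2⟩
    exact ⟨e, h1.symm, fun h hh => h2 h hh.symm⟩⟩
  loopless := ⟨by
    rintro T ⟨e, h1, -⟩
    exact h1 rfl⟩

/-- The minor obtained by contracting `A` and pulling back along `i` (restriction to the range of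
`i` when `i` is injective). -/
def minor (M : OM α) (i : β → α) (A : Set α) : OM β where
  cov := {X | ∃ Y ∈ M.cov, (∀ a ∈ A, Y a = 0) ∧ X = fun b => Y (i b)}
  zero_mem := ⟨_, M.zero_mem, fun _ _ => rfl, rfl⟩
  neg_mem := by
    rintro X ⟨Y, hY, h0, rfl⟩
    exact ⟨_, M.neg_mem Y hY, fun a ha => by simp [h0 a ha], rfl⟩
  comp_mem := by
    rintro X ⟨Y, hY, h0, rfl⟩ X' ⟨Y', hY', h0', rfl⟩
    refine ⟨_, M.comp_mem Y hY Y' hY', fun a ha => by simp [comp, h0 a ha, h0' a ha], ?_⟩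
    funext b; rfl
  elim := by
    rintro X ⟨Y, hY, h0, rfl⟩ X' ⟨Y', hY', h0', rfl⟩ e he hee
    obtain ⟨Z, hZ, hZ0, hZ1⟩ := M.elim Y hY Y' hY' (i e) he hee
    refine ⟨_, ⟨Z, hZ, fun a ha => ?_, rfl⟩, hZ0, fun h hh => ?_⟩
    · rw [hZ1 a (Or.inl (h0 a ha))]; simp [comp, h0 a ha, h0' a ha]
    · exact hZ1 (i h) hh

/-- `f` is in general position with respect to the other elements: it is not a coloop, and it lies
in the span of a set of other elements only if that set spans everything. -/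
def Generic (M : OM α) (f : α) : Prop :=
  (∀ X ∈ M.cov, (∀ e, e ≠ f → X e = 0) → X f = 0) ∧
  ∀ A : Set α, f ∉ A → (∃ X ∈ M.cov, (∃ e, X e ≠ 0) ∧ ∀ a ∈ A, X a = 0) →
    ∃ X ∈ M.cov, X f ≠ 0 ∧ ∀ a ∈ A, X a = 0

/-- Arcs of the digraph of the program `(M, p, f)` (`f` at infinity, objective `p`): from the
cocircuit `Y` to the neighbouring cocircuit `Z` (both positive on `f`), when the elimination `X`
of `f` from `-Y` and `Z` is positive on `p`. -/
def Arc (M : OM α) (f p : α) (Y Z : α → SignType) : Prop :=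
  M.Cocircuit Y ∧ M.Cocircuit Z ∧ Y f = 1 ∧ Z f = 1 ∧ Y ≠ Z ∧
  (∀ e, Y e = 0 ∨ Z e = 0 ∨ Y e = Z e) ∧
  M.rk {e | Y e = 0 ∧ Z e = 0} + 2 = M.rank ∧
  ∃ X ∈ M.cov, X f = 0 ∧ X p = 1 ∧ ∀ e, (Y e = 0 → X e = Z e) ∧ (Z e = 0 → X e = -Y e)

/-- The program `(M, p, f)` is Euclidean: its digraph has no directed cycle. -/
def Acyclic (M : OM α) (f p : α) : Prop := ∀ Y, ¬ Relation.TransGen (M.Arc f p) Y Y

/-- The pair of the hyperplane `{Y = 0}` and the element `p` off it is near: every hyperplane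
through `p` that shares a coline with `{Y = 0}` is a neighbour of `{Y = 0}`. -/
def NearPair (M : OM α) (Y : α → SignType) (p : α) : Prop :=
  M.Cocircuit Y ∧ Y p ≠ 0 ∧ ∀ Z, M.Cocircuit Z → Z p = 0 →
    M.rk {e | Y e = 0 ∧ Z e = 0} + 2 = M.rank →
    (∀ e, Y e = 0 ∨ Z e = 0 ∨ Y e = Z e) ∨ (∀ e, Y e = 0 ∨ Z e = 0 ∨ Y e = -Z e)

/-- A set `C` of vertices of a graph is convex: every shortest walk between two vertices of `C`
stays in `C`. -/
def Convex {V : Type u} (G : SimpleGraph V) (C : Set V) : Prop :=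
  ∀ a ∈ C, ∀ b ∈ C, ∀ w : G.Walk a b, w.length = G.dist a b → ∀ x ∈ w.support, x ∈ C

/-- The conclusion of Murty's conjecture: the tope graph of `M` has a convex subgraph isomorphic
to the Cartesian product of an edge and the tope graph of an oriented matroid whose rank is
smaller by two. -/
def Murty (M : OM α) : Prop :=
  ∃ C : Set {T : α → SignType // M.Tope T}, Convex M.topeGraph C ∧
    ∃ (γ : Type u) (_ : Finite γ) (N : OM γ), N.Simple ∧ N.rank + 2 = M.rank ∧
      Nonempty (M.topeGraph.induce C ≃g ((⊤ : SimpleGraph Bool) □ N.topeGraph))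

/-! Auxiliary notions for the proofs. -/

/-- The matroid form of the conclusion: a hyperplane which is a flat plus a coloop. -/
def Flat (M : OM α) : Prop :=
  ∃ (F : Set α) (c : α) (Y : α → SignType), c ∉ F ∧ Y ∈ M.cov ∧ (∀ e, Y e = 0 ↔ e ∈ insert c F) ∧
    M.cl F = F ∧ M.rk F + 2 = M.rank

/-- No loops and no parallel elements outside `f`. -/
def SimpleOff (M : OM α) (f : α) : Prop :=
  (∀ e, e ≠ f → ∃ X ∈ M.cov, X e ≠ 0) ∧
    ∀ e h, e ≠ f → h ≠ f → e ≠ h → ∃ X ∈ M.cov, X e = 0 ∧ X h ≠ 0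

/-- Vertices of the affine space: covectors positive on `f` whose zero set is a hyperplane. -/
def Vx (M : OM α) (f : α) (Y : α → SignType) : Prop :=
  Y ∈ M.cov ∧ Y f = 1 ∧ M.rk (zs Y) + 1 = M.rank

/-- Arcs along lines, not necessarily between neighbours. -/
def LArc (M : OM α) (f p : α) (Y Z : α → SignType) : Prop :=
  M.Vx f Y ∧ M.Vx f Z ∧ ∃ (X : α → SignType) (G : Set α) (e : α), X ∈ M.cov ∧
    M.rk G + 2 = M.rank ∧ (∀ g ∈ G, Y g = 0 ∧ Z g = 0 ∧ X g = 0) ∧ X f = 0 ∧ X p = 1 ∧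
    Z e = 0 ∧ Y e ≠ 0 ∧ X e = -Y e

/-- No directed cycle of line arcs. -/
def LAcyclic (M : OM α) (f p : α) : Prop := ∀ Y, ¬ Relation.TransGen (M.LArc f p) Y Y

/-- `V` lies strictly between the vertex `Y` and the element `p`, on a line through `Y`
(the vertex of `p` on this line is `W`, and `s` separates `Y` from `W`). -/
def Bt (M : OM α) (f p : α) (Y V : α → SignType) : Prop :=
  M.Vx f Y ∧ M.Vx f V ∧ Y p ≠ 0 ∧ ∃ (W : α → SignType) (G : Set α) (s : α), W ∈ M.cov ∧
    M.rk G + 2 = M.rank ∧ (∀ g ∈ G, Y g = 0 ∧ V g = 0 ∧ W g = 0) ∧ W f = 1 ∧ W p = 0 ∧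
    V s = 0 ∧ Y s ≠ 0 ∧ W s = -Y s

/-- A vertex off `p` with nothing between it and `p`. -/
def Source (M : OM α) (f p : α) (Y : α → SignType) : Prop :=
  M.Vx f Y ∧ Y p ≠ 0 ∧ ∀ V, ¬ M.Bt f p Y V

/-- A hyperplane `insert b F` (with `F` flat of corank two) that is not adjacent to `f` at `F`. -/
def Good (M : OM α) (f : α) : Prop :=
  ∃ (F : Set α) (b a c : α) (X Y : α → SignType), b ∉ F ∧ M.cl F = F ∧ M.rk F + 2 = M.rank ∧
    M.Vx f Y ∧ (∀ e, Y e = 0 ↔ e ∈ insert b F) ∧ X ∈ M.cov ∧ X f = 0 ∧ (∀ g ∈ F, X g = 0) ∧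
    X a ≠ 0 ∧ X a = Y a ∧ X c ≠ 0 ∧ X c = -Y c

/-- Every element other than `f` is a coloop, after deletion of `f`. -/
def Free (M : OM α) (f : α) : Prop :=
  ∀ e, e ≠ f → ∃ X ∈ M.cov, X e ≠ 0 ∧ ∀ a, a ≠ f → a ≠ e → X a = 0

/-- Hyperplanes whose elements are all coloops. -/
def FreeV (M : OM α) (Y : α → SignType) : Prop :=
  ∀ e, Y e = 0 → M.cl (zs Y \ {e}) = zs Y \ {e}

/-- The index type of the link at `Y` together with `f`. -/
abbrev Lk (f : α) (Y : α → SignType) : Type u := {x : α // x = f ∨ Y x = 0}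

/-- The link at `Y` with `p` contracted, together with `f`. -/
def lnk (M : OM α) (f p : α) (Y : α → SignType) : OM (Lk f Y) := M.minor (fun x => x.1) {p}

/-- The element `f` of the link. -/
def lf (f : α) (Y : α → SignType) : Lk f Y := ⟨f, Or.inl rfl⟩

/-- The element `p` and the set `B` span an element off the hyperplane of `Y`, other than `p`. -/
def Met (M : OM α) (Y : α → SignType) (p : α) (B : Set α) : Prop :=
  ∃ s, Y s ≠ 0 ∧ s ≠ p ∧ s ∈ M.cl (insert p B)

/-- `P` modulo the flat `A` is disconnected. -/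
def Disc (M : OM α) (P A : Set α) : Prop :=
  ∃ X Y : Set α, M.cl X = X ∧ M.cl Y = Y ∧ X ∪ Y = P ∧ X ∩ Y = A ∧ X ≠ A ∧ Y ≠ A ∧
    M.rk X + M.rk Y = M.rk P + M.rk A

/-- `P` has a nonempty separator of rank at most two. -/
def SmallSep (M : OM α) (P : Set α) : Prop :=
  ∃ X Y : Set α, M.cl X = X ∧ M.cl Y = Y ∧ X ∪ Y = P ∧ X ∩ Y = ∅ ∧ X ≠ ∅ ∧ M.rk X ≤ 2 ∧
    M.rk X + M.rk Y = M.rk P

/-- Deletion of the additional element. -/
def del (M : OM (Option α)) : OM α := M.minor some ∅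

/-- Contraction of `p` (which becomes a loop). -/
def con (M : OM α) (p : α) : OM α := M.minor id {p}

end OM

end MUR
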