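import Pool.Agent.MUR.ZPR

/-!
The theorem for programs, flat form. (60 lines)

p ∉ cl ∅ (SimpleOff), so by `vertex_exists` there is a vertex w with w p ≠ 0; by `path` there is a Source P for p.
If the link at P is Free then P is FreeV (`free_link`); as rank ≥ 2, rk (zs P) ≥ 1, so there is c with P c = 0;
F := zs P minus c. Otherwise `zp` applies to the link: LAcyclic for all g' ≠ lf from hac2 by
`minor_con` and `lacyclic_minor` (i = val, A = ∅, applied to M.con p; the span condition from `lnk_span`
by `rk_minor`). Then `good_lift` and forget a, c, X.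
-/

namespace MUR

universe u v

namespace OM

variable {α : Type u} {β : Type v}

private theorem mbn_span [Finite α] (M : OM α) {f p : α} {P : α → SignType} (hP : M.Vx f P)
    (hPp : P p ≠ 0) :
    (M.con p).rk (Set.range (fun x : Lk f P => x.1) ∪ ∅) = (M.con p).rank := by
  have h1 := M.rk_minor (id : α → α) {p} (Set.range (fun x : Lk f P => x.1) ∪ ∅)
  have h2 := M.rank_minor (id : α → α) {p}
  have h3 := M.lnk_span hP hPp
  rw [Set.image_id, Set.union_empty, h3] at h1
  rw [Set.range_id, Set.univ_union] at h2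
  have h4 : M.rk Set.univ = M.rank := rfl
  rw [h4] at h2
  rw [Set.union_empty]
  change (M.minor id {p}).rk (Set.range (fun x : Lk f P => x.1)) = (M.minor id {p}).rank
  omega

theorem main_program [Finite α] (M : OM α) {f p : α} (hpf : p ≠ f) (hg : M.Generic f)
    (hs : M.SimpleOff f) (hr : 2 ≤ M.rank) (hac : M.LAcyclic f p)
    (hac2 : ∀ g, g ≠ f → (M.con p).LAcyclic f g) :
    ∃ (F : Set α) (c : α) (Y : α → SignType), c ∉ F ∧ M.Vx f Y ∧ (∀ e, Y e = 0 ↔ e ∈ insert c F) ∧
      M.cl F = F ∧ M.rk F + 2 = M.rank := by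
  obtain ⟨X, hX, hXp⟩ := hs.1 p hpf
  have hpcl : p ∉ M.cl ∅ := fun h => hXp (h X hX (fun a ha => absurd ha (Set.notMem_empty a)))
  obtain ⟨w, hw, -, hwp⟩ := M.vertex_exists hg (Set.notMem_empty f) hpf hpcl
  obtain ⟨P, hS⟩ : ∃ P, M.Source f p P := by
    rcases M.path hac hw hwp with h | ⟨_, P, _, h⟩
    · exact ⟨w, h⟩
    · exact ⟨P, h⟩
  obtain ⟨hP, hPp, -⟩ := id hS
  by_cases hfree : (M.lnk f p P).Free (lf f P)
  · have hF := M.free_link hP hfree
    have hne : ∃ c, P c = 0 := by
      by_contra hno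
      push Not at hno
      have h0 : zs P = ∅ := by
        ext e
        simp only [zs, Set.mem_empty_iff_false, iff_false]
        exact hno e
      have := hP.2.2
      rw [h0, M.rk_empty] at this
      omega
    obtain ⟨c, hc⟩ := hne
    have hins : insert c (zs P \ {c}) = zs P := by
      rw [Set.insert_diff_singleton, Set.insert_eq_of_mem]
      exact hc
    refine ⟨zs P \ {c}, c, P, fun h => h.2 rfl, hP, fun e => ?_, hF c hc, ?_⟩
    · rw [hins]
      exact Iff.rfl
    · have hnot : c ∉ M.cl (zs P \ {c}) := by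
        rw [hF c hc]
        exact fun h => h.2 rfl
      have h1 := M.rk_insert_not hnot
      rw [hins] at h1
      have := hP.2.2
      omega
  · have hG : (M.lnk f p P).Good (lf f P) := by
      refine zp (Nat.card (Lk f P)) (Lk f P) (M.lnk f p P) (lf f P) rfl
        (M.lnk_generic hg hpf hP hPp) (M.lnk_simple hs hpf hP hPp) ?_ hfree
      intro g hgf
      have hgf' : g.1 ≠ f := fun h => hgf (Subtype.ext h)
      have h1 : M.lnk f p P = (M.con p).minor (fun x : Lk f P => x.1) ∅ := M.minor_con _ p
      rw [h1]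
      exact (M.con p).lacyclic_minor (fun x : Lk f P => x.1) ∅ (f' := lf f P) (g' := g) rfl rfl
        (mbn_span M hP hPp) (hac2 g.1 hgf')
    obtain ⟨F, b, a, c, X, Y, hb, hcl, hrk, hV, hz, -⟩ := M.good_lift hg hpf hS hG
    exact ⟨F, b, Y, hb, hV, hz, hcl, hrk⟩

end OM

end MUR
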