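import Pool.Agent.MUR.RKC
import Pool.Agent.MUR.RKM

/-!
The link inherits the hypotheses. (80 lines)

range = {x | x = f or Y x = 0}. rk ({Y = 0} ∪ {p}) = rank as rk {Y=0} + 1 = rank, p not in cl {Y = 0} = {Y = 0}.
rk {p} = 1 since p is not a loop (Y p nonzero). Generic: (1) a covector of the link vanishing on all
x ≠ f lifts to X vanishing on {Y = 0} ∪ {p}, which spans, so X = 0. (2) for A in the link not containing f:
apply Generic of M to val '' A ∪ {p} (f is not in it as p ≠ f). SimpleOff: (1) e with Y e = 0: e not in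
cl {p}: otherwise p in cl {e} (exchange; e is no loop by hs) inside {Y = 0}. (2) e ≠ h in {Y = 0}: h not in
cl {e, p}: otherwise, as h is not in cl {e} (hs), p in cl {e, h} inside {Y = 0} by exchange.
-/

namespace MUR

universe u v

namespace OM

variable {α : Type u} {β : Type v}

theorem lnk_span [Finite α] (M : OM α) {f p : α} {Y : α → SignType} (hY : M.Vx f Y)
    (hp : Y p ≠ 0) : M.rk (Set.range (fun x : Lk f Y => x.1) ∪ {p}) = M.rank := by
  apply le_antisymm
  · exact M.rk_mono (Set.subset_univ _)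
  · have h1 : M.rk (insert p (zs Y)) = M.rk (zs Y) + 1 :=
      M.rk_insert_not (by rw [M.cl_zs hY.1]; exact hp)
    have h2 : insert p (zs Y) ⊆ Set.range (fun x : Lk f Y => x.1) ∪ {p} := by
      rintro x (rfl | hx)
      · exact Or.inr rfl
      · exact Or.inl ⟨⟨x, Or.inr hx⟩, rfl⟩
    have h3 := M.rk_mono h2
    have h4 := hY.2.2
    omega

theorem rk_single [Finite α] (M : OM α) {p : α} {Y : α → SignType} (hY : Y ∈ M.cov)
    (hp : Y p ≠ 0) : M.rk {p} = 1 := by
  have h1 : p ∉ M.cl ∅ := fun h => hp (h Y hY (by simp))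
  have h2 := M.rk_insert_not h1
  rw [M.rk_empty] at h2
  have h3 : insert p (∅ : Set α) = {p} := by simp
  rw [h3] at h2
  exact h2

theorem lnk_generic [Finite α] (M : OM α) {f p : α} (hg : M.Generic f) (hpf : p ≠ f)
    {Y : α → SignType} (hY : M.Vx f Y) (hp : Y p ≠ 0) : (M.lnk f p Y).Generic (lf f Y) := by
  have hsp : M.rank ≤ M.rk (insert p (zs Y)) := by
    have h1 : M.rk (insert p (zs Y)) = M.rk (zs Y) + 1 :=
      M.rk_insert_not (by rw [M.cl_zs hY.1]; exact hp)
    have h4 := hY.2.2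
    omega
  refine ⟨?_, ?_⟩
  · rintro X ⟨Z, hZ, hZp, hXZ⟩ h0
    have h1 : ∀ e : Lk f Y, X e = Z e.1 := fun e => congrFun hXZ e
    have h2 : ∀ a ∈ insert p (zs Y), Z a = 0 := by
      rintro a (rfl | ha)
      · exact hZp a rfl
      · have h3 : (⟨a, Or.inr ha⟩ : Lk f Y) ≠ lf f Y := by
          intro h
          have h4 : a = f := congrArg Subtype.val h
          have h5 : Y a = 0 := ha
          rw [h4, hY.2.1] at h5
          exact absurd h5 (by decide)
        have h6 := h0 _ h3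
        rw [h1] at h6
        exact h6
    rw [h1]
    exact M.zero_of_span hZ h2 hsp _
  · intro A hA hX
    obtain ⟨X, ⟨Z, hZ, hZp, hXZ⟩, ⟨e, he⟩, h0⟩ := hX
    have h1 : ∀ e : Lk f Y, X e = Z e.1 := fun e => congrFun hXZ e
    have hf : f ∉ ((fun x : Lk f Y => x.1) '' A ∪ {p}) := by
      rintro (⟨x, hx, hxf⟩ | hx)
      · apply hA
        have : x = lf f Y := Subtype.ext hxf
        rw [← this]; exact hx
      · exact hpf hx.symm
    obtain ⟨W, hW, hWf, hW0⟩ := hg.2 ((fun x : Lk f Y => x.1) '' A ∪ {p}) hf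
      ⟨Z, hZ, ⟨e.1, by rw [← h1]; exact he⟩, by
        rintro a (⟨x, hx, rfl⟩ | ha)
        · have := h0 x hx
          rw [h1] at this
          exact this
        · exact hZp a ha⟩
    refine ⟨fun x => W x.1, ⟨W, hW, fun a ha => hW0 a (Or.inr ha), rfl⟩, hWf, fun a ha => ?_⟩
    exact hW0 a.1 (Or.inl ⟨a, ha, rfl⟩)

theorem lnk_simple [Finite α] (M : OM α) {f p : α} (hs : M.SimpleOff f) (hpf : p ≠ f)
    {Y : α → SignType} (hY : M.Vx f Y) (hp : Y p ≠ 0) : (M.lnk f p Y).SimpleOff (lf f Y) := by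
  have hz : ∀ e : Lk f Y, e ≠ lf f Y → e.1 ≠ f ∧ Y e.1 = 0 := by
    intro e he
    have h1 : e.1 ≠ f := fun h => he (Subtype.ext h)
    exact ⟨h1, e.2.resolve_left h1⟩
  refine ⟨?_, ?_⟩
  · intro e he
    obtain ⟨h1, h2⟩ := hz e he
    have h3 : e.1 ∉ M.cl (insert p ∅) := by
      intro h
      have h4 : e.1 ∉ M.cl ∅ := by
        intro h5
        obtain ⟨X, hX, hXe⟩ := hs.1 e.1 h1
        exact hXe (h5 X hX (by simp))
      have h6 := M.exch h h4
      exact hp (h6 Y hY.1 (by rintro a (rfl | ha); exacts [h2, absurd ha (by simp)]))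
    obtain ⟨X, hX, hX0, hXe⟩ := M.not_mem_cl h3
    exact ⟨fun x => X x.1, ⟨X, hX, fun a ha => hX0 a (Or.inl ha), rfl⟩, hXe⟩
  · intro e h he hh heh
    obtain ⟨h1, h2⟩ := hz e he
    obtain ⟨h1', h2'⟩ := hz h hh
    have hne : e.1 ≠ h.1 := fun h => heh (Subtype.ext h)
    have h3 : h.1 ∉ M.cl (insert p {e.1}) := by
      intro h'
      have h4 : h.1 ∉ M.cl {e.1} := by
        intro h5
        obtain ⟨X, hX, hXe, hXh⟩ := hs.2 e.1 h.1 h1 h1' hne
        exact hXh (h5 X hX (by rintro a rfl; exact hXe))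
      have h6 := M.exch h' h4
      exact hp (h6 Y hY.1 (by rintro a (rfl | rfl); exacts [h2', h2]))
    obtain ⟨X, hX, hX0, hXe⟩ := M.not_mem_cl h3
    exact ⟨fun x => X x.1, ⟨X, hX, fun a ha => hX0 a (Or.inl ha), rfl⟩,
      hX0 e.1 (Or.inr rfl), hXe⟩

end OM

end MUR
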