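import Pool.Agent.MUR.RKC
import Pool.Agent.MUR.RKM
import Pool.Agent.MUR.STR
import Pool.Agent.MUR.LNK

/-!
A good pair in the link of a source gives a good pair. (150 lines)

Data in the link: F', b', a', c', X', Y'. Lift: X2, Y2 covectors of M vanishing at p and restricting
to X', Y'. Let F1 := val '' F', F := M.cl (F1 ∪ {p}), b := b'.val. Ranks: rk (F1 ∪ {p}) = rk' F' + 1 = rank - 2
(`rk_minor`, `rank_minor`, `lnk_span`, `rk_single`); rk F1 + 3 = rank (p not in cl F1, as F1 is inside {Y = 0}: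
note f' is not in F' because Y' f' = 1); rk (insert b (F1 ∪ {p})) = rank - 1.
Claim: Y2 e = 0 iff e ∈ insert b F. Backward clear. Forward: let Y2 s = 0 with s ∉ F. s ≠ f as Y2 f = 1. If
Y s = 0, s comes from the link and Y' s' = 0, so s' = b' or s' ∈ F'. Now Y s ≠ 0 (and s ≠ p as p ∈ F).
X2 s ≠ 0: otherwise X2 vanishes on F1 ∪ {p}, s, f; rk (insert s (F1 ∪ {p})) = rank - 1 and it is inside zs Y2
which misses f, so these span, X2 = 0, contradicting X' a' ≠ 0. Let a = a'.val, c = c'.val (both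
different from f as X' f' = 0, so Y a = Y c = 0). Eliminate a between X2 and -Y2: W1 with W1 a = 0,
W1 f = -Y2 f = -1, W1 s = X2 s, W1 = 0 on F1 and p. By `star` with G := insert a F1 (rank - 2 since X2 a ≠ 0):
X2 s = Y s * (-1). Eliminate c between X2 and Y2: W2 c = 0, W2 f = 1, W2 s = X2 s; by `star` with
insert c F1: X2 s = Y s. Contradiction. The remaining conditions of Good: b ∉ F (otherwise b' would be in
the closure of F' in the link, `cl_minor`), cl F = F, rk F + 2 = rank, Vx f Y2, X2 vanishes on F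
(`cl_sub_zs`), X2 a = Y2 a, X2 c = -Y2 c.
-/

namespace MUR

universe u v

namespace OM

variable {α : Type u} {β : Type v}

theorem good_lift [Finite α] (M : OM α) {f p : α} (hg : M.Generic f) (hpf : p ≠ f)
    {Y : α → SignType} (hS : M.Source f p Y) (h : (M.lnk f p Y).Good (lf f Y)) : M.Good f := by
  classical
  have hVx : M.Vx f Y := hS.1
  have hYp : Y p ≠ 0 := hS.2.1
  obtain ⟨F', b', a', c', X', Y', hb', hF', hrF', hVx', hY0', hX', hXf', hXF', hXa', hXYa', hXc',
    hXYc'⟩ := h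
  obtain ⟨X2, hX2, hX2p, hX2e⟩ := hX'
  obtain ⟨Y2, hY2, hY2p, hY2e⟩ := hVx'.1
  have hX2p0 : X2 p = 0 := hX2p p rfl
  have hY2p0 : Y2 p = 0 := hY2p p rfl
  have hX2v : ∀ e : Lk f Y, X2 e.1 = X' e := fun e => (congrFun hX2e e).symm
  have hY2v : ∀ e : Lk f Y, Y2 e.1 = Y' e := fun e => (congrFun hY2e e).symm
  have hX2f : X2 f = 0 := by
    have := hX2v (lf f Y)
    rw [hXf'] at this
    exact this
  have hY2f : Y2 f = 1 := by
    have := hY2v (lf f Y)
    rw [hVx'.2.1] at this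
    exact this
  -- ranks
  have hpr : M.rk {p} = 1 := M.rk_single hVx.1 hYp
  have hsp := M.lnk_span hVx hYp
  have hr2 := M.rank_minor (fun x : Lk f Y => x.1) {p}
  have hr1 := M.rk_minor (fun x : Lk f Y => x.1) {p} F'
  have hr3 := M.rk_minor (fun x : Lk f Y => x.1) {p} (insert b' F')
  have hr4 : (M.minor (fun x : Lk f Y => x.1) {p}).rk (insert b' F') =
      (M.minor (fun x : Lk f Y => x.1) {p}).rk F' + 1 := by
    apply rk_insert_not
    have hF'' : (M.minor (fun x : Lk f Y => x.1) {p}).cl F' = F' := hF'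
    rw [hF'']
    exact hb'
  have hrF'' : (M.minor (fun x : Lk f Y => x.1) {p}).rk F' + 2 =
    (M.minor (fun x : Lk f Y => x.1) {p}).rank := hrF'
  set F1 : Set α := (fun x : Lk f Y => x.1) '' F' with hF1
  have hR : M.rk (F1 ∪ {p}) + 2 = M.rank := by omega
  have hF1Y : ∀ g ∈ F1, Y g = 0 ∧ X2 g = 0 ∧ Y2 g = 0 := by
    rintro g ⟨x, hx, rfl⟩
    have h1 : Y' x = 0 := (hY0' x).2 (Or.inr hx)
    have h2 : X' x = 0 := hXF' x hx
    refine ⟨?_, ?_, ?_⟩
    · refine x.2.resolve_left ?_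
      intro h
      have h3 : x = lf f Y := Subtype.ext h
      rw [h3, hVx'.2.1] at h1
      exact absurd h1 (by decide)
    · change X2 x.1 = 0
      rw [hX2v, h2]
    · change Y2 x.1 = 0
      rw [hY2v, h1]
  have hpF1 : p ∉ M.cl F1 := fun h => hYp (h Y hVx.1 fun a ha => (hF1Y a ha).1)
  have hFp : F1 ∪ {p} = insert p F1 := by
    rw [Set.union_singleton]
  have hrF1 : M.rk F1 + 3 = M.rank := by
    have := M.rk_insert_not hpF1
    rw [hFp] at hR
    omega
  have hX2F : ∀ g ∈ F1 ∪ {p}, X2 g = 0 := by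
    rintro g (hg | hg)
    · exact (hF1Y g hg).2.1
    · rw [hg]; exact hX2p0
  have hY2F : ∀ g ∈ F1 ∪ {p}, Y2 g = 0 := by
    rintro g (hg | hg)
    · exact (hF1Y g hg).2.2
    · rw [hg]; exact hY2p0
  have hYb : Y2 b'.1 = 0 := by
    rw [hY2v]; exact (hY0' b').2 (Or.inl rfl)
  have hYa : Y a'.1 = 0 := by
    refine a'.2.resolve_left ?_
    intro h
    have h3 : a' = lf f Y := Subtype.ext h
    rw [h3, hXf'] at hXa'
    exact hXa' rfl
  have hYc : Y c'.1 = 0 := by
    refine c'.2.resolve_left ?_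
    intro h
    have h3 : c' = lf f Y := Subtype.ext h
    rw [h3, hXf'] at hXc'
    exact hXc' rfl
  have hXa2 : X2 a'.1 ≠ 0 := by rw [hX2v]; exact hXa'
  have hXc2 : X2 c'.1 ≠ 0 := by rw [hX2v]; exact hXc'
  have hXYa2 : X2 a'.1 = Y2 a'.1 := by rw [hX2v, hY2v]; exact hXYa'
  have hXYc2 : X2 c'.1 = -Y2 c'.1 := by rw [hX2v, hY2v]; exact hXYc'
  -- the key step
  have hkey : ∀ s, Y2 s = 0 → s ∉ M.cl (F1 ∪ {p}) → Y s ≠ 0 → False := by
    intro s hs hsF hYs
    have hXs : X2 s ≠ 0 := by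
      intro hXs
      have h1 : M.rk (insert s (F1 ∪ {p})) = M.rk (F1 ∪ {p}) + 1 := M.rk_insert_not hsF
      have h2 : f ∉ M.cl (insert s (F1 ∪ {p})) := by
        intro h
        have h3 := h Y2 hY2 (by
          rintro a (rfl | ha)
          · exact hs
          · exact hY2F a ha)
        rw [hY2f] at h3
        exact absurd h3 (by decide)
      have h3 := M.rk_insert_not h2
      apply hXa2
      apply M.zero_of_span hX2 (A := insert f (insert s (F1 ∪ {p})))
      · rintro a (rfl | rfl | ha)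
        · exact hX2f
        · exact hXs
        · exact hX2F a ha
      · omega
    have hG : ∀ x : α, X2 x ≠ 0 → M.rk (insert x F1) + 2 = M.rank := by
      intro x hx
      have h1 : x ∉ M.cl F1 := fun h => hx (h X2 hX2 fun a ha => (hF1Y a ha).2.1)
      have h2 := M.rk_insert_not h1
      omega
    -- first elimination
    obtain ⟨W1, hW1, hW1a, hW1X, hW1Y, -, -⟩ := M.elim' hX2 (M.neg_mem Y2 hY2) (s := a'.1) hXa2
      (by show -Y2 a'.1 = -X2 a'.1; rw [hXYa2])
    have hW1f : W1 f = -1 := by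
      rw [hW1X f hX2f]
      show -Y2 f = -1
      rw [hY2f]
    have hW1s : W1 s = X2 s := hW1Y s (by show -Y2 s = 0; rw [hs]; rfl)
    have hW1F : ∀ g ∈ F1 ∪ {p}, W1 g = 0 := by
      intro g hg
      rw [hW1X g (hX2F g hg)]
      show -Y2 g = 0
      rw [hY2F g hg]; rfl
    have st1 := (M.star hg hpf hS (G := insert a'.1 F1) hW1
      ⟨f, by rw [hW1f]; decide⟩ (hW1F p (Or.inr rfl)) (hG _ hXa2) (by
        rintro g (rfl | hg)
        · exact ⟨hYa, hW1a⟩
        · exact ⟨(hF1Y g hg).1, hW1F g (Or.inl hg)⟩)).2 s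
    -- second elimination
    obtain ⟨W2, hW2, hW2c, hW2X, hW2Y, -, -⟩ := M.elim' hX2 hY2 (s := c'.1) hXc2
      (by rw [hXYc2, neg_neg])
    have hW2f : W2 f = 1 := by
      rw [hW2X f hX2f, hY2f]
    have hW2s : W2 s = X2 s := hW2Y s hs
    have hW2F : ∀ g ∈ F1 ∪ {p}, W2 g = 0 := by
      intro g hg
      rw [hW2X g (hX2F g hg)]
      exact hY2F g hg
    have st2 := (M.star hg hpf hS (G := insert c'.1 F1) hW2
      ⟨f, by rw [hW2f]; decide⟩ (hW2F p (Or.inr rfl)) (hG _ hXc2) (by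
        rintro g (rfl | hg)
        · exact ⟨hYc, hW2c⟩
        · exact ⟨(hF1Y g hg).1, hW2F g (Or.inl hg)⟩)).2 s
    rw [hW1s, hW1f] at st1
    rw [hW2s, hW2f] at st2
    revert st1 st2 hXs hYs
    generalize X2 s = x
    generalize Y s = y
    revert x y
    decide
  have hbF : b'.1 ∉ M.cl (F1 ∪ {p}) := by
    intro h
    apply hb'
    have h1 : b' ∈ (M.minor (fun x : Lk f Y => x.1) {p}).cl F' := by
      rw [M.cl_minor]
      exact h
    have hF'' : (M.minor (fun x : Lk f Y => x.1) {p}).cl F' = F' := hF'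
    rw [hF''] at h1
    exact h1
  refine ⟨M.cl (F1 ∪ {p}), b'.1, a'.1, c'.1, X2, Y2, hbF, M.cl_cl _, ?_, ⟨hY2, hY2f, ?_⟩, ?_, hX2,
    hX2f, ?_, hXa2, hXYa2, hXc2, hXYc2⟩
  · rw [M.rk_cl]; exact hR
  · refine (M.rk_zs_eq hY2 (e := f) (by rw [hY2f]; decide)
      (A := (fun x : Lk f Y => x.1) '' (insert b' F') ∪ {p}) ?_ ?_).1
    · rintro a (⟨x, hx, rfl⟩ | ha)
      · change Y2 x.1 = 0
        rw [hY2v]; exact (hY0' x).2 hx
      · rw [ha]; exact hY2p0
    · omega
  · intro e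
    constructor
    · intro he
      by_contra hne
      have h1 : e ∉ M.cl (F1 ∪ {p}) := fun h => hne (Or.inr h)
      refine hkey e he h1 ?_
      intro hYe
      have h2 := hY2v ⟨e, Or.inr hYe⟩
      rw [he] at h2
      rcases (hY0' ⟨e, Or.inr hYe⟩).1 h2.symm with h3 | h3
      · exact hne (Or.inl (congrArg Subtype.val h3))
      · exact h1 (M.subset_cl _ (Or.inl ⟨_, h3, rfl⟩))
    · rintro (rfl | he)
      · exact hYb
      · exact he Y2 hY2 hY2F
  · intro g hg
    exact hg X2 hX2 hX2F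

end OM

end MUR
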