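import Pool.Agent.MUR.R3C

/-!
Rank three programs have no directed cycle. (150 lines)

Induction on the finite set A (`Set.Finite.induction_on` or on a Finset): add b ∉ A. If p ∈ cl {b} there are no arcs along b (X b = 0 gives X p = 0), done. Otherwise:
(1) Invariant. Fix a vertex y with y b = 0. For every u with ReflTransGen (RArc A) y u: either u b = 0 and (u = y or CArc b y u), or u b ≠ 0 and there are y', c1 ∈ A, u1 with
y' b = 0, (y' = y or CArc b y y'), CArc c1 y' u1, u1 b = u b, ReflTransGen (RArc A) u1 u. Step from u to u' along c ∈ A: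
 - u b = 0: then u' b ≠ 0 (`pt_uniq` on b, c; arcs are irreflexive); take y' := u, u1 := u'.
 - u b ≠ 0, u' b = u b: extend the chain.
 - u b ≠ 0, u' b = 0: by `excursion` not CArc b u' y'; u' ≠ y' (otherwise a closed chain along A); by `carc_total` CArc b y' u'; `carc_trans` with CArc b y y'.
 - u b ≠ 0, u' b = -u b: `carc_cross` gives z on c with z b = 0; as in the previous case CArc b y' z, so CArc b y z; take y' := z, u1 := u'.
(2) Hence: T y x (T := TransGen (RArc A)), x b = y b = 0 imply CArc b y x, so not CArc b x y (`carc_trans`, `carc_irrefl`).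
(3) Every chain of arcs along insert b A from u to v is either T u v, or u T* x, CArc b x y, y T* v for some x, y (T* reflexive transitive closure): induction on the chain; when the last
step v to v' is along b: if T u v take x := v, y := v'. If u T* x, CArc b x y, y T* v: y = v or T y v, in the second case CArc b y v by (2) (y, v lie on b); so CArc b x v' by transitivity.
(4) A closed chain at w: T w w is excluded; otherwise y T* w T* x and CArc b x y: y = x is impossible, T y x contradicts (2).
Finally LArc in rank 3: rk G = 1, so G contains c with rk {c} = 1 (c ≠ f as Y f = 1), which gives RArc with A := {c | c ≠ f}.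
`simple_rks`: from SimpleOff.
-/

namespace MUR

universe u v

namespace OM

variable {α : Type u} {β : Type v}

theorem simple_rks [Finite α] (M : OM α) {f : α} (hs : M.SimpleOff f) :
    (∀ c, c ≠ f → M.rk {c} = 1) ∧ ∀ c d, c ≠ f → d ≠ f → c ≠ d → M.rk {c, d} = 2 := by
  have h1 : ∀ c, c ≠ f → M.rk {c} = 1 := by
    intro c hc
    have h2 : c ∉ M.cl ∅ := by
      intro h
      obtain ⟨X, hX, hXc⟩ := hs.1 c hc
      exact hXc (h X hX (by simp))
    have h3 := M.rk_insert_not h2
    rw [M.rk_empty] at h3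
    have h4 : insert c (∅ : Set α) = {c} := by simp
    rw [h4] at h3
    exact h3
  refine ⟨h1, ?_⟩
  intro c d hc hd hcd
  have h2 : c ∉ M.cl {d} := by
    intro h
    obtain ⟨X, hX, hXd, hXc⟩ := hs.2 d c hd hc hcd.symm
    exact hXc (h X hX (by rintro a rfl; exact hXd))
  have h3 := M.rk_insert_not h2
  have h4 : ({c, d} : Set α) = insert c {d} := rfl
  rw [h4]
  have h5 := h1 d hd
  omega

/-- One induction step: adding the line `b`. -/
private theorem r3d_step [Finite α] (M : OM α) {f p b : α} (hg : M.Generic f)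
    (hr : M.rank = 3) (hpf : p ≠ f) (h1 : ∀ c, c ≠ f → M.rk {c} = 1)
    (h2 : ∀ c d, c ≠ f → d ≠ f → c ≠ d → M.rk {c, d} = 2) (A : Set α)
    (hAf : ∀ c ∈ A, c ≠ f) (hbf : b ≠ f) (hbA : b ∉ A)
    (hA : ∀ Y, ¬ Relation.TransGen (M.RArc f p A) Y Y) :
    ∀ Y, ¬ Relation.TransGen (M.RArc f p (insert b A)) Y Y := by
  by_cases hpb : p ∈ M.cl {b}
  · intro Y hY
    apply hA Y
    refine Relation.TransGen.mono ?_ _ _ hY
    rintro U V ⟨c, hc, harc⟩
    rcases hc with rfl | hc
    · obtain ⟨-, -, -, -, X, hX, x1, x2, x3, -⟩ := harc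
      have h3 := hpb X hX (by rintro a rfl; exact x1)
      rw [x3] at h3
      exact absurd h3 (by decide)
    · exact ⟨c, hc, harc⟩
  have hb1 := h1 b hbf
  have htr : ∀ {Y Z W : α → SignType}, M.CArc f p b Y Z → M.CArc f p b Z W → M.CArc f p b Y W :=
    fun h h' => M.carc_trans hr hb1 h h'
  -- an excursion from the line `b`
  have hkey : ∀ (c1 c2 : α) (y' u1 u z' : α → SignType), c1 ∈ A → c2 ∈ A →
      M.CArc f p c1 y' u1 → Relation.ReflTransGen (M.RArc f p A) u1 u → M.CArc f p c2 u z' →
      y' b = 0 → z' b = 0 → u1 b = u b → u b ≠ 0 → M.CArc f p b y' z' := by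
    intro c1 c2 y' u1 u z' hc1 hc2 a1 hch a2 hy hz hu hu0
    have h3 := M.excursion hg hr hA hbf hAf h1 h2 hbA hc1 hc2 a1 hch a2 hy hz hu hu0
    have hne : y' ≠ z' := by
      intro h
      apply hA y'
      have h4 := (Relation.TransGen.head' (⟨c1, hc1, a1⟩ : M.RArc f p A y' u1) hch).tail
        (⟨c2, hc2, a2⟩ : M.RArc f p A u z')
      rw [← h] at h4
      exact h4
    exact (M.carc_total hg hr hbf hpf hb1 hpb a1.1 a2.2.1 hy hz hne).resolve_right h3
  -- the invariant
  have hinv : ∀ y : α → SignType, y b = 0 → ∀ u, Relation.ReflTransGen (M.RArc f p A) y u →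
      (u b = 0 ∧ (u = y ∨ M.CArc f p b y u)) ∨ (u b ≠ 0 ∧ ∃ (y' : α → SignType) (c1 : α)
        (u1 : α → SignType), c1 ∈ A ∧ y' b = 0 ∧ (y' = y ∨ M.CArc f p b y y') ∧
        M.CArc f p c1 y' u1 ∧ u1 b = u b ∧ Relation.ReflTransGen (M.RArc f p A) u1 u) := by
    intro y hy u hu
    induction hu with
    | refl => exact Or.inl ⟨hy, Or.inl rfl⟩
    | @tail u u' hyu harc ih =>
      obtain ⟨c, hc, harc⟩ := harc
      have hcf := hAf c hc
      have hbc : b ≠ c := fun h => hbA (h ▸ hc)
      rcases ih with ⟨hub, hy'⟩ | ⟨hub, y', c1, u1, hc1, hy'b, hy'y, ha1, hu1, hch⟩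
      · have hub' : u' b ≠ 0 := by
          intro h
          have h3 := M.pt_uniq hr (h2 b c hbf hcf hbc) harc.1 harc.2.1 hub harc.2.2.1 h
            harc.2.2.2.1
          rw [h3] at harc
          exact M.carc_irrefl _ harc
        exact Or.inr ⟨hub', u, c, u', hc, hub, hy', harc, rfl, Relation.ReflTransGen.refl⟩
      · have hcomb : ∀ z : α → SignType, M.CArc f p b y' z → M.CArc f p b y z := by
          intro z hz
          rcases hy'y with h | h
          · rw [← h]; exact hz
          · exact htr h hz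
        by_cases hub' : u' b = 0
        · left
          exact ⟨hub', Or.inr (hcomb _ (hkey c1 c y' u1 u u' hc1 hc ha1 hch harc hy'b hub' hu1
            hub))⟩
        · right
          refine ⟨hub', ?_⟩
          by_cases hs : u' b = u b
          · exact ⟨y', c1, u1, hc1, hy'b, hy'y, ha1, by rw [hu1, hs],
              hch.tail ⟨c, hc, harc⟩⟩
          · have hs' : u' b = -u b := by
              revert hub hub' hs
              generalize u b = s
              generalize u' b = t
              revert s t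
              decide
            obtain ⟨z, hz1, hz2, hzb⟩ := M.carc_cross hr (h1 c hcf) harc hub hs'
            refine ⟨z, c, u', hc, hzb, Or.inr (hcomb _ (hkey c1 c y' u1 u z hc1 hc ha1 hch hz1
              hy'b hzb hu1 hub)), hz2, rfl, Relation.ReflTransGen.refl⟩
  -- consequence
  have h3 : ∀ x y : α → SignType, x b = 0 → y b = 0 → Relation.TransGen (M.RArc f p A) y x →
      M.CArc f p b y x := by
    intro x y hx hy hyx
    rcases hinv y hy x hyx.to_reflTransGen with ⟨-, h | h⟩ | ⟨h, -⟩
    · rw [h] at hyx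
      exact absurd hyx (hA y)
    · exact h
    · exact absurd hx h
  have h4 : ∀ u v, Relation.TransGen (M.RArc f p (insert b A)) u v →
      Relation.TransGen (M.RArc f p A) u v ∨ ∃ x y, Relation.ReflTransGen (M.RArc f p A) u x ∧
        M.CArc f p b x y ∧ Relation.ReflTransGen (M.RArc f p A) y v := by
    intro u v huv
    induction huv with
    | @single v h =>
      obtain ⟨c, hc, harc⟩ := h
      rcases hc with rfl | hc
      · exact Or.inr ⟨u, v, Relation.ReflTransGen.refl, harc, Relation.ReflTransGen.refl⟩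
      · exact Or.inl (Relation.TransGen.single ⟨c, hc, harc⟩)
    | @tail v v' _ h ih =>
      obtain ⟨c, hc, harc⟩ := h
      rcases hc with rfl | hc
      · rcases ih with ih | ⟨x, y, hux, hxy, hyv⟩
        · exact Or.inr ⟨v, v', ih.to_reflTransGen, harc, Relation.ReflTransGen.refl⟩
        · refine Or.inr ⟨x, v', hux, ?_, Relation.ReflTransGen.refl⟩
          rcases Relation.reflTransGen_iff_eq_or_transGen.1 hyv with h5 | h5
          · rw [h5] at harc
            exact htr hxy harc
          · exact htr (htr hxy (h3 v y harc.2.2.1 hxy.2.2.2.1 h5)) harc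
      · rcases ih with ih | ⟨x, y, hux, hxy, hyv⟩
        · exact Or.inl (ih.tail ⟨c, hc, harc⟩)
        · exact Or.inr ⟨x, y, hux, hxy, hyv.tail ⟨c, hc, harc⟩⟩
  intro w hw
  rcases h4 w w hw with h5 | ⟨x, y, hwx, hxy, hyw⟩
  · exact hA w h5
  · rcases Relation.reflTransGen_iff_eq_or_transGen.1 (hyw.trans hwx) with h5 | h5
    · rw [h5] at hxy
      exact M.carc_irrefl _ hxy
    · exact M.carc_irrefl _ (htr (h3 x y hxy.2.2.1 hxy.2.2.2.1 h5) hxy)

theorem rarc_acyclic [Finite α] (M : OM α) {f p : α} (hg : M.Generic f) (hr : M.rank = 3)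
    (hpf : p ≠ f) (h1 : ∀ c, c ≠ f → M.rk {c} = 1)
    (h2 : ∀ c d, c ≠ f → d ≠ f → c ≠ d → M.rk {c, d} = 2) (A : Set α)
    (hAf : ∀ c ∈ A, c ≠ f) : ∀ Y, ¬ Relation.TransGen (M.RArc f p A) Y Y := by
  have hfin : A.Finite := Set.toFinite A
  revert hAf
  induction A, hfin using Set.Finite.induction_on with
  | empty =>
    intro _ Y hY
    obtain ⟨z, ⟨c, hc, -⟩, -⟩ := Relation.TransGen.head'_iff.1 hY
    exact hc
  | @insert b A hbA _ ih =>
    intro hAf
    exact M.r3d_step hg hr hpf h1 h2 A (fun c hc => hAf c (Or.inr hc)) (hAf b (Or.inl rfl)) hbA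
      (ih fun c hc => hAf c (Or.inr hc))

theorem rank_three [Finite α] (M : OM α) {f p : α} (hg : M.Generic f) (hs : M.SimpleOff f)
    (hr : M.rank = 3) (hpf : p ≠ f) : M.LAcyclic f p := by
  obtain ⟨h1, h2⟩ := M.simple_rks hs
  intro Y hY
  refine M.rarc_acyclic hg hr hpf h1 h2 {c | c ≠ f} (fun c hc => hc) Y
    (Relation.TransGen.mono ?_ _ _ hY)
  rintro U V ⟨hU, hV, X, G, e, hX, hG, h0, hXf, hXp, he1, he2, he3⟩
  have hne : G.Nonempty := by
    rw [Set.nonempty_iff_ne_empty]
    rintro rfl
    rw [M.rk_empty, hr] at hG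
    omega
  obtain ⟨c, hc⟩ := hne
  obtain ⟨hUc, hVc, hXc⟩ := h0 c hc
  refine ⟨c, ?_, hU, hV, hUc, hVc, X, hX, hXc, hXf, hXp, e, he1, he2, he3⟩
  rintro rfl
  rw [hU.2.1] at hUc
  exact absurd hUc (by decide)

end OM

end MUR
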