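import Pool.Agent.MUR.RKC
import Pool.Agent.MUR.RKM

/-!
A free link gives a free hyperplane. (40 lines)

Let Y e = 0. Free for the link at e (e ≠ f since Y f = 1) gives a covector X of M with X p = 0, X e ≠ 0 and
X a = 0 for all a ≠ e with Y a = 0. The covector comp X Y (or comp Y X) has zero set zs X ∩ zs Y =
zs Y minus e; use `cl_zs`.
-/

namespace MUR

universe u v

namespace OM

variable {α : Type u} {β : Type v}

theorem free_link [Finite α] (M : OM α) {f p : α} {Y : α → SignType} (hY : M.Vx f Y)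
    (h : (M.lnk f p Y).Free (lf f Y)) : M.FreeV Y := by
  intro e he
  have hYf : Y f = 1 := hY.2.1
  have hf : ∀ a, Y a = 0 → a ≠ f := by
    rintro a ha rfl
    rw [hYf] at ha
    exact absurd ha (by decide)
  obtain ⟨X, ⟨Z, hZ, hZp, rfl⟩, h1, h2⟩ := h ⟨e, Or.inr he⟩ (by
    intro h0
    exact hf e he (congrArg Subtype.val h0))
  have hZe : Z e ≠ 0 := h1
  have hZa : ∀ a, Y a = 0 → a ≠ e → Z a = 0 := by
    intro a ha hae
    exact h2 ⟨a, Or.inr ha⟩ (fun h0 => hf a ha (congrArg Subtype.val h0))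
      (fun h0 => hae (congrArg Subtype.val h0))
  have hc : comp Z Y ∈ M.cov := M.comp_mem Z hZ Y hY.1
  have hset : zs Y \ {e} = zs (comp Z Y) := by
    rw [comp_zs]
    ext a
    constructor
    · rintro ⟨ha, hae⟩
      exact ⟨hZa a ha hae, ha⟩
    · rintro ⟨ha, ha'⟩
      refine ⟨ha', ?_⟩
      rintro rfl
      exact hZe ha
  rw [hset]
  exact M.cl_zs hc

end OM

end MUR
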