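import Pool.Agent.MUR.RKC
import Pool.Agent.MUR.RKM

/-!
Absence of cycles is inherited by minors of full rank. (80 lines)

For a sign vector y on β let L y be some covector of M vanishing on A with y = (L y) ∘ i, if there is
one (choice), else 0. Show: LArc in the minor from y to z implies LArc in M from L y to L z, and use
`Relation.TransGen.lift`. Let Y = L y, Z = L z (they exist as y, z are covectors of the minor), X a lift
of the covector x of the arc, G := i '' g ∪ A, e := i e'. Ranks (`rk_minor`, `rank_minor`, hr):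
rk G + 2 = rank; rk (i '' zs y ∪ A) + 1 = rank, and Y is nonzero (Y f = y f' = 1) so Vx by
`rk_zs_eq`. All other conditions are pointwise.
-/

namespace MUR

universe u v

namespace OM

variable {α : Type u} {β : Type v}

theorem lacyclic_minor [Finite α] [Finite β] (M : OM α) (i : β → α) (A : Set α) {f' g' : β}
    {f g : α} (hf : i f' = f) (hg : i g' = g) (hr : M.rk (Set.range i ∪ A) = M.rank)
    (h : M.LAcyclic f g) : (M.minor i A).LAcyclic f' g' := by
  classical
  have hL0 : ∀ y : β → SignType, ∃ Y : α → SignType, y ∈ (M.minor i A).cov →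
      (Y ∈ M.cov ∧ (∀ a ∈ A, Y a = 0) ∧ ∀ b, Y (i b) = y b) := by
    intro y
    by_cases hy : y ∈ (M.minor i A).cov
    · obtain ⟨Y, h1, h2, h3⟩ := hy
      exact ⟨Y, fun _ => ⟨h1, h2, fun b => (congrFun h3 b).symm⟩⟩
    · exact ⟨fun _ => 0, fun h => absurd h hy⟩
  choose L hL using hL0
  have hrk : (M.minor i A).rank + M.rk A = M.rank := by rw [rank_minor, hr]
  have hvx : ∀ y, (M.minor i A).Vx f' y → M.Vx f (L y) := by
    rintro y ⟨h1, h2, h3⟩
    obtain ⟨h4, h5, h6⟩ := hL y h1
    have h7 := M.rk_minor i A (zs y)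
    have h8 : L y f = 1 := by rw [← hf, h6, h2]
    have h9 : L y f ≠ 0 := by rw [h8]; decide
    refine ⟨h4, h8, ?_⟩
    refine (M.rk_zs_eq h4 h9 (A := i '' zs y ∪ A) ?_ ?_).1
    · rintro a (⟨b, hb, rfl⟩ | ha)
      · rw [h6]; exact hb
      · exact h5 a ha
    · omega
  have harc : ∀ y z, (M.minor i A).LArc f' g' y z → M.LArc f g (L y) (L z) := by
    rintro y z ⟨hy, hz, x, G, e, hx, hG, h0, hxf, hxp, hze, hye, hxe⟩
    obtain ⟨X, hX, hXA, h3⟩ := hx
    have hXi : ∀ b, X (i b) = x b := fun b => (congrFun h3 b).symm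
    obtain ⟨-, hyA, hyi⟩ := hL y hy.1
    obtain ⟨-, hzA, hzi⟩ := hL z hz.1
    refine ⟨hvx y hy, hvx z hz, X, i '' G ∪ A, i e, hX, ?_, ?_, ?_, ?_, ?_, ?_, ?_⟩
    · have := M.rk_minor i A G
      omega
    · rintro a (⟨b, hb, rfl⟩ | ha)
      · rw [hyi, hzi, hXi]; exact h0 b hb
      · exact ⟨hyA a ha, hzA a ha, hXA a ha⟩
    · rw [← hf, hXi, hxf]
    · rw [← hg, hXi, hxp]
    · rw [hzi, hze]
    · rw [hyi]; exact hye
    · rw [hXi, hyi, hxe]
  intro y hy
  exact h (L y) (Relation.TransGen.lift L harc _ _ hy)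

end OM

end MUR
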