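import Pool.Agent.MUR.RKC
import Pool.Agent.MUR.BTA

/-!
A vertex behind a free vertex is good. (100 lines)

Data of Bt w Y: W, G, s; Y s = 0, w s ≠ 0, W s = -w s. F := zs Y minus s, b := s. FreeV gives cl F = F, so
rk F + 2 = rank (zs Y = insert s F has rank rank - 1, s not in cl F). G is inside F (w s ≠ 0) with the
same rank, so F is inside cl G (`sub_cl_of_rk`). X := elimination of f between W and -w (W f = w f = 1):
X f = 0, X p = -w p (W p = 0), X = 0 on G hence on F. Let c be an element with w c = 0, W c ≠ 0 (if zs w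
is inside zs W then `uniq` gives w = W using f, contradiction with w p ≠ 0 = W p). X c = W c. Let V' be the
elimination of s between w and W: V' s = 0, V' f = 1, V' = 0 on G, V' p = w p, V' c = W c; by `uniq` on
insert s G: V' = Y. So Y c = W c = X c ≠ 0 and Y p = w p = -X p ≠ 0. Good with a := c, c := p.
-/

namespace MUR

universe u v

namespace OM

variable {α : Type u} {β : Type v}

theorem good_of_bt [Finite α] (M : OM α) {f p : α} {w Y : α → SignType} (h : M.Bt f p w Y)
    (hF : M.FreeV Y) : M.Good f := by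
  obtain ⟨⟨hw, hwf, hwr⟩, ⟨hY, hYf, hYr⟩, hwp, W, G, s, hW, hGr, hG0, hWf, hWp, hYs, hws, hWs⟩ := h
  have h10 : (1 : SignType) ≠ 0 := by decide
  have hFcl := hF s hYs
  set F : Set α := zs Y \ {s} with hFd
  have hsF : s ∉ F := fun hh => hh.2 rfl
  have hins : insert s F = zs Y := by
    rw [hFd, Set.insert_sdiff_singleton, Set.insert_eq_of_mem]
    exact hYs
  have hFr : M.rk F + 2 = M.rank := by
    have h1 : s ∉ M.cl F := by
      rw [hFcl]
      exact hsF
    have h2 := M.rk_insert_not h1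
    rw [hins] at h2
    omega
  have hGF : G ⊆ F := by
    intro g hg
    refine ⟨(hG0 g hg).2.1, fun hgs => ?_⟩
    rw [Set.mem_singleton_iff] at hgs
    rw [hgs] at hg
    exact hws (hG0 s hg).1
  have hFG : F ⊆ M.cl G := M.sub_cl_of_rk hGF (by omega)
  have hwf0 : W f ≠ 0 := by
    rw [hWf]
    exact h10
  obtain ⟨X, hX, hXf, hX1, hX2, -, -⟩ := M.elim' hW (M.neg_mem w hw) (s := f) hwf0
    (by show -w f = -W f; rw [hwf, hWf])
  have hXp : X p = -w p := hX1 p hWp
  have hXG : ∀ g ∈ G, X g = 0 := by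
    intro g hg
    rw [hX1 g (hG0 g hg).2.2, (hG0 g hg).1]
    rfl
  have hXF : ∀ g ∈ F, X g = 0 := fun g hg => M.cl_sub_zs hX hXG (hFG hg)
  have hc : ∃ c, w c = 0 ∧ W c ≠ 0 := by
    by_contra hcon
    push Not at hcon
    have h1 : w = W := M.uniq hw hW hwr (fun g hg => hg) (fun g hg => hcon g hg) (e := f)
      (by rw [hwf]; exact h10) (by rw [hwf, hWf])
    apply hwp
    rw [h1]
    exact hWp
  obtain ⟨c, hwc, hWc⟩ := hc
  have hXc : X c = W c := hX2 c (by rw [hwc]; rfl)
  obtain ⟨V, hV, hVs, hV1, hV2, hV3, -⟩ := M.elim' hw hW (s := s) hws hWs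
  have hVf : V f = 1 := by
    rw [hV3 f (by rw [hwf, hWf]), hwf]
  have hVp : V p = w p := hV2 p hWp
  have hVc : V c = W c := hV1 c hwc
  have hsG : s ∉ M.cl G := fun hh => hws (hh w hw fun g hg => (hG0 g hg).1)
  have hr : M.rk (insert s G) + 1 = M.rank := by
    rw [M.rk_insert_not hsG]
    omega
  have hVY : V = Y := by
    refine M.uniq hV hY hr ?_ ?_ (e := f) (by rw [hVf]; exact h10) (by rw [hVf, hYf])
    · rintro g (rfl | hg)
      · exact hVs
      · rw [hV1 g (hG0 g hg).1]
        exact (hG0 g hg).2.2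
    · rintro g (rfl | hg)
      · exact hYs
      · exact (hG0 g hg).2.1
  refine ⟨F, s, c, p, X, Y, hsF, hFcl, hFr, ⟨hY, hYf, hYr⟩, ?_, hX, hXf, hXF, ?_, ?_, ?_, ?_⟩
  · intro e
    rw [hins]
    rfl
  · rw [hXc]
    exact hWc
  · rw [hXc, ← hVY, hVc]
  · rw [hXp]
    intro hh
    apply hwp
    revert hh
    generalize w p = t
    revert t
    decide
  · rw [hXp, ← hVY, hVp]

end OM

end MUR
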