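import Pool.Agent.MUR.RKC
import Pool.Agent.MUR.VXE

/-!
If all vertices are free and the whole is not, there is a good pair. (150 lines)

Let e0 ≠ f be an element such that every covector vanishing on all a ≠ f, e0 vanishes at e0 (negation of
Free). By `vertex_exists` with A = ∅ (e0 is no loop) there is a vertex w with w e0 ≠ 0. There is e1 ≠ f, e1 ≠ e0
with w e1 ≠ 0 (otherwise w vanishes on all a ≠ f, e0 and so at e0). There is x with w x = 0: otherwise
rk (zs w) = 0, rank = 1, but e0, e1 not parallel (SimpleOff) gives X with X e0 = 0, X e1 ≠ 0, while rk {e0} = 1 =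
rank. F := zs w minus x; cl F = F by FreeV; rk F + 2 = rank; f ∉ F.
For y = e0, e1: vertex Y_y vanishing on insert y F with Y_y x ≠ 0 (`vertex_exists`; x is not in cl (insert y F):
otherwise by exchange y ∈ cl (insert x F) = zs w). Its zero set is insert y F: zs Y_y minus y is a flat by
FreeV, contains F, and has rank rank - 2, so it is inside cl F = F.
X := elimination of f between w and -Y_0 (Y_0 := Y_{e0}): X f = 0, X x = -Y_0 x ≠ 0, X e0 = w e0 ≠ 0, X = 0 on F.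
X1 := elimination of f between w and -Y_1: X1 x = -Y_1 x, X1 e1 = w e1.
X2 := elimination of f between Y_0 and -Y_1: X2 e0 = -Y_1 e0, X2 e1 = Y_0 e1.
X e1 ≠ 0 (otherwise X vanishes on insert e1 F and f, which span since Y_1 f = 1).
If X e1 = -w e1: Good with (F, x), Y = w, a = e0, c = e1. Otherwise X e1 = w e1.
If X e1 = Y_0 e1 (nonzero): Good with (F, e0), Y = Y_0, a = e1, c = x. Otherwise X e1 = -Y_0 e1.
Then X1 = X by `uniq` (on insert f F, at e1), so X x = -Y_1 x. And X2 e1 = Y_0 e1 = -X e1, so X2 = -X by `uniq`, and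
X e0 = Y_1 e0. Good with (F, e1), Y = Y_1, a = e0, c = x.
-/

namespace MUR

universe u v

namespace OM

variable {α : Type u} {β : Type v}

private theorem UNF_sg {s t : SignType} (hs : s ≠ 0) (ht : t ≠ 0) (h : s ≠ t) : s = -t := by
  revert s t; decide

private theorem UNF_vx [Finite α] (M : OM α) {f : α} (hg : M.Generic f)
    (hall : ∀ Y, M.Vx f Y → M.FreeV Y) {w : α → SignType} (hw : M.Vx f w) {x : α} (hwx : w x = 0)
    {F : Set α} (hF : F = zs w \ {x}) (hFc : M.cl F = F) (hFr : M.rk F + 2 = M.rank)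
    {y : α} (hyf : y ≠ f) (hwy : w y ≠ 0) :
    ∃ Y, M.Vx f Y ∧ Y x ≠ 0 ∧ ∀ e, Y e = 0 ↔ e ∈ insert y F := by
  have hwf : w f = 1 := hw.2.1
  have hzs : zs w = insert x F := by
    rw [hF]
    ext a
    by_cases hax : a = x
    · subst hax
      simp [zs, hwx]
    · simp [hax]
  have hfF : f ∉ F := by
    rw [hF]
    rintro ⟨h1, _⟩
    have h2 : w f = 0 := h1
    rw [hwf] at h2
    exact absurd h2 (by decide)
  have hyF : y ∉ F := by
    rw [hF]
    rintro ⟨h1, _⟩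
    exact hwy h1
  have hxF : x ∉ F := by
    rw [hF]
    rintro ⟨_, h1⟩
    exact h1 rfl
  have hxf : x ≠ f := by
    rintro rfl
    rw [hwf] at hwx
    exact absurd hwx (by decide)
  have hxcl : x ∉ M.cl (insert y F) := by
    intro h1
    have h2 := M.exch h1 (by rw [hFc]; exact hxF)
    rw [← hzs, M.cl_zs hw.1] at h2
    exact hwy h2
  obtain ⟨Y, hY, hYA, hYx⟩ := M.vertex_exists hg (A := insert y F) (e := x)
    (by
      rintro (h1 | h1)
      · exact hyf h1.symm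
      · exact hfF h1) hxf hxcl
  have hYy : Y y = 0 := hYA y (Set.mem_insert _ _)
  have hfl : M.cl (zs Y \ {y}) = zs Y \ {y} := hall Y hY y hYy
  have hFsub : F ⊆ zs Y \ {y} := by
    intro a ha
    refine ⟨hYA a (Set.mem_insert_of_mem _ ha), ?_⟩
    rintro rfl
    exact hyF ha
  have hins : insert y (zs Y \ {y}) = zs Y := by
    ext a
    by_cases hay : a = y
    · subst hay
      simp [zs, hYy]
    · simp [hay]
  have hr1 : M.rk (zs Y) = M.rk (zs Y \ {y}) + 1 := by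
    conv_lhs => rw [← hins]
    apply M.rk_insert_not
    rw [hfl]
    rintro ⟨_, h1⟩
    exact h1 rfl
  have hr2 := hY.2.2
  have hsub : zs Y \ {y} ⊆ M.cl F := M.sub_cl_of_rk hFsub (by omega)
  rw [hFc] at hsub
  refine ⟨Y, hY, hYx, fun e => ⟨fun h1 => ?_, fun h1 => hYA e h1⟩⟩
  by_cases hey : e = y
  · rw [hey]; exact Set.mem_insert _ _
  · exact Set.mem_insert_of_mem _ (hsub ⟨h1, hey⟩)

/-- elimination of `f` between two vertices vanishing on `F` -/
private theorem UNF_el (M : OM α) {f : α} {Y Z : α → SignType} (hY : M.Vx f Y) (hZ : M.Vx f Z)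
    {F : Set α} (hYF : ∀ g ∈ F, Y g = 0) (hZF : ∀ g ∈ F, Z g = 0) :
    ∃ X ∈ M.cov, X f = 0 ∧ (∀ g ∈ F, X g = 0) ∧ (∀ h, Y h = 0 → X h = -Z h) ∧
      ∀ h, Z h = 0 → X h = Y h := by
  obtain ⟨X, hX, h0, h1, h2, _⟩ := M.elim' hY.1 (M.neg_mem Z hZ.1) (s := f)
    (by rw [hY.2.1]; decide) (by simp only [hY.2.1, hZ.2.1])
  refine ⟨X, hX, h0, fun g hg => ?_, h1, fun h hh => h2 h (by simp [hh])⟩
  rw [h1 g (hYF g hg), hZF g hg]
  decide

theorem good_of_all_free [Finite α] (M : OM α) {f : α} (hg : M.Generic f)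
    (hs : M.SimpleOff f) (hnf : ¬ M.Free f) (hall : ∀ Y, M.Vx f Y → M.FreeV Y) : M.Good f := by
  unfold Free at hnf
  push Not at hnf
  obtain ⟨e0, he0f, hnf⟩ := hnf
  have hcol : ∀ X ∈ M.cov, (∀ a, a ≠ f → a ≠ e0 → X a = 0) → X e0 = 0 := by
    intro X hX h1
    by_contra h2
    obtain ⟨a, ha1, ha2, ha3⟩ := hnf X hX h2
    exact ha3 (h1 a ha1 ha2)
  have he0l : e0 ∉ M.cl ∅ := by
    intro h1
    obtain ⟨X, hX, h2⟩ := hs.1 e0 he0f
    exact h2 (h1 X hX (by intro a ha; exact absurd ha (Set.notMem_empty a)))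
  obtain ⟨w, hw, _, hwe0⟩ := M.vertex_exists hg (Set.notMem_empty f) he0f he0l
  have hwf : w f = 1 := hw.2.1
  obtain ⟨e1, he1f, he10, hwe1⟩ : ∃ e1, e1 ≠ f ∧ e1 ≠ e0 ∧ w e1 ≠ 0 := by
    by_contra h1
    push Not at h1
    exact hwe0 (hcol w hw.1 h1)
  obtain ⟨x, hwx⟩ : ∃ x, w x = 0 := by
    by_contra h1
    push Not at h1
    have h2 : zs w = ∅ := by
      ext a
      simp only [zs, Set.mem_setOf_eq, Set.mem_empty_iff_false, iff_false]
      exact h1 a
    have h3 := hw.2.2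
    rw [h2, M.rk_empty] at h3
    obtain ⟨X, hX, hX0, hX1⟩ := hs.2 e0 e1 he0f he1f he10.symm
    have h4 : M.rk {e0} = 1 := by
      have := M.rk_insert_not he0l
      rw [M.rk_empty] at this
      simpa using this
    exact hX1 (M.zero_of_span hX (A := {e0}) (by
      intro a ha
      rw [Set.mem_singleton_iff] at ha
      rw [ha]; exact hX0) (by omega) e1)
  obtain ⟨F, hF⟩ : ∃ F, F = zs w \ {x} := ⟨_, rfl⟩
  have hFc : M.cl F = F := by rw [hF]; exact hall w hw x hwx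
  have hzs : zs w = insert x F := by
    rw [hF]
    ext a
    by_cases hax : a = x
    · subst hax
      simp [zs, hwx]
    · simp [hax]
  have hxF : x ∉ F := by
    rw [hF]
    rintro ⟨_, h1⟩
    exact h1 rfl
  have hFr : M.rk F + 2 = M.rank := by
    have h1 := hw.2.2
    rw [hzs, M.rk_insert_not (by rw [hFc]; exact hxF)] at h1
    exact h1
  have hwF : ∀ g ∈ F, w g = 0 := by
    intro g hgF
    rw [hF] at hgF
    exact hgF.1
  have hF' : ∀ y, w y ≠ 0 → y ∉ F := fun y h1 h2 => h1 (hwF y h2)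
  obtain ⟨Y0, hY0, hY0x, hY0z⟩ := M.UNF_vx hg hall hw hwx hF hFc hFr he0f hwe0
  obtain ⟨Y1, hY1, hY1x, hY1z⟩ := M.UNF_vx hg hall hw hwx hF hFc hFr he1f hwe1
  have hY0F : ∀ g ∈ F, Y0 g = 0 := fun g h1 => (hY0z g).2 (Set.mem_insert_of_mem _ h1)
  have hY1F : ∀ g ∈ F, Y1 g = 0 := fun g h1 => (hY1z g).2 (Set.mem_insert_of_mem _ h1)
  have hY0e0 : Y0 e0 = 0 := (hY0z e0).2 (Set.mem_insert _ _)
  have hY1e1 : Y1 e1 = 0 := (hY1z e1).2 (Set.mem_insert _ _)
  obtain ⟨X, hX, hXf, hXF, hXw, hXY0⟩ := M.UNF_el hw hY0 hwF hY0F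
  obtain ⟨X1, hX1, hX1f, hX1F, hX1w, hX1Y1⟩ := M.UNF_el hw hY1 hwF hY1F
  obtain ⟨X2, hX2, hX2f, hX2F, hX2Y0, hX2Y1⟩ := M.UNF_el hY0 hY1 hY0F hY1F
  have hXx : X x = -Y0 x := hXw x hwx
  have hXx0 : X x ≠ 0 := by
    rw [hXx]
    revert hY0x
    generalize Y0 x = t
    revert t
    decide
  have hXe0 : X e0 = w e0 := hXY0 e0 hY0e0
  have hX1x : X1 x = -Y1 x := hX1w x hwx
  have hX1e1 : X1 e1 = w e1 := hX1Y1 e1 hY1e1
  have hX2e0 : X2 e0 = -Y1 e0 := hX2Y0 e0 hY0e0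
  have hX2e1 : X2 e1 = Y0 e1 := hX2Y1 e1 hY1e1
  have hXe1 : X e1 ≠ 0 := by
    intro h1
    have hz1 : zs Y1 = insert e1 F := Set.ext fun e => hY1z e
    have hfc : f ∉ M.cl (insert e1 F) := by
      rw [← hz1, M.cl_zs hY1.1]
      intro h2
      have h3 : Y1 f = 0 := h2
      rw [hY1.2.1] at h3
      exact absurd h3 (by decide)
    have hr := M.rk_insert_not hfc
    have hr1 := hY1.2.2
    rw [hz1] at hr1
    refine hXx0 (M.zero_of_span hX (A := insert f (insert e1 F)) ?_ (by omega) x)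
    rintro a (rfl | rfl | ha)
    · exact hXf
    · exact h1
    · exact hXF a ha
  by_cases hc1 : X e1 = w e1
  swap
  · exact ⟨F, x, e0, e1, X, w, hxF, hFc, hFr, hw, fun e => by
        rw [← hzs]; rfl, hX, hXf, hXF, by rw [hXe0]; exact hwe0, hXe0, hXe1,
      UNF_sg hXe1 hwe1 hc1⟩
  have hY0e1 : Y0 e1 ≠ 0 := by
    intro h1
    rcases (hY0z e1).1 h1 with h2 | h2
    · exact he10 h2
    · exact hF' e1 hwe1 h2
  by_cases hc2 : X e1 = Y0 e1
  · exact ⟨F, e0, e1, x, X, Y0, hF' e0 hwe0, hFc, hFr, hY0, hY0z, hX, hXf, hXF, hXe1, hc2,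
      hXx0, hXx⟩
  have hc3 : X e1 = -Y0 e1 := UNF_sg hXe1 hY0e1 hc2
  have hfF : f ∉ M.cl F := by
    rw [hFc]
    intro h1
    have h2 := hwF f h1
    rw [hwf] at h2
    exact absurd h2 (by decide)
  have hG : M.rk (insert f F) + 1 = M.rank := by
    rw [M.rk_insert_not hfF]
    omega
  have hz : ∀ Z : α → SignType, Z f = 0 → (∀ g ∈ F, Z g = 0) → ∀ g ∈ insert f F, Z g = 0 := by
    rintro Z h1 h2 g (rfl | h3)
    · exact h1
    · exact h2 g h3
  have e1' : X = X1 := M.uniq hX hX1 hG (hz X hXf hXF) (hz X1 hX1f hX1F) hXe1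
    (by rw [hX1e1]; exact hc1)
  have e2' : (fun e => -X e) = X2 := by
    refine M.uniq (M.neg_mem X hX) hX2 hG (hz _ ?_ ?_) (hz X2 hX2f hX2F) (e := e1) ?_ ?_
    · simp [hXf]
    · intro g hg'
      simp [hXF g hg']
    · simpa using hXe1
    · rw [hX2e1, hc3]
      simp
  have hXY1x : X x = -Y1 x := by rw [e1']; exact hX1x
  have hXY1e0 : X e0 = Y1 e0 := by
    have h1 := congrFun e2' e0
    rw [hX2e0] at h1
    simpa using h1
  exact ⟨F, e1, e0, x, X, Y1, hF' e1 hwe1, hFc, hFr, hY1, hY1z, hX, hXf, hXF,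
    by rw [hXe0]; exact hwe0, hXY1e0, hXx0, hXY1x⟩

end OM

end MUR
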