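import Pool.Agent.MUR.LAR
import Pool.Agent.MUR.PTH
import Pool.Agent.MUR.INH
import Pool.Agent.MUR.GLF
import Pool.Agent.MUR.FRE
import Pool.Agent.MUR.NSR
import Pool.Agent.MUR.UNF

/-!
Existence of a good pair (strong induction on the number of elements). (60 lines)

Suppose not Good. Then every vertex Y is FreeV: choose p ≠ f with Y p ≠ 0 (otherwise Y f = 0 by the first part of
Generic). (i) If P is a Source for p then P is FreeV: if the link is not Free, the induction hypothesis (the
link type has fewer elements as p is not in it) with `lnk_generic`, `lnk_simple`, `lacyclic_minor` (via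
`lnk_span`; for g' ≠ lf, i.e. g'.val ≠ f) gives Good for the link and `good_lift` gives Good.
So it is Free and `free_link` applies. (ii) by `path`: Y is a source (done by (i)) or there are
w, P with Bt w P and P a Source; P is FreeV by (i) and `good_of_bt` gives Good, contradiction.
Finally `good_of_all_free`.
-/

namespace MUR

universe u v

namespace OM

variable {α : Type u} {β : Type v}

theorem zp (n : ℕ) : ∀ (α : Type u) [Finite α] (M : OM α) (f : α), Nat.card α = n →
    M.Generic f → M.SimpleOff f → (∀ g, g ≠ f → M.LAcyclic f g) → ¬ M.Free f → M.Good f := by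
  induction n using Nat.strong_induction_on with
  | _ n ih =>
    intro α _ M f hn hg hs hl hnf
    by_contra hG
    have hsrc : ∀ (p : α) (P : α → SignType), p ≠ f → M.Source f p P → M.FreeV P := by
      intro p P hpf hS
      have hP := hS.1
      have hPp := hS.2.1
      by_contra hF
      have hnl : ¬ (M.lnk f p P).Free (lf f P) := fun h => hF (free_link M hP h)
      have hnp : ¬ (p = f ∨ P p = 0) := by
        rintro (h | h)
        · exact hpf h
        · exact hPp h
      have hcard : Nat.card (Lk f P) < n := by
        rw [← hn]
        exact Finite.card_subtype_lt (p := fun x => x = f ∨ P x = 0) (x := p) hnp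
      refine hG (good_lift M hg hpf hS (ih _ hcard (Lk f P) (M.lnk f p P) (lf f P) rfl
        (lnk_generic M hg hpf hP hPp) (lnk_simple M hs hpf hP hPp) (fun g hgf => ?_) hnl))
      have hne : g.1 ≠ f := fun h => hgf (Subtype.ext h)
      exact lacyclic_minor M (fun x : Lk f P => x.1) {p} rfl rfl (lnk_span M hP hPp) (hl g.1 hne)
    refine hG (good_of_all_free M hg hs hnf fun Y hY => ?_)
    obtain ⟨p, hpf, hYp⟩ : ∃ p, p ≠ f ∧ Y p ≠ 0 := by
      by_contra hc
      push Not at hc
      have h0 := hg.1 Y hY.1 hc
      have h1 := hY.2.1
      rw [h0] at h1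
      exact absurd h1 (by decide)
    rcases path M (hl p hpf) hY hYp with h | ⟨w, P, hBt, hSP⟩
    · exact hsrc p Y hpf h
    · exact absurd (good_of_bt M hBt (hsrc p P hpf hSP)) hG

end OM

end MUR
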