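import Pool.Agent.MUR.GQT
import Pool.Agent.MUR.R3D
import Pool.Agent.MUR.ZPR
import Pool.Agent.MUR.GLF
import Pool.Agent.MUR.LNK

/-!
A separator of rank three of the link of a source. (150 lines)

P := zs Y = X ∪ X' with X, X' flats, X ∩ X' = ∅, rk X = 3, rk X + rk X' = rk P. L := M.lnk f p Y (on Lk f Y). Let A := {x : Lk | x.val ∈ X'}, B := {x : Lk | x.val ∈ X}, and
N := L.minor val A on {x : Lk f Y // x = lf ∨ x ∈ B}.
rank N = 3: rank L + 1 = rank, rk_L A = rk (X' ∪ {p}) - 1 = rk X' and rank N + rk_L A = rank L = rk P.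
N is Generic at f: (1) covectors of N vanishing off f vanish on P and p, so are 0; (2) Generic for L (`lnk_generic`) applied to val '' A' ∪ A.
N is SimpleOff: for e ∈ X: e ∉ cl (X' ∪ {p}), for e ≠ h in X: h ∉ cl (X' ∪ {e, p}). Exchange with p reduces to h ∉ cl (X' ∪ {e}); submodularity of X and X' ∪ {e, h}:
rk P + rk {e, h} ≤ rk X + rk (X' ∪ {e, h}), and rk {e, h} = 2 (SimpleOff M), so rk (X' ∪ {e,h}) ≥ rk X' + 2.
By `rank_three` all LAcyclic N. If N is not Free then `zp` gives Good N, `good_quot` gives Good L, `good_lift` gives Good M; forget a, c, X.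
If N is Free: take e ∈ X (rk X = 3); the covector of N nonzero at e and zero at the other elements of X lifts to K in M.cov with K = 0 on X', p, and X minus e, K e ≠ 0.
comp K Y has zero set P minus e, so F := P minus e is a flat, c := e, covector Y.
-/

namespace MUR

universe u v

namespace OM

variable {α : Type u} {β : Type v}

private theorem s3x_zero_ne {f : α} {Y : α → SignType} (hYf : Y f = 1) {x : α} (hx : Y x = 0) :
    x ≠ f := by
  rintro rfl
  rw [hYf] at hx
  exact absurd hx (by decide)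

private theorem s3x_K [Finite α] (M : OM α) {f : α} (hs : M.SimpleOff f) {Y : α → SignType}
    (hYf : Y f = 1) {A B : Set α} (hAB : A ∪ B = zs Y) (hd : A ∩ B = ∅)
    (hr3 : M.rk A = 3) (hr : M.rk A + M.rk B = M.rk (zs Y)) {e h : α} (he : e ∈ A) (hh : h ∈ A)
    (hne : e ≠ h) : h ∉ M.cl (insert e B) := by
  intro hcl
  have hAz : ∀ x ∈ A, Y x = 0 := fun x hx => by
    have : x ∈ A ∪ B := Or.inl hx
    rw [hAB] at this
    exact this
  have h1 := M.rk_submod A (insert h (insert e B))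
  have h2 : A ∪ insert h (insert e B) = zs Y := by
    rw [← hAB]
    ext x
    simp only [Set.mem_union, Set.mem_insert_iff]
    constructor
    · rintro (h | rfl | rfl | h)
      · exact Or.inl h
      · exact Or.inl hh
      · exact Or.inl he
      · exact Or.inr h
    · rintro (h | h)
      · exact Or.inl h
      · exact Or.inr (Or.inr (Or.inr h))
  have h3 : A ∩ insert h (insert e B) = {e, h} := by
    ext x
    simp only [Set.mem_inter_iff, Set.mem_insert_iff, Set.mem_singleton_iff]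
    constructor
    · rintro ⟨hxA, rfl | rfl | hxB⟩
      · exact Or.inr rfl
      · exact Or.inl rfl
      · exfalso
        have : x ∈ A ∩ B := ⟨hxA, hxB⟩
        rw [hd] at this
        exact this
    · rintro (rfl | rfl)
      · exact ⟨he, Or.inr (Or.inl rfl)⟩
      · exact ⟨hh, Or.inl rfl⟩
  rw [h2, h3] at h1
  have h4 := (M.simple_rks hs).2 e h (s3x_zero_ne hYf (hAz e he)) (s3x_zero_ne hYf (hAz h hh)) hne
  have h5 := M.rk_insert_mem hcl
  have h6 := M.rk_insert_le B e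
  omega

private theorem s3x_L [Finite α] (M : OM α) {p : α} {Y : α → SignType} (hY : Y ∈ M.cov)
    (hYp : Y p ≠ 0) {S : Set α} (hS : ∀ x ∈ S, Y x = 0) {h : α} (hh : Y h = 0)
    (hcl : h ∉ M.cl S) : h ∉ M.cl (insert p S) := by
  intro h1
  have h2 := M.exch h1 hcl
  apply hYp
  apply h2 Y hY
  rintro a (rfl | ha)
  · exact hh
  · exact hS a ha

private theorem s3x_generic [Finite α] (L : OM α) {f : α} (hg : L.Generic f) (A B : Set α)
    (hcov : ∀ x, x = f ∨ x ∈ B ∨ x ∈ A) (hfA : f ∉ A) :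
    (L.minor (fun x : {x : α // x = f ∨ x ∈ B} => x.1) A).Generic ⟨f, Or.inl rfl⟩ := by
  constructor
  · rintro X ⟨Z, hZ, hZA, rfl⟩ h0
    apply hg.1 Z hZ
    intro e he
    rcases hcov e with h | h | h
    · exact absurd h he
    · exact h0 ⟨e, Or.inr h⟩ (fun hh => he (congrArg Subtype.val hh))
    · exact hZA e h
  · rintro A' hA' ⟨X, ⟨Z, hZ, hZA, rfl⟩, ⟨e, he⟩, h0⟩
    obtain ⟨Z2, hZ2, hZ2f, hZ20⟩ := hg.2
      ((fun x : {x : α // x = f ∨ x ∈ B} => x.1) '' A' ∪ A) (by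
        rintro (⟨x, hx, hxf⟩ | h)
        · apply hA'
          have : (⟨f, Or.inl rfl⟩ : {x : α // x = f ∨ x ∈ B}) = x := Subtype.ext hxf.symm
          rw [this]
          exact hx
        · exact hfA h) ⟨Z, hZ, ⟨e.1, he⟩, by
        rintro a (⟨x, hx, rfl⟩ | h)
        · exact h0 x hx
        · exact hZA a h⟩
    exact ⟨_, ⟨Z2, hZ2, fun a ha => hZ20 a (Or.inr ha), rfl⟩, hZ2f,
      fun a ha => hZ20 a.1 (Or.inl ⟨a, ha, rfl⟩)⟩

theorem sep_three [Finite α] (M : OM α) {f p : α} (hpf : p ≠ f) (hg : M.Generic f)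
    (hs : M.SimpleOff f) {Y : α → SignType} (hS : M.Source f p Y) {A B : Set α}
    (hA : M.cl A = A) (hB : M.cl B = B) (hAB : A ∪ B = zs Y) (hd : A ∩ B = ∅)
    (hr3 : M.rk A = 3) (hr : M.rk A + M.rk B = M.rk (zs Y)) :
    ∃ (F : Set α) (c : α) (Y : α → SignType), c ∉ F ∧ M.Vx f Y ∧ (∀ e, Y e = 0 ↔ e ∈ insert c F) ∧
      M.cl F = F ∧ M.rk F + 2 = M.rank := by
  obtain ⟨hV, hYp, -⟩ := id hS
  obtain ⟨hY, hYf, hYrk⟩ := id hV
  have hYf0 : Y f ≠ 0 := by rw [hYf]; decide
  have hAz : ∀ x ∈ A, Y x = 0 := fun x hx => by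
    have : x ∈ A ∪ B := Or.inl hx
    rw [hAB] at this
    exact this
  have hBz : ∀ x ∈ B, Y x = 0 := fun x hx => by
    have : x ∈ A ∪ B := Or.inr hx
    rw [hAB] at this
    exact this
  have hABd : ∀ x, x ∈ A → x ∉ B := fun x h1 h2 => by
    have : x ∈ A ∩ B := ⟨h1, h2⟩
    rw [hd] at this
    exact this
  -- the link
  set L : OM (Lk f Y) := M.lnk f p Y with hL
  let AL : Set (Lk f Y) := {x | x.1 ∈ B}
  let BL : Set (Lk f Y) := {x | x.1 ∈ A}
  have hcov : ∀ x : Lk f Y, x = lf f Y ∨ x ∈ BL ∨ x ∈ AL := by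
    intro x
    rcases x.2 with h | h
    · exact Or.inl (Subtype.ext h)
    · have : x.1 ∈ A ∪ B := by
        rw [hAB]
        exact h
      rcases this with h1 | h1
      · exact Or.inr (Or.inl h1)
      · exact Or.inr (Or.inr h1)
  have hfAL : lf f Y ∉ AL := fun h => hYf0 (hBz f h)
  have hgL : L.Generic (lf f Y) := M.lnk_generic hg hpf hV hYp
  have hgN := s3x_generic L hgL AL BL hcov hfAL
  set N := L.minor (fun x : {x : Lk f Y // x = lf f Y ∨ x ∈ BL} => x.1) AL with hN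
  -- covectors of N from covectors of M
  have hmk : ∀ K ∈ M.cov, K p = 0 → (∀ x ∈ B, K x = 0) →
      (fun x : {x : Lk f Y // x = lf f Y ∨ x ∈ BL} => K x.1.1) ∈ N.cov := by
    intro K hK hKp hKB
    refine ⟨fun x : Lk f Y => K x.1, ⟨K, hK, ?_, rfl⟩, fun a ha => hKB a.1 ha, rfl⟩
    intro a ha
    rw [Set.mem_singleton_iff.1 ha]
    exact hKp
  have hmem : ∀ e : {x : Lk f Y // x = lf f Y ∨ x ∈ BL}, e ≠ ⟨lf f Y, Or.inl rfl⟩ →
      e.1.1 ∈ A := by
    intro e he
    rcases e.2 with h | h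
    · exact absurd (Subtype.ext h) he
    · exact h
  have hsN : N.SimpleOff ⟨lf f Y, Or.inl rfl⟩ := by
    constructor
    · intro e he
      have heA := hmem e he
      have h1 : e.1.1 ∉ M.cl (insert p B) :=
        s3x_L M hY hYp hBz (hAz _ heA) (by rw [hB]; exact hABd _ heA)
      obtain ⟨K, hK, hK0, hKe⟩ := M.not_mem_cl h1
      exact ⟨_, hmk K hK (hK0 p (Or.inl rfl)) (fun x hx => hK0 x (Or.inr hx)), hKe⟩
    · intro e h he hh hne
      have heA := hmem e he
      have hhA := hmem h hh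
      have hne' : e.1.1 ≠ h.1.1 := fun h1 => hne (Subtype.ext (Subtype.ext h1))
      have h1 : h.1.1 ∉ M.cl (insert p (insert e.1.1 B)) :=
        s3x_L M hY hYp (by
          rintro x (rfl | hx)
          · exact hAz _ heA
          · exact hBz x hx) (hAz _ hhA) (s3x_K M hs hYf hAB hd hr3 hr heA hhA hne')
      obtain ⟨K, hK, hK0, hKe⟩ := M.not_mem_cl h1
      exact ⟨_, hmk K hK (hK0 p (Or.inl rfl)) (fun x hx => hK0 x (Or.inr (Or.inr hx))),
        hK0 _ (Or.inr (Or.inl rfl)), hKe⟩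
  -- ranks
  have hrp : M.rk {p} = 1 := M.rk_single hY hYp
  have r1 : L.rank + M.rk {p} = M.rk (Set.range (fun x : Lk f Y => x.1) ∪ {p}) :=
    M.rank_minor (fun x : Lk f Y => x.1) {p}
  rw [M.lnk_span hV hYp, hrp] at r1
  have r2 : L.rk AL + M.rk {p} = M.rk ((fun x : Lk f Y => x.1) '' AL ∪ {p}) :=
    M.rk_minor (fun x : Lk f Y => x.1) {p} AL
  have himg : (fun x : Lk f Y => x.1) '' AL ∪ {p} = insert p B := by
    ext x
    constructor
    · rintro (⟨y, hy, rfl⟩ | h)
      · exact Or.inr hy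
      · exact Or.inl h
    · rintro (h | h)
      · exact Or.inr h
      · exact Or.inl ⟨⟨x, Or.inr (hBz x h)⟩, h, rfl⟩
  have hpB : p ∉ M.cl B := by
    rw [hB]
    exact fun h => hYp (hBz p h)
  rw [himg, M.rk_insert_not hpB, hrp] at r2
  have r3 : N.rank + L.rk AL
      = L.rk (Set.range (fun x : {x : Lk f Y // x = lf f Y ∨ x ∈ BL} => x.1) ∪ AL) :=
    L.rank_minor (fun x : {x : Lk f Y // x = lf f Y ∨ x ∈ BL} => x.1) AL
  have huniv : Set.range (fun x : {x : Lk f Y // x = lf f Y ∨ x ∈ BL} => x.1) ∪ AL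
      = Set.univ := by
    rw [Set.eq_univ_iff_forall]
    intro x
    rcases hcov x with h | h | h
    · exact Or.inl ⟨⟨x, Or.inl h⟩, rfl⟩
    · exact Or.inl ⟨⟨x, Or.inr h⟩, rfl⟩
    · exact Or.inr h
  rw [huniv] at r3
  have r4 : L.rk Set.univ = L.rank := rfl
  rw [r4] at r3
  have hN3 : N.rank = 3 := by omega
  by_cases hfree : N.Free ⟨lf f Y, Or.inl rfl⟩
  · have hne : A.Nonempty := by
      rw [Set.nonempty_iff_ne_empty]
      rintro rfl
      rw [M.rk_empty] at hr3
      omega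
    obtain ⟨e, he⟩ := hne
    have heY : Y e = 0 := hAz e he
    have hef : e ≠ f := s3x_zero_ne hYf heY
    let e' : {x : Lk f Y // x = lf f Y ∨ x ∈ BL} := ⟨⟨e, Or.inr heY⟩, Or.inr he⟩
    have he' : e' ≠ ⟨lf f Y, Or.inl rfl⟩ := fun h =>
      hef (congrArg (fun z : {x : Lk f Y // x = lf f Y ∨ x ∈ BL} => z.1.1) h)
    obtain ⟨X, ⟨Z, ⟨K, hK, hKp, rfl⟩, hZA, rfl⟩, hXe, hX0⟩ := hfree e' he'
    have hKe : K e ≠ 0 := hXe
    have hKB : ∀ x ∈ B, K x = 0 := fun x hx => hZA ⟨x, Or.inr (hBz x hx)⟩ hx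
    have hKA : ∀ x ∈ A, x ≠ e → K x = 0 := by
      intro x hx hxe
      refine hX0 ⟨⟨x, Or.inr (hAz x hx)⟩, Or.inr hx⟩ (fun h => ?_) (fun h => ?_)
      · exact s3x_zero_ne hYf (hAz x hx)
          (congrArg (fun z : {x : Lk f Y // x = lf f Y ∨ x ∈ BL} => z.1.1) h)
      · exact hxe (congrArg (fun z : {x : Lk f Y // x = lf f Y ∨ x ∈ BL} => z.1.1) h)
    have hzs : zs (comp Y K) = zs Y \ {e} := by
      rw [comp_zs]
      ext x
      constructor
      · rintro ⟨h1, h2⟩
        refine ⟨h1, ?_⟩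
        rintro rfl
        exact hKe h2
      · rintro ⟨h1, h2⟩
        refine ⟨h1, ?_⟩
        have : x ∈ A ∪ B := by
          rw [hAB]
          exact h1
        rcases this with h | h
        · exact hKA x h h2
        · exact hKB x h
    have hclF : M.cl (zs Y \ {e}) = zs Y \ {e} := by
      rw [← hzs]
      exact M.cl_zs (M.comp_mem Y hY K hK)
    have hins : insert e (zs Y \ {e}) = zs Y := by
      rw [Set.insert_sdiff_singleton, Set.insert_eq_of_mem]
      exact heY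
    refine ⟨zs Y \ {e}, e, Y, fun h => h.2 rfl, hV, fun x => ?_, hclF, ?_⟩
    · rw [hins]
      exact Iff.rfl
    · have hnot : e ∉ M.cl (zs Y \ {e}) := by
        rw [hclF]
        exact fun h => h.2 rfl
      have h1 := M.rk_insert_not hnot
      rw [hins] at h1
      omega
  · have hG : N.Good ⟨lf f Y, Or.inl rfl⟩ := by
      refine zp _ _ N ⟨lf f Y, Or.inl rfl⟩ rfl hgN hsN (fun g hgf => ?_) hfree
      exact N.rank_three hgN hsN hN3 hgf
    have hGL : L.Good (lf f Y) := L.good_quot BL AL hcov hG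
    obtain ⟨F, b, a, c, X, Y1, hb, hcl, hrk, hV1, hz, -⟩ := M.good_lift hg hpf hS hGL
    exact ⟨F, b, Y1, hb, hV1, hz, hcl, hrk⟩

end OM

end MUR
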