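import Pool.Agent.MUR.TGA

/-!
Shortest walks in the tope graph; stars are convex. (100 lines)

Let d(T,U) be the number of e with T e ≠ U e. (1) every walk from T to U has length at least d(T,U); (2) by `tope_step` there is a walk of
length d(T,U). So dist = d. (3) For a walk of length d(T,U), every vertex x of it satisfies x e = T e whenever T e = U e: induction on
the walk: for the first step T ~ T' at e0: d(T,U) ≤ 1 + d(T',U) ≤ length; equality forces d(T',U) = d(T,U) - 1, so T e0 ≠ U e0 and T' e0 = U e0;
for e with T e = U e: e ≠ e0, T' e = T e = U e, use the induction hypothesis.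
-/

namespace MUR

universe u v

namespace OM

variable {α : Type u} {β : Type v}

private theorem tgb_low [Finite α] (M : OM α) {T U : {T : α → SignType // M.Tope T}}
    (w : M.topeGraph.Walk T U) : {e | T.1 e ≠ U.1 e}.ncard ≤ w.length := by
  induction w with
  | nil => simp
  | @cons T T' U h p ih =>
    obtain ⟨e0, h1, h2⟩ := h
    have hsub : {e | T.1 e ≠ U.1 e} ⊆ insert e0 {e | T'.1 e ≠ U.1 e} := by
      intro e he
      by_cases hee : e = e0
      · exact Or.inl hee
      · right
        have : T.1 e = T'.1 e := by
          by_contra hne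
          exact hee (h2 e hne)
        simp only [Set.mem_setOf_eq] at he ⊢
        rwa [← this]
    have h3 := (Set.ncard_le_ncard hsub (Set.toFinite _)).trans (Set.ncard_insert_le _ _)
    rw [SimpleGraph.Walk.length_cons]
    omega

private theorem tgb_mem [Finite α] (M : OM α) {T U : {T : α → SignType // M.Tope T}}
    (w : M.topeGraph.Walk T U) (hw : w.length ≤ {e | T.1 e ≠ U.1 e}.ncard) :
    ∀ x ∈ w.support, ∀ e, T.1 e = U.1 e → x.1 e = T.1 e := by
  induction w with
  | nil =>
    intro x hx e _
    simp only [SimpleGraph.Walk.support_nil, List.mem_singleton] at hx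
    rw [hx]
  | @cons T T' U h p ih =>
    obtain ⟨e0, h1, h2⟩ := h
    have heq : ∀ e, e ≠ e0 → T.1 e = T'.1 e := by
      intro e hee
      by_contra hne
      exact hee (h2 e hne)
    rw [SimpleGraph.Walk.length_cons] at hw
    have hlow := tgb_low M p
    have hTU : T.1 e0 ≠ U.1 e0 := by
      intro h0
      have hsub : insert e0 {e | T.1 e ≠ U.1 e} ⊆ {e | T'.1 e ≠ U.1 e} := by
        intro e he
        rcases he with rfl | he
        · simp only [Set.mem_setOf_eq]
          rw [← h0]
          exact h1.symm
        · have hee : e ≠ e0 := by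
            rintro rfl
            exact he h0
          simp only [Set.mem_setOf_eq] at he ⊢
          rwa [← heq e hee]
      have h3 := Set.ncard_le_ncard hsub (Set.toFinite _)
      have hnot : e0 ∉ {e | T.1 e ≠ U.1 e} := fun hh => hh h0
      rw [Set.ncard_insert_of_notMem hnot (Set.toFinite _)] at h3
      omega
    have hsub : {e | T.1 e ≠ U.1 e} ⊆ insert e0 {e | T'.1 e ≠ U.1 e} := by
      intro e he
      by_cases hee : e = e0
      · exact Or.inl hee
      · right
        simp only [Set.mem_setOf_eq] at he ⊢
        rwa [← heq e hee]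
    have h3 := (Set.ncard_le_ncard hsub (Set.toFinite _)).trans (Set.ncard_insert_le _ _)
    have ih' := ih (by omega)
    intro x hx e he
    rw [SimpleGraph.Walk.support_cons, List.mem_cons] at hx
    rcases hx with rfl | hx
    · rfl
    · have hee : e ≠ e0 := by
        rintro rfl
        exact hTU he
      rw [heq e hee]
      exact ih' x hx e (by rw [← heq e hee]; exact he)

private theorem tgb_walk [Finite α] (M : OM α) (hs : M.Simple) (n : ℕ) :
    ∀ T U : {T : α → SignType // M.Tope T}, {e | T.1 e ≠ U.1 e}.ncard = n →
      ∃ w : M.topeGraph.Walk T U, w.length ≤ n := by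
  induction n with
  | zero =>
    intro T U h
    have h0 : {e | T.1 e ≠ U.1 e} = ∅ := (Set.ncard_eq_zero (Set.toFinite _)).1 h
    have : T = U := by
      apply Subtype.ext
      funext e
      by_contra hne
      have : e ∈ {e | T.1 e ≠ U.1 e} := hne
      rw [h0] at this
      exact this
    subst this
    exact ⟨SimpleGraph.Walk.nil, le_refl _⟩
  | succ n ih =>
    intro T U h
    have hne : T.1 ≠ U.1 := by
      intro hTU
      have : {e | T.1 e ≠ U.1 e} = ∅ := by
        ext e
        simp [hTU]
      rw [this, Set.ncard_empty] at h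
      omega
    obtain ⟨V, e, hV, h1, h2, h3⟩ := M.tope_step hs T.2 U.2 hne
    have hset : {x | V x ≠ U.1 x} = {x | T.1 x ≠ U.1 x} \ {e} := by
      ext x
      by_cases hx : x = e
      · subst hx
        simp [h2]
      · simp [hx, h3 x hx]
    have hcard : {x | V x ≠ U.1 x}.ncard = n := by
      rw [hset, Set.ncard_diff_singleton_of_mem (show e ∈ {x | T.1 x ≠ U.1 x} from h1)]
      omega
    obtain ⟨w, hw⟩ := ih ⟨V, hV⟩ U hcard
    have hadj : M.topeGraph.Adj T ⟨V, hV⟩ := by
      refine ⟨e, ?_, fun x hx => ?_⟩
      · change T.1 e ≠ V e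
        rw [h2]
        exact h1
      · by_contra hxe
        exact hx (h3 x hxe).symm
    refine ⟨SimpleGraph.Walk.cons hadj w, ?_⟩
    rw [SimpleGraph.Walk.length_cons]
    omega

theorem star_convex [Finite α] (M : OM α) (hs : M.Simple) (Y : α → SignType) :
    Convex M.topeGraph {T | ∀ e, Y e ≠ 0 → T.1 e = Y e} := by
  intro a ha b hb w hw x hx e he
  obtain ⟨w', hw'⟩ := tgb_walk M hs _ a b rfl
  have h1 : w.length ≤ {e | a.1 e ≠ b.1 e}.ncard := by
    rw [hw]
    exact (SimpleGraph.dist_le w').trans hw'
  have h2 := tgb_mem M w h1 x hx e (by rw [ha e he, hb e he])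
  rw [h2]
  exact ha e he

end OM

end MUR
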