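import Pool.Agent.MUR.TGA

/-!
The star of a flat plus a coloop. (120 lines)

N := M.minor (Subtype.val : F → α) ∅ is simple. Topes of M and N are the covectors with full support (`tope_iff`, also for N).
Map T in the star to (decide (T c = 1), T restricted to F). Inverse: given a sign t ∈ {1, -1} for c and a tope U of N, U = X restricted to F for
X ∈ M.cov. As cl F = F and c ∉ F there is K ∈ cov vanishing on F with K c ≠ 0; replacing K by -K, K c = t. T := comp Y (comp K X): T = Y
where Y ≠ 0; T c = K c (Y c = 0); T = X on F. Full support, so a tope. T is determined by these values because every e has Y e ≠ 0 or e = c or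
e ∈ F. Adjacency: T, T' in the star differ in exactly one coordinate, which is c or in F.
`SimpleGraph.boxProd_adj`. Suggestion: build an Equiv from a bijective function (`Equiv.ofBijective`).
-/

namespace MUR

universe u v

namespace OM

variable {α : Type u} {β : Type v}

theorem minor_simple [Finite α] (M : OM α) (hs : M.Simple) (F : Set α) :
    (M.minor (Subtype.val : F → α) ∅).Simple := by
  refine ⟨fun e => ?_, fun e h heh => ?_⟩
  · obtain ⟨X, hX, hXe⟩ := hs.1 e
    exact ⟨fun b => X b, ⟨X, hX, fun a ha => absurd ha (Set.notMem_empty a), rfl⟩, hXe⟩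
  · obtain ⟨X, hX, hXe, hXh⟩ := hs.2 e h (fun hh => heh (Subtype.ext hh))
    exact ⟨fun b => X b, ⟨X, hX, fun a ha => absurd ha (Set.notMem_empty a), rfl⟩, hXe, hXh⟩

private theorem tgc_sign {s t : SignType} (hs : s ≠ 0) (ht : t ≠ 0) :
    decide (s = 1) = decide (t = 1) ↔ s = t := by
  revert s t
  decide

theorem star_iso [Finite α] (M : OM α) (hs : M.Simple) {F : Set α} {c : α} {Y : α → SignType}
    (hc : c ∉ F) (hY : Y ∈ M.cov) (h0 : ∀ e, Y e = 0 ↔ e ∈ insert c F) (hF : M.cl F = F) :
    Nonempty (M.topeGraph.induce {T | ∀ e, Y e ≠ 0 → T.1 e = Y e} ≃g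
      ((⊤ : SimpleGraph Bool) □ (M.minor (Subtype.val : F → α) ∅).topeGraph)) := by
  have hN : (M.minor (Subtype.val : F → α) ∅).Simple := M.minor_simple hs F
  set N := M.minor (Subtype.val : F → α) ∅ with hNdef
  have hres : ∀ T : α → SignType, M.Tope T → N.Tope (fun b : F => T b) := by
    intro T hT
    rw [M.tope_iff hs] at hT
    rw [N.tope_iff hN]
    exact ⟨⟨T, hT.1, fun a ha => absurd ha (Set.notMem_empty a), rfl⟩, fun e => hT.2 e⟩
  have hfull : ∀ T : {T : α → SignType // M.Tope T}, ∀ e, T.1 e ≠ 0 := fun T =>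
    ((M.tope_iff hs T.1).1 T.2).2
  -- two elements of the star agree off `insert c F`
  have hagree : ∀ (T T' : {T : α → SignType // M.Tope T}), (∀ e, Y e ≠ 0 → T.1 e = Y e) →
      (∀ e, Y e ≠ 0 → T'.1 e = Y e) → ∀ e, T.1 e ≠ T'.1 e → e = c ∨ e ∈ F := by
    intro T T' hT hT' e he
    have : Y e = 0 := by
      by_contra hh
      exact he ((hT e hh).trans (hT' e hh).symm)
    exact (h0 e).1 this
  let φ : {T : {T : α → SignType // M.Tope T} // T ∈ {T | ∀ e, Y e ≠ 0 → T.1 e = Y e}} →
      Bool × {U : F → SignType // N.Tope U} :=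
    fun T => (decide (T.1.1 c = 1), ⟨fun b => T.1.1 b, hres T.1.1 T.1.2⟩)
  have hφ1 : ∀ T, (φ T).1 = decide (T.1.1 c = 1) := fun _ => rfl
  have hφ2 : ∀ T, ∀ b : F, (φ T).2.1 b = T.1.1 b := fun _ _ => rfl
  have hbij : Function.Bijective φ := by
    constructor
    · rintro T T' hTT
      apply Subtype.ext
      apply Subtype.ext
      funext e
      by_contra hne
      rcases hagree T.1 T'.1 T.2 T'.2 e hne with rfl | heF
      · apply hne
        rw [← tgc_sign (hfull T.1 e) (hfull T'.1 e)]
        exact congrArg Prod.fst hTT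
      · apply hne
        have := congrArg (fun z => z.2.1 ⟨e, heF⟩) hTT
        exact this
    · rintro ⟨t, U, hU⟩
      have hU' := (N.tope_iff hN U).1 hU
      obtain ⟨⟨X, hX, -, hXU⟩, hUf⟩ := hU'
      have hcF : c ∉ M.cl F := by rw [hF]; exact hc
      obtain ⟨K0, hK0, hK0F, hK0c⟩ := M.not_mem_cl hcF
      obtain ⟨K, hK, hKF, hKc, hKt⟩ : ∃ K ∈ M.cov, (∀ a ∈ F, K a = 0) ∧ K c ≠ 0 ∧
          decide (K c = 1) = t := by
        by_cases hd : decide (K0 c = 1) = t
        · exact ⟨K0, hK0, hK0F, hK0c, hd⟩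
        · refine ⟨_, M.neg_mem K0 hK0, fun a ha => by simp [hK0F a ha], by simpa using hK0c, ?_⟩
          revert hK0c hd
          generalize K0 c = s
          revert s t
          decide
      have hTcov : comp Y (comp K X) ∈ M.cov := M.comp_mem Y hY _ (M.comp_mem K hK X hX)
      have hval1 : ∀ e, Y e ≠ 0 → comp Y (comp K X) e = Y e := fun e he => by simp [comp, he]
      have hval2 : comp Y (comp K X) c = K c := by
        have : Y c = 0 := (h0 c).2 (Set.mem_insert _ _)
        simp [comp, this, hKc]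
      have hval3 : ∀ b : F, comp Y (comp K X) b = U b := by
        intro b
        have : Y b = 0 := (h0 b).2 (Set.mem_insert_of_mem _ b.2)
        simp [comp, this, hKF b b.2, hXU]
      have hTt : M.Tope (comp Y (comp K X)) := by
        rw [M.tope_iff hs]
        refine ⟨hTcov, fun e => ?_⟩
        by_cases he : Y e = 0
        · rcases (h0 e).1 he with rfl | heF
          · rw [hval2]; exact hKc
          · rw [hval3 ⟨e, heF⟩]; exact hUf _
        · rw [hval1 e he]; exact he
      refine ⟨⟨⟨_, hTt⟩, hval1⟩, ?_⟩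
      apply Prod.ext
      · show decide (comp Y (comp K X) c = 1) = t
        rw [hval2]; exact hKt
      · apply Subtype.ext
        funext b
        exact hval3 b
  refine ⟨⟨Equiv.ofBijective φ hbij, ?_⟩⟩
  intro T T'
  rw [Equiv.ofBijective_apply, Equiv.ofBijective_apply, SimpleGraph.boxProd_adj,
    SimpleGraph.top_adj]
  show _ ↔ ∃ e, T.1.1 e ≠ T'.1.1 e ∧ ∀ h, T.1.1 h ≠ T'.1.1 h → h = e
  constructor
  · rintro (⟨hc1, hc2⟩ | ⟨⟨b, hb1, hb2⟩, hc2⟩)
    · refine ⟨c, fun hh => hc1 ?_, fun h hh => ?_⟩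
      · rw [hφ1, hφ1, hh]
      · rcases hagree T.1 T'.1 T.2 T'.2 h hh with hhc | hhF
        · exact hhc
        · exact absurd (congrArg (fun z => z.1 ⟨h, hhF⟩) hc2) hh
    · refine ⟨b, hb1, fun h hh => ?_⟩
      rcases hagree T.1 T'.1 T.2 T'.2 h hh with hhc | hhF
      · exfalso
        apply hh
        rw [hhc, ← tgc_sign (hfull T.1 c) (hfull T'.1 c)]
        exact hc2
      · exact congrArg Subtype.val (hb2 ⟨h, hhF⟩ hh)
  · rintro ⟨e, he1, he2⟩
    rcases hagree T.1 T'.1 T.2 T'.2 e he1 with hec | heF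
    · left
      refine ⟨fun hh => he1 ?_, ?_⟩
      · rw [hec]
        exact (tgc_sign (hfull T.1 c) (hfull T'.1 c)).1 hh
      · apply Subtype.ext
        funext b
        by_contra hh
        exact hc (hec ▸ (he2 b hh) ▸ b.2)
    · right
      refine ⟨⟨⟨e, heF⟩, he1, fun h hh => Subtype.ext (he2 h hh)⟩, ?_⟩
      rw [hφ1, hφ1]
      rw [tgc_sign (hfull T.1 c) (hfull T'.1 c)]
      by_contra hh
      exact hc ((he2 c hh) ▸ heF)

end OM

end MUR
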