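import Pool.Agent.MUR.AFN
import Pool.Agent.MUR.MBN
import Pool.Agent.MUR.DEL
import Pool.Agent.MUR.TGB
import Pool.Agent.MUR.TGC
import Pool.Agent.MUR.LAR
import Pool.Agent.MUR.PTH
import Pool.Agent.MUR.S3X

/-!
Assembly.
-/

namespace MUR

universe u v

namespace OM

variable {α : Type u} {β : Type v}

theorem murty_of_flat [Finite α] (M : OM α) (hs : M.Simple) (h : M.Flat) : M.Murty := by
  obtain ⟨F, c, Y, hc, hY, h0, hF, hr⟩ := h
  refine ⟨{T | ∀ e, Y e ≠ 0 → T.1 e = Y e}, star_convex M hs Y, F, inferInstance,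
    M.minor (Subtype.val : F → α) ∅, minor_simple M hs F, ?_, star_iso M hs hc hY h0 hF⟩
  have h1 := M.rank_minor (Subtype.val : F → α) ∅
  rw [M.rk_empty, Subtype.range_coe_subtype, Set.setOf_mem_eq, Set.union_empty, add_zero] at h1
  rw [h1]
  exact hr

theorem near_murty [Finite α] (M : OM α) (Y : α → SignType) (p : α) (hs : M.Simple)
    (hr : 2 ≤ M.rank) (h : M.NearPair Y p)
    (hP : M.rank ≤ 6 ∨ ¬ M.Disc (zs Y) ∅ ∨ M.SmallSep (zs Y)) : M.Murty :=
  M.murty_of_flat hs (M.main_near hs hr h hP)

theorem rk_del [Finite α] (M : OM (Option α)) (B : Set α) : M.del.rk B = M.rk (some '' B) := by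
  have h1 := M.rk_minor (some : α → Option α) ∅ B
  rw [M.rk_empty, Set.union_empty, add_zero] at h1
  exact h1

theorem flat_some [Finite α] (M : OM (Option α)) {Y : Option α → SignType}
    (hY : M.Vx none Y) {A : Set α} (hA : M.del.cl A = A) (hAY : ∀ a ∈ A, Y (some a) = 0) :
    M.cl (some '' A) = some '' A := by
  apply Set.Subset.antisymm _ (M.subset_cl _)
  intro x hx
  have h0 : Y x = 0 := by
    apply hx Y hY.1
    rintro _ ⟨a, ha, rfl⟩
    exact hAY a ha
  rcases x with _ | x
  · rw [hY.2.1] at h0
    exact absurd h0 (by decide)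
  · refine ⟨x, ?_, rfl⟩
    rw [← hA]
    have := M.cl_minor (some : α → Option α) ∅ A
    show x ∈ (M.minor some ∅).cl A
    rw [this]
    simpa using hx

theorem program_murty [Finite α] (M : OM (Option α)) (p : α) (hs : M.del.Simple)
    (hr : 2 ≤ M.del.rank) (hg : M.Generic none) (hac : M.Acyclic none (some p))
    (hP : M.del.rank ≤ 8 ∨ ∀ g, (M.con (some p)).Acyclic none (some g)) : M.del.Murty := by
  have hL := M.acyclic_lacyclic hac
  rcases hP with hP | hP
  · obtain ⟨Y, hY⟩ := M.source_exists hg hs hL
    have hN := M.near_of_source hg hY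
    have key : ∀ A B : Set α, M.del.cl A = A → M.del.cl B = B →
        A ∪ B = zs (fun a => Y (some a)) → A ∩ B = ∅ → A ≠ ∅ →
        M.del.rk A + M.del.rk B = M.del.rk (zs fun a => Y (some a)) → M.del.rk A ≤ 3 →
        M.del.Murty := by
      intro A B hA hB hAB hd hne hrk h3
      by_cases h2 : M.del.rk A ≤ 2
      · exact M.del.near_murty _ p hs hr hN (Or.inr (Or.inr ⟨A, B, hA, hB, hAB, hd, hne, h2, hrk⟩))
      · have hzs : some '' zs (fun a => Y (some a)) = zs Y := by
          ext x
          constructor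
          · rintro ⟨a, ha, rfl⟩; exact ha
          · intro hx
            rcases x with _ | x
            · have h1 : Y none = 0 := hx
              rw [hY.1.2.1] at h1
              exact absurd h1 (by decide)
            · exact ⟨x, hx, rfl⟩
        apply M.del.murty_of_flat hs
        apply M.flat_del hg
        have hAY : ∀ a ∈ A, Y (some a) = 0 := fun a ha =>
          (hAB ▸ Set.mem_union_left B ha : a ∈ zs fun a => Y (some a))
        have hBY : ∀ a ∈ B, Y (some a) = 0 := fun a ha =>
          (hAB ▸ Set.mem_union_right A ha : a ∈ zs fun a => Y (some a))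
        refine M.sep_three (f := none) (p := some p) (by simp) hg (M.simpleOff_of_del hs) hY
          (A := some '' A) (B := some '' B) (M.flat_some hY.1 hA hAY) (M.flat_some hY.1 hB hBY)
          ?_ ?_ ?_ ?_
        · rw [← Set.image_union, hAB, hzs]
        · rw [← Set.image_inter (Option.some_injective α), hd, Set.image_empty]
        · rw [← M.rk_del]; omega
        · rw [← M.rk_del, ← M.rk_del, hrk, M.rk_del, hzs]
    by_cases hD : M.del.Disc (zs fun a => Y (some a)) ∅
    · obtain ⟨A, B, hA, hB, hAB, hd, hA0, hB0, hrk⟩ := hD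
      rw [M.del.rk_empty, add_zero] at hrk
      have h1 := ((M.del.cocircuit_iff _).1 hN.1).2.2
      by_cases h3 : M.del.rk A ≤ 3
      · exact key A B hA hB hAB hd hA0 hrk h3
      · refine key B A hB hA (by rw [Set.union_comm]; exact hAB) (by rw [Set.inter_comm]; exact hd)
          hB0 (by rw [add_comm]; exact hrk) ?_
        omega
    · exact M.del.near_murty _ p hs hr hN (Or.inr (Or.inl hD))
  · apply M.del.murty_of_flat hs
    apply M.flat_del hg
    apply M.main_program (f := none) (p := some p) (by simp) hg (M.simpleOff_of_del hs)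
      (by rwa [M.rank_del hg] at hr) hL
    intro g hgf
    obtain ⟨g', rfl⟩ := Option.ne_none_iff_exists'.1 hgf
    exact (M.con (some p)).acyclic_lacyclic (hP g')

end OM

end MUR
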