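import Pool.Agent.MUR.FCR
import Pool.Agent.MUR.FIN

/-!
The counting result in rank four.
-/

namespace MUR

universe u v

namespace OM

variable {α : Type u}

theorem hy_single (M : OM α) (e : α) : M.Hy {e} = {P | P ∈ M.Hy ∅ ∧ e ∈ P} := by
  ext P
  constructor
  · rintro ⟨h1, h2, h3⟩
    exact ⟨⟨h1, h2, Set.empty_subset _⟩, h3 rfl⟩
  · rintro ⟨⟨h1, h2, -⟩, h3⟩
    exact ⟨h1, h2, Set.singleton_subset_iff.2 h3⟩

theorem bet_ge [Finite α] (M : OM α) (hs : M.Simple) (hr : M.rank = 4) {P L L' : Set α} {e f : α}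
    (hP : P ∈ M.Hy {e}) (hL : L ∈ M.Bet {e} P) (hL' : L' ∈ M.Bet {e} P)
    (h2 : L ∩ L' = {e}) (hf : f ∈ L) (hfe : f ≠ e) :
    1 + (L' \ {e}).ncard ≤ (M.Bet {f} P).ncard := by
  have hfr : M.rk {f} + 3 = M.rank := by rw [M.rk_one_of_simple hs, hr]
  have hfc := M.cl_single hs f
  have hfP : f ∈ P := hL.2.2.2 hf
  have hPf : P ∈ M.Hy {f} := ⟨hP.1, hP.2.1, Set.singleton_subset_iff.2 hfP⟩
  have hfL' : f ∉ L' := by
    intro h
    have : f ∈ L ∩ L' := ⟨hf, h⟩
    rw [h2] at this
    exact hfe this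
  have hinj : Set.InjOn (fun g => M.cl (insert g {f})) (L' \ {e}) := by
    intro g hg g' hg' h
    by_contra hne
    have h3 : g ∈ M.cl (insert g' {f}) := by
      have : g ∈ M.cl (insert g {f}) := M.subset_cl _ (Or.inl rfl)
      have h' : M.cl (insert g {f}) = M.cl (insert g' {f}) := h
      rwa [h'] at this
    have h4 : g ∉ M.cl {f} := by
      rw [hfc]
      intro h5
      exact hfL' (Set.mem_singleton_iff.1 h5 ▸ hg.1)
    -- the line through `g` and `g'` is `L'`
    have h5 : g' ∈ M.cl (insert g {f}) := M.exch h3 h4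
    have h6 : M.cl (insert g' {g}) = L' :=
      M.cl_insert_bet (F := {g}) (by rw [M.rk_one_of_simple hs, hr]) (M.cl_single hs g) hL'.1
        hL'.2.1 (Set.singleton_subset_iff.2 hg.1) hg'.1 (fun h => hne (Set.mem_singleton_iff.1 h).symm)
    have h7 : M.cl (insert g' {g}) ⊆ M.cl (insert g {f}) :=
      M.cl_subset_of (Set.insert_subset h5 (Set.singleton_subset_iff.2 (M.subset_cl _ (Or.inl rfl))))
    rw [h6] at h7
    have h8 : M.cl (insert g {f}) ⊆ M.cl L' := by
      refine M.cl_subset_of ((M.subset_cl _).trans (M.sub_cl_of_rk h7 ?_)) 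
      have h9 := hL'.2.1
      rw [M.rk_cl, M.rk_insert_not h4, M.rk_one_of_simple hs]
      omega
    rw [hL'.1] at h8
    exact hfL' (h8 (M.subset_cl _ (Or.inr rfl)))
  have hLb : L ∈ M.Bet {f} P := ⟨hL.1, hL.2.1, Set.singleton_subset_iff.2 hf, hL.2.2.2⟩
  have hnot : L ∉ (fun g => M.cl (insert g {f})) '' (L' \ {e}) := by
    rintro ⟨g, hg, hgL⟩
    have h3 : g ∈ L := by
      rw [← hgL]
      exact M.subset_cl _ (Or.inl rfl)
    have : g ∈ L ∩ L' := ⟨h3, hg.1⟩
    rw [h2] at this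
    exact hg.2 this
  have hsub : insert L ((fun g => M.cl (insert g {f})) '' (L' \ {e})) ⊆ M.Bet {f} P := by
    apply Set.insert_subset hLb
    rintro _ ⟨g, hg, rfl⟩
    exact M.bet_mem hfr hfc hPf (hL'.2.2.2 hg.1)
      (fun h => hfL' (Set.mem_singleton_iff.1 h ▸ hg.1))
  have h3 := Set.ncard_le_ncard hsub (Set.toFinite _)
  rw [Set.ncard_insert_of_notMem hnot, hinj.ncard_image] at h3
  omega

open Classical in
theorem plane_ineq [Finite α] (M : OM α) (hs : M.Simple) (hr : M.rank = 4) (hn : ¬ M.Flat)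
    {P : Set α} (hP : P ∈ M.Hy ∅) :
    3 * P.ncard + (if ∃ e, P ∈ M.Rich {e} then 1 else 0) ≤
      ∑ e ∈ (Set.toFinite P).toFinset, (M.Bet {e} P).ncard + if P ∈ M.Five then 1 else 0 := by
  have hre : ∀ e, M.rk {e} + 3 = M.rank := fun e => by rw [M.rk_one_of_simple hs, hr]
  have hPe : ∀ e ∈ P, P ∈ M.Hy {e} := fun e he => by rw [hy_single]; exact ⟨hP, he⟩
  have hd2 : ∀ e ∈ P, 2 ≤ (M.Bet {e} P).ncard := fun e he =>
    M.two_le_ncard_bet (M.cl_single hs e) (hre e) (hPe e he)
  have hrich : ∀ e, P ∈ M.Rich {e} → e ∈ P ∧ 4 ≤ (M.Bet {e} P).ncard := fun e h =>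
    ⟨h.1.2.2 rfl, h.2⟩
  have hcard : P.ncard = (Set.toFinite P).toFinset.card := Set.ncard_eq_toFinset_card _ _
  by_cases h3 : ∀ e ∈ P, 3 ≤ (M.Bet {e} P).ncard
  · have h4 : ∀ e ∈ (Set.toFinite P).toFinset, 3 ≤ (M.Bet {e} P).ncard := fun e he =>
      h3 e ((Set.Finite.mem_toFinset _).1 he)
    have h5 : 3 * P.ncard = ∑ _e ∈ (Set.toFinite P).toFinset, 3 := by
      rw [Finset.sum_const, hcard, smul_eq_mul, mul_comm]
    by_cases hR : ∃ e, P ∈ M.Rich {e}
    · obtain ⟨e, he⟩ := hR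
      obtain ⟨he1, he2⟩ := hrich e he
      have h6 := Finset.sum_lt_sum h4 ⟨e, (Set.Finite.mem_toFinset _).2 he1, by omega⟩
      rw [if_pos ⟨e, he⟩]
      omega
    · have h6 := Finset.sum_le_sum h4
      rw [if_neg hR]
      omega
  · push Not at h3
    obtain ⟨e, he, he3⟩ := h3
    have he2 := hd2 e he
    obtain ⟨-, L, hL, L', hL', hU, hI, hc, hc'⟩ :=
      M.crossed_of_two (M.cl_single hs e) (hre e) (hPe e he) (by omega) hn
    set a := (L \ {e}).ncard with ha
    set a' := (L' \ {e}).ncard with ha'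
    have hge : ∀ f ∈ L \ {e}, 1 + a' ≤ (M.Bet {f} P).ncard := fun f hf =>
      M.bet_ge hs hr (hPe e he) hL hL' hI hf.1 hf.2
    have hge' : ∀ f ∈ L' \ {e}, 1 + a ≤ (M.Bet {f} P).ncard := fun f hf =>
      M.bet_ge hs hr (hPe e he) hL' hL (by rwa [Set.inter_comm]) hf.1 hf.2
    have hdisj : Disjoint (Set.toFinite (L \ {e})).toFinset (Set.toFinite (L' \ {e})).toFinset := by
      rw [Finset.disjoint_left]
      intro x hx hx'
      have h6 := (Set.Finite.mem_toFinset _).1 hx
      have h7 := (Set.Finite.mem_toFinset _).1 hx'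
      have h8 : x ∈ L ∩ L' := ⟨h6.1, h7.1⟩
      rw [hI] at h8
      exact h6.2 h8
    have heq : (Set.toFinite P).toFinset = insert e ((Set.toFinite (L \ {e})).toFinset ∪
        (Set.toFinite (L' \ {e})).toFinset) := by
      ext x
      rw [Set.Finite.mem_toFinset, Finset.mem_insert, Finset.mem_union, Set.Finite.mem_toFinset,
        Set.Finite.mem_toFinset, ← hU]
      constructor
      · intro hx
        by_cases hxe : x = e
        · exact Or.inl hxe
        · rcases hx with hx | hx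
          · exact Or.inr (Or.inl ⟨hx, hxe⟩)
          · exact Or.inr (Or.inr ⟨hx, hxe⟩)
      · rintro (rfl | hx | hx)
        · exact Or.inl (hL.2.2.1 rfl)
        · exact Or.inl hx.1
        · exact Or.inr hx.1
    have hnot : e ∉ (Set.toFinite (L \ {e})).toFinset ∪ (Set.toFinite (L' \ {e})).toFinset := by
      rw [Finset.mem_union, Set.Finite.mem_toFinset, Set.Finite.mem_toFinset]
      rintro (h | h)
      · exact h.2 rfl
      · exact h.2 rfl
    have hcA : (Set.toFinite (L \ {e})).toFinset.card = a := (Set.ncard_eq_toFinset_card _ _).symm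
    have hcA' : (Set.toFinite (L' \ {e})).toFinset.card = a' :=
      (Set.ncard_eq_toFinset_card _ _).symm
    have hcP : P.ncard = 1 + a + a' := by
      rw [hcard, heq, Finset.card_insert_of_notMem hnot, Finset.card_union_of_disjoint hdisj, hcA,
        hcA']
      omega
    let b : α → ℕ := fun x => if x = e then 2 else if x ∈ L then 1 + a' else 1 + a
    have hb : ∀ x ∈ (Set.toFinite P).toFinset, b x ≤ (M.Bet {x} P).ncard := by
      intro x hx
      have hxP := (Set.Finite.mem_toFinset _).1 hx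
      show (if x = e then 2 else if x ∈ L then 1 + a' else 1 + a) ≤ _
      split_ifs with h6 h7
      · exact hd2 x hxP
      · exact hge x ⟨h7, h6⟩
      · rw [← hU] at hxP
        exact hge' x ⟨hxP.resolve_left h7, h6⟩
    have hsb : ∑ x ∈ (Set.toFinite P).toFinset, b x = 2 + a * (1 + a') + a' * (1 + a) := by
      rw [heq, Finset.sum_insert hnot, Finset.sum_union hdisj]
      have h6 : ∑ x ∈ (Set.toFinite (L \ {e})).toFinset, b x = a * (1 + a') := by
        rw [Finset.sum_congr rfl (g := fun _ => 1 + a'), Finset.sum_const, hcA, smul_eq_mul]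
        intro x hx
        have h7 := (Set.Finite.mem_toFinset _).1 hx
        show (if x = e then 2 else if x ∈ L then 1 + a' else 1 + a) = _
        rw [if_neg (show ¬ x = e from h7.2), if_pos h7.1]
      have h8 : ∑ x ∈ (Set.toFinite (L' \ {e})).toFinset, b x = a' * (1 + a) := by
        rw [Finset.sum_congr rfl (g := fun _ => 1 + a), Finset.sum_const, hcA', smul_eq_mul]
        intro x hx
        have h7 := (Set.Finite.mem_toFinset _).1 hx
        have h9 : x ∉ L := by
          intro h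
          have h10 : x ∈ L ∩ L' := ⟨h, h7.1⟩
          rw [hI] at h10
          exact h7.2 h10
        show (if x = e then 2 else if x ∈ L then 1 + a' else 1 + a) = _
        rw [if_neg (show ¬ x = e from h7.2), if_neg h9]
      have h9 : b e = 2 := if_pos rfl
      rw [h6, h8, h9]
      ring
    by_cases h22 : a = 2 ∧ a' = 2
    · obtain ⟨h21, h22⟩ := h22
      have hLc : L.ncard = 3 := by
        have h6 := Set.ncard_sdiff_singleton_add_one (hL.2.2.1 rfl : e ∈ L) (Set.toFinite L)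
        omega
      have hLc' : L'.ncard = 3 := by
        have h6 := Set.ncard_sdiff_singleton_add_one (hL'.2.2.1 rfl : e ∈ L') (Set.toFinite L')
        omega
      have hF : P ∈ M.Five := ⟨hP, by omega, L, ⟨hL.1, hL.2.1, Set.empty_subset _, hL.2.2.2⟩, L',
        ⟨hL'.1, hL'.2.1, Set.empty_subset _, hL'.2.2.2⟩, hU, hLc, hLc'⟩
      rw [if_pos hF]
      rw [h21, h22] at hsb
      by_cases hR : ∃ e, P ∈ M.Rich {e}
      · obtain ⟨x, hx⟩ := hR
        obtain ⟨hx1, hx2⟩ := hrich x hx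
        have h6 : b x ≤ 3 := by
          show (if x = e then 2 else if x ∈ L then 1 + a' else 1 + a) ≤ 3
          split_ifs <;> omega
        have h7 := Finset.sum_lt_sum hb ⟨x, (Set.Finite.mem_toFinset _).2 hx1, by omega⟩
        rw [if_pos ⟨x, hx⟩]
        omega
      · have h6 := Finset.sum_le_sum hb
        rw [if_neg hR]
        omega
    · have h6 := Finset.sum_le_sum hb
      have h7 : 3 * (1 + a + a') + 1 ≤ 2 + a * (1 + a') + a' * (1 + a) := by
        obtain ⟨x, hx⟩ : ∃ x, a = 2 + x := ⟨a - 2, by omega⟩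
        obtain ⟨y, hy⟩ : ∃ y, a' = 2 + y := ⟨a' - 2, by omega⟩
        have h8 : 0 < x + y := by
          by_contra hc
          exact h22 ⟨by omega, by omega⟩
        rw [hx, hy]
        nlinarith [Nat.zero_le (x * y)]
      rw [hcP]
      split_ifs <;> omega

open Classical in
/-- If no hyperplane has a coloop, then there are many hyperplanes with five elements. -/
theorem five_ge [Finite α] (M : OM α) (hs : M.Simple) (hr : M.rank = 4) (hn : ¬ M.Flat) :
    6 * Nat.card α + 2 * {P | ∃ e, P ∈ M.Rich {e}}.ncard + {X | ∃ e, X ∈ M.Quad {e}}.ncard ≤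
      2 * M.Five.ncard := by
  have hre : ∀ e, M.rk {e} + 3 = M.rank := fun e => by rw [M.rk_one_of_simple hs, hr]
  set H := (Set.toFinite (M.Hy ∅)).toFinset with hH
  have h6 : {P | ∃ e, P ∈ M.Rich {e}}.ncard = ∑ P ∈ H, if ∃ e, P ∈ M.Rich {e} then 1 else 0 := by
    rw [← ncard_sum (M.Hy ∅) (fun P => ∃ e, P ∈ M.Rich {e})]
    congr 1
    ext P
    constructor
    · rintro ⟨e, h⟩
      exact ⟨⟨h.1.1, h.1.2.1, Set.empty_subset _⟩, e, h⟩
    · exact fun h => h.2
  have h7 : M.Five.ncard = ∑ P ∈ H, if P ∈ M.Five then 1 else 0 := by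
    rw [← ncard_sum (M.Hy ∅) (fun P => P ∈ M.Five)]
    congr 1
    ext P
    exact ⟨fun h => ⟨h.1, h⟩, fun h => h.2⟩
  have : Fintype α := Fintype.ofFinite α
  have hHe : ∀ e : α, (Set.toFinite (M.Hy {e})).toFinset = H.filter (fun P => e ∈ P) := by
    intro e
    ext P
    rw [Set.Finite.mem_toFinset, Finset.mem_filter, Set.Finite.mem_toFinset, hy_single]
    rfl
  have h1 : ∀ e ∈ (Finset.univ : Finset α), 6 + (2 * ∑ P ∈ H, (if e ∈ P then (M.Bet {e} P).ncard else 0)
      + (M.Quad {e}).ncard) ≤ 6 * ∑ P ∈ H, (if e ∈ P then 1 else 0) := by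
    intro e _
    have h2 := M.melF (M.cl_single hs e) (hre e)
    have h3 : (M.Hy {e}).ncard = ∑ P ∈ H, (if e ∈ P then 1 else 0) := by
      rw [hy_single]
      exact ncard_sum _ _
    rw [h3, hHe, Finset.sum_filter] at h2
    omega
  have h2 := Finset.sum_le_sum h1
  rw [Finset.sum_add_distrib, Finset.sum_const, Finset.card_univ, smul_eq_mul,
    Finset.sum_add_distrib, ← Finset.mul_sum, ← Finset.mul_sum, Finset.sum_comm, Finset.sum_comm (f := fun (e : α) (P : Set α) =>
      if e ∈ P then 1 else 0)] at h2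
  have h3 : ∀ P : Set α, ∑ e : α, (if e ∈ P then (M.Bet {e} P).ncard else 0) =
      ∑ e ∈ (Set.toFinite P).toFinset, (M.Bet {e} P).ncard := by
    intro P
    rw [← Finset.sum_filter]
    apply Finset.sum_congr _ fun _ _ => rfl
    ext x
    rw [Finset.mem_filter, Set.Finite.mem_toFinset]
    exact ⟨fun h => h.2, fun h => ⟨Finset.mem_univ x, h⟩⟩
  have h4 : ∀ P : Set α, ∑ e : α, (if e ∈ P then 1 else 0) = P.ncard := by
    intro P
    rw [← Finset.card_filter, Set.ncard_eq_toFinset_card P]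
    congr 1
    ext x
    rw [Finset.mem_filter, Set.Finite.mem_toFinset]
    exact ⟨fun h => h.2, fun h => ⟨Finset.mem_univ x, h⟩⟩
  rw [Finset.sum_congr rfl fun P _ => h3 P, Finset.sum_congr rfl fun P _ => h4 P] at h2
  have h5 := Finset.sum_le_sum fun P (hP : P ∈ H) =>
    M.plane_ineq hs hr hn ((Set.Finite.mem_toFinset _).1 hP)
  rw [Finset.sum_add_distrib, Finset.sum_add_distrib, ← Finset.mul_sum] at h5
  rw [← h6, ← h7] at h5
  have h8 : Nat.card α = Fintype.card α := Nat.card_eq_fintype_card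
  have h10 : {X | ∃ e, X ∈ M.Quad {e}}.ncard ≤ ∑ e : α, (M.Quad {e}).ncard := by
    have h11 : {X | ∃ e, X ∈ M.Quad {e}} = ⋃ e : α, M.Quad {e} := by
      ext X
      simp
    rw [h11]
    exact Set.ncard_iUnion_le_of_fintype _
  have h9 : H.sum Set.ncard = ∑ i ∈ H, i.ncard := rfl
  rw [h8]
  omega

theorem few_murty [Finite α] (M : OM α) (hs : M.Simple)
    (h : (∃ F, M.cl F = F ∧ M.rk F + 3 = M.rank ∧
        2 * (M.Crossed F).ncard < 6 + 2 * (M.Rich F).ncard + (M.Quad F).ncard) ∨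
      (M.rank = 4 ∧ 2 * M.Five.ncard < 6 * Nat.card α + 2 * {P | ∃ e, P ∈ M.Rich {e}}.ncard +
        {X | ∃ e, X ∈ M.Quad {e}}.ncard)) :
    M.Murty := by
  refine M.murty_of_flat hs ?_
  by_contra hn
  rcases h with ⟨F, hF, hr, h⟩ | ⟨hr, h⟩
  · have := M.crossed_ge hF hr hn
    omega
  · have := M.five_ge hs hr hn
    omega

end OM

end MUR
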