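import Pool.Agent.MUR.Defs

/-!
Definitions for the counting result on Murty's conjecture.
-/

namespace MUR

universe u

namespace OM

variable {α : Type u}

/-- The flats of corank two between `F` and `P`. -/
def Bet (M : OM α) (F P : Set α) : Set (Set α) :=
  {L | M.cl L = L ∧ M.rk L + 2 = M.rank ∧ F ⊆ L ∧ L ⊆ P}

/-- The hyperplanes containing `F`. -/
def Hy (M : OM α) (F : Set α) : Set (Set α) :=
  {P | M.cl P = P ∧ M.rk P + 1 = M.rank ∧ F ⊆ P}

/-- The hyperplanes which are the union of two flats of corank two with intersection `F`, both with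
at least two elements off `F`. -/
def Crossed (M : OM α) (F : Set α) : Set (Set α) :=
  {P | P ∈ M.Hy F ∧ ∃ L ∈ M.Bet F P, ∃ L' ∈ M.Bet F P, L ∪ L' = P ∧ L ∩ L' = F ∧
    2 ≤ (L \ F).ncard ∧ 2 ≤ (L' \ F).ncard}

/-- The hyperplanes containing `F` with at least four flats of corank two in between. -/
def Rich (M : OM α) (F : Set α) : Set (Set α) := {P | P ∈ M.Hy F ∧ 4 ≤ (M.Bet F P).ncard}

/-- The covectors with zero set `F` which have at least four faces whose zero set has corank two. -/
def Quad (M : OM α) (F : Set α) : Set (α → SignType) :=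
  {X | X ∈ M.cov ∧ zs X = F ∧
    4 ≤ {Y | Y ∈ M.cov ∧ (∀ a, Y a = 0 ∨ Y a = X a) ∧ M.rk (zs Y) + 2 = M.rank}.ncard}

/-- The hyperplanes with exactly five elements which are the union of two flats of corank two with
three elements each (used in rank four: two lines with three points and a common point). -/
def Five (M : OM α) : Set (Set α) :=
  {P | P ∈ M.Hy ∅ ∧ P.ncard = 5 ∧ ∃ L ∈ M.Bet ∅ P, ∃ L' ∈ M.Bet ∅ P, L ∪ L' = P ∧
    L.ncard = 3 ∧ L'.ncard = 3}

end OM

end MUR
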