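import Pool.Agent.MUR.MLC
import Pool.Agent.MUR.FCRDefs

/-!
Melchior's inequality for contractions of corank three.
-/

namespace MUR

universe u v

namespace OM

variable {α : Type u}

theorem cl_insert_bet [Finite α] (M : OM α) {F L : Set α} (hr : M.rk F + 3 = M.rank)
    (hF : M.cl F = F) (hL : M.cl L = L) (hLr : M.rk L + 2 = M.rank) (hFL : F ⊆ L) {x : α}
    (hx : x ∈ L) (hxF : x ∉ F) : M.cl (insert x F) = L := by
  have h1 : insert x F ⊆ L := Set.insert_subset hx hFL
  apply Set.Subset.antisymm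
  · have := M.cl_mono h1
    rwa [hL] at this
  · refine M.sub_cl_of_rk h1 ?_
    rw [M.rk_insert_not (by rwa [hF])]
    omega

theorem bet_mem [Finite α] (M : OM α) {F P : Set α} (hr : M.rk F + 3 = M.rank)
    (hF : M.cl F = F) (hP : P ∈ M.Hy F) {x : α} (hx : x ∈ P) (hxF : x ∉ F) :
    M.cl (insert x F) ∈ M.Bet F P := by
  refine ⟨M.cl_cl _, ?_, (Set.subset_insert _ _).trans (M.subset_cl _), ?_⟩
  · rw [M.rk_cl, M.rk_insert_not (by rwa [hF])]
    omega
  · have h1 : insert x F ⊆ P := Set.insert_subset hx hP.2.2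
    have := M.cl_mono h1
    rwa [hP.1] at this

theorem exists_notMem_of_rk [Finite α] (M : OM α) {A B : Set α} (h : M.rk A < M.rk B) :
    ∃ x ∈ B, x ∉ A := by
  by_contra hc
  push Not at hc
  have := M.rk_mono hc
  omega

theorem two_le_bet [Finite α] (M : OM α) {F P : Set α} (hr : M.rk F + 3 = M.rank)
    (hF : M.cl F = F) (hP : P ∈ M.Hy F) :
    ∃ x ∈ P, ∃ y ∈ P, x ∉ F ∧ y ∉ F ∧ M.cl (insert x F) ≠ M.cl (insert y F) := by
  have h1 := hP.2.1
  obtain ⟨x, hx, hxF⟩ := M.exists_notMem_of_rk (A := F) (B := P) (by omega)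
  have h2 := M.bet_mem hr hF hP hx hxF
  have h3 := h2.2.1
  obtain ⟨y, hy, hyF⟩ := M.exists_notMem_of_rk (A := M.cl (insert x F)) (B := P) (by omega)
  refine ⟨x, hx, y, hy, hxF, fun h => hyF (h2.2.2.1 h), fun h => hyF ?_⟩
  rw [h]
  exact M.subset_cl _ (Set.mem_insert _ _)

open Classical in
/-- Melchior's inequality for the contraction of a flat of corank three. -/
theorem melF [Finite α] (M : OM α) {F : Set α} (hF : M.cl F = F) (hr : M.rk F + 3 = M.rank) :
    6 + 2 * ∑ P ∈ (Set.toFinite (M.Hy F)).toFinset, (M.Bet F P).ncard + (M.Quad F).ncard ≤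
      6 * (M.Hy F).ncard := by
  let B : Type u := {L : Set α // M.cl L = L ∧ M.rk L + 2 = M.rank ∧ F ⊆ L}
  have hB : Finite B := Subtype.finite
  have hex : ∀ L : B, ∃ x, x ∈ L.1 ∧ x ∉ F := by
    intro L
    have h1 := L.2.2.1
    obtain ⟨x, hx, hxF⟩ := M.exists_notMem_of_rk (A := F) (B := L.1) (by omega)
    exact ⟨x, hx, hxF⟩
  choose i hi hiF using hex
  have hcl : ∀ L : B, M.cl (insert (i L) F) = L.1 := fun L =>
    M.cl_insert_bet hr hF L.2.1 L.2.2.1 L.2.2.2 (hi L) (hiF L)
  have hiL : ∀ (L : B) (P : Set α), M.cl P = P → F ⊆ P → (i L ∈ P ↔ L.1 ⊆ P) := by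
    intro L P hP hFP
    constructor
    · intro h
      have := M.cl_mono (Set.insert_subset h hFP)
      rwa [hcl, hP] at this
    · exact fun h => h (hi L)
  set N : OM B := M.minor i F with hN
  have hsimple : N.Simple := by
    constructor
    · intro L
      obtain ⟨X, hX, h0, h1⟩ := M.not_mem_cl (A := F) (x := i L) (by rw [hF]; exact hiF L)
      exact ⟨fun b => X (i b), ⟨X, hX, h0, rfl⟩, h1⟩
    · intro L L' hne
      have h1 : i L' ∉ M.cl (insert (i L) F) := by
        rw [hcl, hiL L' L.1 L.2.1 L.2.2.2]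
        intro h
        apply hne
        apply Subtype.ext
        have h2 := M.sub_cl_of_rk h (by have := L.2.2.1; have := L'.2.2.1; omega)
        rw [L'.2.1] at h2
        exact Set.Subset.antisymm h2 h
      obtain ⟨X, hX, h0, h2⟩ := M.not_mem_cl h1
      exact ⟨fun b => X (i b), ⟨X, hX, fun a ha => h0 a (Or.inr ha), rfl⟩, h0 _ (Or.inl rfl), h2⟩
  have hspan : M.rk (Set.range i ∪ F) = M.rank := by
    rw [← M.rk_cl]
    have : M.cl (Set.range i ∪ F) = Set.univ := by
      apply Set.eq_univ_of_forall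
      intro x
      by_cases hx : x ∈ F
      · exact M.subset_cl _ (Or.inr hx)
      · let L : B := ⟨M.cl (insert x F), M.cl_cl _, by
          rw [M.rk_cl, M.rk_insert_not (by rwa [hF])]
          omega, (Set.subset_insert _ _).trans (M.subset_cl _)⟩
        have h1 : x ∈ L.1 := M.subset_cl _ (Set.mem_insert _ _)
        rw [← hcl L] at h1
        exact M.cl_mono (Set.insert_subset (Or.inl ⟨L, rfl⟩) Set.subset_union_right) h1
    rw [this]
    rfl
  have hrank : N.rank = 3 := by
    have h1 : N.rank + M.rk F = M.rank := (M.rank_minor i F).trans hspan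
    omega
  let Φ : Set α → Set B := fun P => {L | L.1 ⊆ P}
  have hΦcl : ∀ L1 L2 : B, N.cl {L1, L2} = Φ (M.cl (i '' {L1, L2} ∪ F)) := by
    intro L1 L2
    rw [hN, M.cl_minor]
    ext L
    exact hiL L _ (M.cl_cl _) ((Set.subset_union_right).trans (M.subset_cl _))
  have hrk2 : ∀ L1 L2 : B, L1 ≠ L2 → M.rk (M.cl (i '' {L1, L2} ∪ F)) + 1 = M.rank := by
    intro L1 L2 hne
    have h1 := M.rk_minor i F {L1, L2}
    have h2 : (M.minor i F).rk {L1, L2} = 2 := N.rk_two_of_simple hsimple hne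
    rw [M.rk_cl]
    omega
  have hlin : N.lin = Φ '' M.Hy F := by
    ext ℓ
    constructor
    · rintro ⟨L1, L2, hne, rfl⟩
      exact ⟨_, ⟨M.cl_cl _, hrk2 L1 L2 hne, (Set.subset_union_right).trans (M.subset_cl _)⟩,
        (hΦcl L1 L2).symm⟩
    · rintro ⟨P, hP, rfl⟩
      obtain ⟨x, hx, y, hy, hxF, hyF, hne⟩ := M.two_le_bet hr hF hP
      have hx' := M.bet_mem hr hF hP hx hxF
      have hy' := M.bet_mem hr hF hP hy hyF
      let L1 : B := ⟨M.cl (insert x F), hx'.1, hx'.2.1, hx'.2.2.1⟩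
      let L2 : B := ⟨M.cl (insert y F), hy'.1, hy'.2.1, hy'.2.2.1⟩
      have h12 : L1 ≠ L2 := fun h => hne (congrArg Subtype.val h)
      refine ⟨L1, L2, h12, ?_⟩
      rw [hΦcl]
      congr 1
      have h3 : i '' {L1, L2} ∪ F ⊆ P := by
        apply Set.union_subset _ hP.2.2
        rintro _ ⟨L, rfl | rfl, rfl⟩
        · exact hx'.2.2.2 (hi L1)
        · exact hy'.2.2.2 (hi L2)
      apply Set.Subset.antisymm
      · refine M.sub_cl_of_rk h3 ?_
        have h4 := hrk2 L1 L2 h12
        rw [M.rk_cl] at h4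
        have h5 := hP.2.1
        omega
      · have := M.cl_mono h3
        rwa [hP.1] at this
  have hinj : Set.InjOn Φ (M.Hy F) := by
    have key : ∀ P ∈ M.Hy F, ∀ P' ∈ M.Hy F, Φ P = Φ P' → P ⊆ P' := by
      intro P hP P' hP' h x hx
      by_cases hxF : x ∈ F
      · exact hP'.2.2 hxF
      · have h1 := M.bet_mem hr hF hP hx hxF
        have h2 : (⟨M.cl (insert x F), h1.1, h1.2.1, h1.2.2.1⟩ : B) ∈ Φ P := h1.2.2.2
        rw [h] at h2
        exact h2 (M.subset_cl _ (Set.mem_insert _ _))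
    intro P hP P' hP' h
    exact Set.Subset.antisymm (key P hP P' hP' h) (key P' hP' P hP h.symm)
  have hcard : ∀ P, (Φ P).ncard = (M.Bet F P).ncard := by
    intro P
    rw [← Set.ncard_image_of_injective (Φ P) Subtype.val_injective]
    congr 1
    ext L
    constructor
    · rintro ⟨L, hL, rfl⟩
      exact ⟨L.2.1, L.2.2.1, L.2.2.2, hL⟩
    · rintro ⟨h1, h2, h3, h4⟩
      exact ⟨⟨L, h1, h2, h3⟩, h4, rfl⟩
  -- covectors with zero set `F` and topes of the contraction
  have hpar : ∀ X ∈ M.cov, ∀ X' ∈ M.cov, zs X = F → zs X' = F → (∀ L : B, X (i L) = X' (i L)) →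
      X = X' := by
    intro X hX X' hX' h0 h0' h
    funext x
    have hz : ∀ W : α → SignType, zs W = F → (W x = 0 ↔ x ∈ F) := by
      intro W hW
      rw [← hW]
      rfl
    by_cases hxF : x ∈ F
    · rw [(hz X h0).2 hxF, (hz X' h0').2 hxF]
    · by_contra hne
      have hx0 : X x ≠ 0 := fun h => hxF ((hz X h0).1 h)
      have hx0' : X' x ≠ 0 := fun h => hxF ((hz X' h0').1 h)
      obtain ⟨Z, hZ, hZx, -, -, hZ3, -⟩ := M.elim' hX hX' hx0 (by
        revert hne hx0 hx0'
        generalize X x = s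
        generalize X' x = t
        revert s t
        decide)
      let L : B := ⟨M.cl (insert x F), M.cl_cl _, by
        rw [M.rk_cl, M.rk_insert_not (by rwa [hF])]
        omega, (Set.subset_insert _ _).trans (M.subset_cl _)⟩
      have h1 : i L ∈ M.cl (insert x F) := hi L
      have h2 : Z (i L) = 0 := by
        refine h1 Z hZ ?_
        rintro a (rfl | ha)
        · exact hZx
        · have e1 : X a = 0 := by
            have : a ∈ zs X := by rw [h0]; exact ha
            exact this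
          have e2 : X' a = 0 := by
            have : a ∈ zs X' := by rw [h0']; exact ha
            exact this
          rw [hZ3 a (by rw [e1, e2]), e1]
      rw [hZ3 _ (h L)] at h2
      apply hiF L
      rw [← h0]
      exact h2
  have hquad : (M.Quad F).ncard ≤ {T | T ∈ N.Pat ∅ Set.univ ∧ 4 ≤ (N.Wal T).ncard}.ncard := by
    refine Set.ncard_le_ncard_of_injOn (fun X b => X (i b)) ?_ ?_ (Set.toFinite _)
    · rintro X ⟨hX, h0, h4⟩
      have hXi : ∀ L : B, X (i L) ≠ 0 := by
        intro L h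
        apply hiF L
        rw [← h0]
        exact h
      have hXN : (fun b => X (i b)) ∈ N.cov := by
        refine ⟨X, hX, fun a ha => ?_, rfl⟩
        have : a ∈ zs X := by rw [h0]; exact ha
        exact this
      refine ⟨⟨fun L hL => absurd (Set.mem_univ L) hL, fun L _ => hXi L, _, hXN,
        fun a ha => absurd ha (Set.notMem_empty a), fun _ _ => rfl⟩, h4.trans ?_⟩
      have hYF : ∀ Y : α → SignType, (∀ a, Y a = 0 ∨ Y a = X a) → F ⊆ zs Y := by
        intro Y hY a ha
        have e1 : X a = 0 := by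
          have : a ∈ zs X := by rw [h0]; exact ha
          exact this
        rcases hY a with h | h
        · exact h
        · exact h.trans e1
      -- a face gives a wall
      have hw : ∀ Y : α → SignType, Y ∈ M.cov ∧ (∀ a, Y a = 0 ∨ Y a = X a) ∧
          M.rk (zs Y) + 2 = M.rank → ∃ L : B, L.1 = zs Y ∧ L ∈ N.Wal (fun b => X (i b)) := by
        rintro Y ⟨hY, hYX, hYr⟩
        let L : B := ⟨zs Y, M.cl_zs hY, hYr, hYF Y hYX⟩
        refine ⟨L, rfl, fun b => Y (i b), ⟨Y, hY, fun a ha => hYF Y hYX ha, rfl⟩, hi L, ?_⟩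
        intro L' hne
        refine (hYX (i L')).resolve_left fun h => hne ?_
        apply Subtype.ext
        have h5 : L'.1 ⊆ zs Y := (hiL L' (zs Y) (M.cl_zs hY) (hYF Y hYX)).1 h
        have h6 := M.sub_cl_of_rk h5 (by have := L'.2.2.1; omega)
        rw [L'.2.1] at h6
        exact Set.Subset.antisymm h5 h6
      rw [← Set.ncard_image_of_injective (N.Wal fun b => X (i b)) Subtype.val_injective]
      refine Set.ncard_le_ncard_of_injOn zs ?_ ?_ (Set.toFinite _)
      · intro Y hY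
        obtain ⟨L, h7, h8⟩ := hw Y hY
        exact ⟨L, h8, h7⟩
      intro Y hY Y' hY' h7
      funext a
      by_cases ha : Y a = 0
      · have : a ∈ zs Y' := by rw [← h7]; exact ha
        rw [ha]
        exact this.symm
      · have ha' : Y' a ≠ 0 := by
          intro h8
          have : a ∈ zs Y := by rw [h7]; exact h8
          exact ha this
        rw [(hY.2.1 a).resolve_left ha, (hY'.2.1 a).resolve_left ha']
    · rintro X ⟨hX, h0, -⟩ X' ⟨hX', h0', -⟩ h
      exact hpar X hX X' hX' h0 h0' fun L => congrFun h L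
  have hmel := N.melchior hsimple hrank
  have h1 : (Set.toFinite N.lin).toFinset = (Set.toFinite (M.Hy F)).toFinset.image Φ := by
    ext ℓ
    rw [Set.Finite.mem_toFinset, Finset.mem_image, hlin]
    constructor
    · rintro ⟨P, hP, rfl⟩
      exact ⟨P, (Set.Finite.mem_toFinset _).2 hP, rfl⟩
    · rintro ⟨P, hP, rfl⟩
      exact ⟨P, (Set.Finite.mem_toFinset _).1 hP, rfl⟩
  rw [h1, Finset.sum_image (fun P hP P' hP' h => hinj ((Set.Finite.mem_toFinset _).1 hP)
    ((Set.Finite.mem_toFinset _).1 hP') h), Finset.sum_congr rfl fun P _ => hcard P, hlin,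
    hinj.ncard_image] at hmel
  omega

/-- A hyperplane with two flats of corank two over `F`. -/
theorem bet_two [Finite α] (M : OM α) {F P : Set α} (hF : M.cl F = F)
    (hr : M.rk F + 3 = M.rank) (hP : P ∈ M.Hy F) (h2 : (M.Bet F P).ncard = 2) :
    ∃ L ∈ M.Bet F P, ∃ L' ∈ M.Bet F P, L ∪ L' = P ∧ L ∩ L' = F := by
  obtain ⟨L, L', hne, hLL⟩ := Set.ncard_eq_two.1 h2
  have hL : L ∈ M.Bet F P := by rw [hLL]; exact Or.inl rfl
  have hL' : L' ∈ M.Bet F P := by rw [hLL]; exact Or.inr rfl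
  refine ⟨L, hL, L', hL', ?_, ?_⟩
  · apply Set.Subset.antisymm (Set.union_subset hL.2.2.2 hL'.2.2.2)
    intro x hx
    by_cases hxF : x ∈ F
    · exact Or.inl (hL.2.2.1 hxF)
    · have h3 := M.bet_mem hr hF hP hx hxF
      have h4 : x ∈ M.cl (insert x F) := M.subset_cl _ (Set.mem_insert _ _)
      rw [hLL] at h3
      rcases h3 with h3 | h3
      · exact Or.inl (h3 ▸ h4)
      · exact Or.inr (h3 ▸ h4)
  · apply Set.Subset.antisymm _ (Set.subset_inter hL.2.2.1 hL'.2.2.1)
    rintro x ⟨hx, hx'⟩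
    by_contra hxF
    apply hne
    rw [← M.cl_insert_bet hr hF hL.1 hL.2.1 hL.2.2.1 hx hxF]
    exact M.cl_insert_bet hr hF hL'.1 hL'.2.1 hL'.2.2.1 hx' hxF

/-- If `P = L ∪ L'` and `L` has only one element off `F`, this element is a coloop of `P`. -/
theorem flat_of_one [Finite α] (M : OM α) {F P L L' : Set α} (hr : M.rk F + 3 = M.rank)
    (hP : P ∈ M.Hy F) (hL : L ∈ M.Bet F P) (hL' : L' ∈ M.Bet F P) (h1 : L ∪ L' = P)
    (h2 : L ∩ L' = F) (h3 : (L \ F).ncard < 2) : M.Flat := by
  have hLr := hL.2.1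
  obtain ⟨x, hx, hxF⟩ := M.exists_notMem_of_rk (A := F) (B := L) (by omega)
  have h4 : L \ F = {x} := by
    have h5 : ({x} : Set α) ⊆ L \ F := Set.singleton_subset_iff.2 ⟨hx, hxF⟩
    refine (Set.eq_of_subset_of_ncard_le h5 ?_ (Set.toFinite _)).symm
    rw [Set.ncard_singleton]
    omega
  obtain ⟨Y, hY, hYP⟩ := M.flat_eq_zs hP.1
  refine ⟨L', x, Y, ?_, hY, ?_, hL'.1, hL'.2.1⟩
  · intro hx'
    exact hxF (h2 ▸ ⟨hx, hx'⟩)
  · intro e
    have h5 : Y e = 0 ↔ e ∈ P := by
      rw [← hYP]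
      rfl
    rw [h5, ← h1]
    constructor
    · rintro (he | he)
      · by_cases heF : e ∈ F
        · exact Or.inr (hL'.2.2.1 heF)
        · have : e ∈ L \ F := ⟨he, heF⟩
          rw [h4] at this
          exact Or.inl this
      · exact Or.inr he
    · rintro (rfl | he)
      · exact Or.inl hx
      · exact Or.inr he

theorem crossed_of_two [Finite α] (M : OM α) {F P : Set α} (hF : M.cl F = F)
    (hr : M.rk F + 3 = M.rank) (hP : P ∈ M.Hy F) (h2 : (M.Bet F P).ncard = 2) (hn : ¬ M.Flat) :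
    P ∈ M.Crossed F := by
  obtain ⟨L, hL, L', hL', h3, h4⟩ := M.bet_two hF hr hP h2
  refine ⟨hP, L, hL, L', hL', h3, h4, ?_, ?_⟩
  · by_contra hc
    exact hn (M.flat_of_one hr hP hL hL' h3 h4 (by omega))
  · by_contra hc
    exact hn (M.flat_of_one hr hP hL' hL (by rwa [Set.union_comm]) (by rwa [Set.inter_comm])
      (by omega))

theorem two_le_ncard_bet [Finite α] (M : OM α) {F P : Set α} (hF : M.cl F = F)
    (hr : M.rk F + 3 = M.rank) (hP : P ∈ M.Hy F) : 2 ≤ (M.Bet F P).ncard := by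
  obtain ⟨x, hx, y, hy, hxF, hyF, hne⟩ := M.two_le_bet hr hF hP
  rw [← Set.ncard_pair hne]
  exact Set.ncard_le_ncard (Set.insert_subset (M.bet_mem hr hF hP hx hxF)
    (Set.singleton_subset_iff.2 (M.bet_mem hr hF hP hy hyF))) (Set.toFinite _)

open Classical in
/-- If no hyperplane has a coloop, then every flat of corank three has many crossed hyperplanes. -/
theorem crossed_ge [Finite α] (M : OM α) {F : Set α} (hF : M.cl F = F)
    (hr : M.rk F + 3 = M.rank) (hn : ¬ M.Flat) :
    6 + 2 * (M.Rich F).ncard + (M.Quad F).ncard ≤ 2 * (M.Crossed F).ncard := by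
  have h1 := M.melF hF hr
  set H := (Set.toFinite (M.Hy F)).toFinset with hH
  have hcH : (M.Hy F).ncard = H.card := Set.ncard_eq_toFinset_card _ _
  have hR : (M.Rich F).ncard = ∑ P ∈ H, if 4 ≤ (M.Bet F P).ncard then 1 else 0 :=
    ncard_sum (M.Hy F) (fun P => 4 ≤ (M.Bet F P).ncard)
  have hC : ∑ P ∈ H, (if P ∈ M.Crossed F then 1 else 0) = (M.Crossed F).ncard := by
    rw [← ncard_sum (M.Hy F) (fun P => P ∈ M.Crossed F)]
    congr 1
    ext P
    exact ⟨fun h => h.2, fun h => ⟨h.1, h⟩⟩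
  have h2 : ∑ P ∈ H, (3 + if 4 ≤ (M.Bet F P).ncard then 1 else 0) ≤
      ∑ P ∈ H, ((M.Bet F P).ncard + if P ∈ M.Crossed F then 1 else 0) := by
    apply Finset.sum_le_sum
    intro P hP
    have hP' : P ∈ M.Hy F := (Set.Finite.mem_toFinset _).1 hP
    have h3 := M.two_le_ncard_bet hF hr hP'
    rcases Nat.lt_or_ge (M.Bet F P).ncard 3 with h4 | h4
    · have h5 := M.crossed_of_two hF hr hP' (by omega) hn
      rw [if_pos h5, if_neg (by omega)]
      omega
    · split_ifs <;> omega
  rw [Finset.sum_add_distrib, Finset.sum_add_distrib, ← hR, hC, Finset.sum_const, smul_eq_mul] at h2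
  rw [hcH] at h1
  omega

end OM

end MUR
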