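import Pool.Agent.MUR.RKC
import Pool.Agent.MUR.RKM

/-!
A good pair in a quotient gives a good pair. (80 lines)

Data in the quotient N := M.minor val A: F', b', a', c', X', Y'. Lift X, Y (covectors of M vanishing on A). F1 := val '' F', F := F1 ∪ A, b := b'.val.
f ∉ F1 (Y' is 1 at f', so f' ∉ F'), f ∉ A (Y = 0 on A, Y f = 1). Zero set of Y: x ∈ A, or x ∈ B with Y' x' = 0: this is insert b F.
cl F = F: x ∈ cl F: x ∈ A; or x ∈ B and then x' is in the closure of F' in N (`cl_minor`), which is F'; x = f is impossible since Y f = 1.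
b ∉ F: b' ∉ F', and b ∈ A would make b' a loop of N, so b' ∈ cl F' = F'. Ranks: `rk_minor`, `rank_minor` (range val ∪ A = univ).
-/

namespace MUR

universe u v

namespace OM

variable {α : Type u} {β : Type v}

theorem good_quot [Finite α] (M : OM α) {f : α} (B A : Set α)
    (hcov : ∀ x, x = f ∨ x ∈ B ∨ x ∈ A)
    (h : (M.minor (fun x : {x : α // x = f ∨ x ∈ B} => x.1) A).Good ⟨f, Or.inl rfl⟩) :
    M.Good f := by
  obtain ⟨F', b', a', c', X', Y', hb', hcl', hrk', hV', hz', hX', hXf', hXF', hXa', hXaY', hXc',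
    hXcY'⟩ := h
  obtain ⟨hY', hYf', hYrk'⟩ := hV'
  obtain ⟨X, hX, hXA, rfl⟩ := hX'
  obtain ⟨Y, hY, hYA, rfl⟩ := hY'
  have hYf : Y f = 1 := hYf'
  have hYf0 : Y f ≠ 0 := by rw [hYf]; decide
  have hF0 : ∀ e ∈ Subtype.val '' F' ∪ A, Y e = 0 := by
    rintro e (⟨x, hx, rfl⟩ | he)
    · exact (hz' x).2 (Or.inr hx)
    · exact hYA e he
  have hz : ∀ e, Y e = 0 ↔ e ∈ insert b'.1 (Subtype.val '' F' ∪ A) := by
    intro e
    constructor
    · intro he
      rcases hcov e with rfl | hB | hA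
      · exact absurd he hYf0
      · have h1 : (⟨e, Or.inr hB⟩ : {x : α // x = f ∨ x ∈ B}) ∈ insert b' F' :=
          (hz' ⟨e, Or.inr hB⟩).1 he
        rcases h1 with h1 | h1
        · left
          rw [← h1]
        · exact Or.inr (Or.inl ⟨_, h1, rfl⟩)
      · exact Or.inr (Or.inr hA)
    · rintro (rfl | he)
      · exact (hz' b').2 (Or.inl rfl)
      · exact hF0 e he
  have hcl : M.cl (Subtype.val '' F' ∪ A) = Subtype.val '' F' ∪ A := by
    apply Set.Subset.antisymm _ (M.subset_cl _)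
    intro x hx
    rcases hcov x with rfl | hB | hA
    · exact absurd (hx Y hY hF0) hYf0
    · left
      have h1 : (⟨x, Or.inr hB⟩ : {x : α // x = f ∨ x ∈ B}) ∈
          (M.minor (fun x : {x : α // x = f ∨ x ∈ B} => x.1) A).cl F' := by
        rw [M.cl_minor]
        exact hx
      rw [hcl'] at h1
      exact ⟨_, h1, rfl⟩
    · exact Or.inr hA
  have hb : b'.1 ∉ Subtype.val '' F' ∪ A := by
    rintro (⟨x, hx, hxb⟩ | hA)
    · apply hb'
      rw [← Subtype.ext hxb]
      exact hx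
    · apply hb'
      rw [← hcl', M.cl_minor]
      exact M.subset_cl _ (Or.inr hA)
  have hrank := M.rank_minor (fun x : {x : α // x = f ∨ x ∈ B} => x.1) A
  have huniv : Set.range (fun x : {x : α // x = f ∨ x ∈ B} => x.1) ∪ A = Set.univ := by
    rw [Set.eq_univ_iff_forall]
    intro x
    rcases hcov x with h1 | h1 | h1
    · exact Or.inl ⟨⟨x, Or.inl h1⟩, rfl⟩
    · exact Or.inl ⟨⟨x, Or.inr h1⟩, rfl⟩
    · exact Or.inr h1
  rw [huniv] at hrank
  have hru : M.rk Set.univ = M.rank := rfl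
  rw [hru] at hrank
  have hrF := M.rk_minor (fun x : {x : α // x = f ∨ x ∈ B} => x.1) A F'
  have hrZ := M.rk_minor (fun x : {x : α // x = f ∨ x ∈ B} => x.1) A
    (zs fun b : {x : α // x = f ∨ x ∈ B} => Y b.1)
  have hzs : (fun x : {x : α // x = f ∨ x ∈ B} => x.1) ''
      (zs fun b : {x : α // x = f ∨ x ∈ B} => Y b.1) ∪ A = zs Y := by
    ext x
    constructor
    · rintro (⟨y, hy, rfl⟩ | hA)
      · exact hy
      · exact hYA x hA
    · intro hx
      rcases hcov x with h1 | h1 | h1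
      · exact Or.inl ⟨⟨x, Or.inl h1⟩, hx, rfl⟩
      · exact Or.inl ⟨⟨x, Or.inr h1⟩, hx, rfl⟩
      · exact Or.inr h1
  rw [hzs] at hrZ
  refine ⟨Subtype.val '' F' ∪ A, b'.1, a'.1, c'.1, X, Y, hb, hcl, ?_, ⟨hY, hYf, ?_⟩, hz, hX, hXf',
    ?_, hXa', hXaY', hXc', hXcY'⟩
  · have : M.rk (Subtype.val '' F' ∪ A) = M.rk ((fun x : {x : α // x = f ∨ x ∈ B} => x.1) ''
        F' ∪ A) := rfl
    omega
  · have h5 : (M.minor (fun x : {x : α // x = f ∨ x ∈ B} => x.1) A).rk
        (zs fun b : {x : α // x = f ∨ x ∈ B} => Y b.1) + 1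
        = (M.minor (fun x : {x : α // x = f ∨ x ∈ B} => x.1) A).rank := hYrk'
    omega
  · rintro g (⟨x, hx, rfl⟩ | hA)
    · exact hXF' x hx
    · exact hXA g hA

end OM

end MUR
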