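import Pool.Agent.MUR.PAT

/-!
Melchior's inequality for simple oriented matroids of rank three.

The number of topes is `2 + 2 ∑ (|ℓ| - 1)`, every element `e` lies on at most `4 #{ℓ ∋ e}` pairs
(tope, wall), and every tope has at least three walls.
-/

namespace MUR

universe u v

namespace OM

variable {β : Type v}

theorem rk_one_of_simple [Finite β] (N : OM β) (hs : N.Simple) (a : β) : N.rk {a} = 1 := by
  have h1 : a ∉ N.cl ∅ := by
    intro h
    obtain ⟨X, hX, hXa⟩ := hs.1 a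
    exact hXa (h X hX fun b hb => absurd hb (Set.notMem_empty b))
  have h2 := N.rk_insert_not h1
  rwa [N.rk_empty, insert_empty_eq] at h2

theorem notMem_cl_single (N : OM β) (hs : N.Simple) {a b : β} (h : a ≠ b) : b ∉ N.cl {a} := by
  intro hc
  obtain ⟨X, hX, hXa, hXb⟩ := hs.2 a b h
  exact hXb (hc X hX fun c hc => by rw [Set.mem_singleton_iff.1 hc]; exact hXa)

theorem cl_single (N : OM β) (hs : N.Simple) (a : β) : N.cl {a} = {a} := by
  apply Set.Subset.antisymm _ (N.subset_cl _)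
  intro b hb
  by_contra h
  exact N.notMem_cl_single hs (fun hab => h hab.symm) hb

theorem rk_two_of_simple [Finite β] (N : OM β) (hs : N.Simple) {a b : β} (h : a ≠ b) :
    N.rk {a, b} = 2 := by
  have h1 := N.rk_insert_not (N.notMem_cl_single hs h.symm)
  rwa [N.rk_one_of_simple hs] at h1

theorem rk_le_ncard [Finite β] (N : OM β) (S : Set β) : N.rk S ≤ S.ncard := by
  induction S, S.toFinite using Set.Finite.induction_on with
  | empty => rw [N.rk_empty]; exact Nat.zero_le _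
  | @insert e S he _ ih =>
    rw [Set.ncard_insert_of_notMem he]
    have := N.rk_insert_le S e
    omega

/-- Lines. -/
def lin (N : OM β) : Set (Set β) := {ℓ | ∃ e f, e ≠ f ∧ ℓ = N.cl {e, f}}

theorem lin_eq [Finite β] (N : OM β) (hs : N.Simple) {ℓ : Set β} (hℓ : ℓ ∈ N.lin) {e f : β}
    (he : e ∈ ℓ) (hf : f ∈ ℓ) (hef : e ≠ f) : ℓ = N.cl {e, f} := by
  obtain ⟨a, b, hab, rfl⟩ := hℓ
  apply Set.Subset.antisymm
  · refine N.sub_cl_of_rk (Set.insert_subset he (Set.singleton_subset_iff.2 hf)) ?_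
    rw [N.rk_cl, N.rk_two_of_simple hs hab, N.rk_two_of_simple hs hef]
  · exact N.cl_subset_of (Set.insert_subset he (Set.singleton_subset_iff.2 hf))

theorem two_le_lin [Finite β] (N : OM β) {ℓ : Set β} (hℓ : ℓ ∈ N.lin) : 2 ≤ ℓ.ncard := by
  obtain ⟨a, b, hab, rfl⟩ := hℓ
  rw [← Set.ncard_pair hab]
  exact Set.ncard_le_ncard (N.subset_cl _) (Set.toFinite _)

theorem lin_through [Finite β] (N : OM β) (hs : N.Simple) {e : β} {S : Set β} (he : e ∉ S) :
    (fun f => N.cl (insert f {e})) '' S = {ℓ | ℓ ∈ N.lin ∧ e ∈ ℓ ∧ (ℓ ∩ S).Nonempty} := by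
  ext ℓ
  constructor
  · rintro ⟨f, hf, rfl⟩
    refine ⟨⟨f, e, fun h => he (h ▸ hf), rfl⟩, N.subset_cl _ (Or.inr rfl),
      ⟨f, N.subset_cl _ (Or.inl rfl), hf⟩⟩
  · rintro ⟨h1, h2, f, hf, hfS⟩
    exact ⟨f, hfS, (N.lin_eq hs h1 hf h2 (fun h => he (h ▸ hfS))).symm⟩

open Classical in
theorem pat_rank3 [Finite β] (N : OM β) (hs : N.Simple) (hr : N.rank = 3) {S : Set β}
    (hS : S.Nonempty) : (N.Pat ∅ S).ncard =
      2 + 2 * ∑ ℓ ∈ (Set.toFinite N.lin).toFinset, ((ℓ ∩ S).ncard - 1) := by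
  induction S, S.toFinite using Set.Finite.induction_on with
  | empty => exact absurd hS Set.not_nonempty_empty
  | @insert e S he _ ih =>
    have h0 : e ∉ N.cl ∅ := by
      intro h
      obtain ⟨X, hX, hXa⟩ := hs.1 e
      exact hXa (h X hX fun b hb => absurd hb (Set.notMem_empty b))
    rw [N.pat_insert he h0, insert_empty_eq]
    rcases S.eq_empty_or_nonempty with rfl | hS'
    · have h2 : ∑ ℓ ∈ (Set.toFinite N.lin).toFinset, ((ℓ ∩ insert e ∅).ncard - 1) = 0 := by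
        apply Finset.sum_eq_zero
        intro ℓ _
        have h1 : (ℓ ∩ insert e ∅).ncard ≤ (insert e ∅ : Set β).ncard :=
          Set.ncard_le_ncard Set.inter_subset_right (Set.toFinite _)
        rw [insert_empty_eq, Set.ncard_singleton] at h1
        rw [insert_empty_eq]
        omega
      rw [pat_empty, pat_empty, Set.ncard_singleton, h2]
    · have h1 : N.rk {e} + 2 = N.rank := by rw [N.rk_one_of_simple hs, hr]
      have h2 : ∀ f ∈ S, f ∉ N.cl {e} := by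
        intro f hf
        exact N.notMem_cl_single hs (fun h => he (h ▸ hf))
      rw [ih hS', N.pat_rank2 h1 hS' h2, N.lin_through hs he]
      have h3 : ∀ ℓ ∈ (Set.toFinite N.lin).toFinset, (ℓ ∩ insert e S).ncard - 1 =
          ((ℓ ∩ S).ncard - 1) + if (e ∈ ℓ ∧ (ℓ ∩ S).Nonempty) then 1 else 0 := by
        intro ℓ _
        by_cases heℓ : e ∈ ℓ
        · rw [Set.inter_insert_of_mem heℓ, Set.ncard_insert_of_notMem (fun h => he h.2)]
          by_cases hn : (ℓ ∩ S).Nonempty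
          · rw [if_pos ⟨heℓ, hn⟩]
            have := hn.ncard_pos (Set.toFinite _)
            omega
          · rw [if_neg (fun h => hn h.2)]
            rw [Set.not_nonempty_iff_eq_empty] at hn
            rw [hn, Set.ncard_empty]
        · rw [Set.inter_insert_of_notMem heℓ, if_neg (fun h => heℓ h.1), add_zero]
      rw [Finset.sum_congr rfl h3, Finset.sum_add_distrib, ← Finset.card_filter]
      have h4 : ((Set.toFinite N.lin).toFinset.filter
          (fun ℓ => e ∈ ℓ ∧ (ℓ ∩ S).Nonempty)).card =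
          {ℓ | ℓ ∈ N.lin ∧ e ∈ ℓ ∧ (ℓ ∩ S).Nonempty}.ncard := by
        rw [← Set.ncard_coe_finset]
        congr 1
        ext ℓ
        simp only [Finset.coe_filter, Set.Finite.mem_toFinset, Set.mem_ofPred_eq]
      rw [h4]
      ring

/-- Walls of a tope. -/
def Wal (N : OM β) (T : β → SignType) : Set β :=
  {e | ∃ Z ∈ N.cov, Z e = 0 ∧ ∀ a, a ≠ e → Z a = T a}

theorem three_le_wal [Finite β] (N : OM β) (hs : N.Simple) (hr : N.rank = 3)
    {T : β → SignType} (hT : N.Tope T) : 3 ≤ (N.Wal T).ncard := by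
  by_contra hc
  have h1 := N.rk_le_ncard (N.Wal T)
  obtain ⟨X, hX, ⟨e, he⟩, hXW⟩ := N.exists_cov_of_rk (A := N.Wal T) (by omega)
  have hT' := (N.tope_iff hs T).1 hT
  obtain ⟨Y, hY, hYe, hYW⟩ : ∃ Y ∈ N.cov, (∃ e, Y e ≠ 0 ∧ Y e ≠ T e) ∧ ∀ a ∈ N.Wal T, Y a = 0 := by
    by_cases h : X e = T e
    · refine ⟨_, N.neg_mem X hX, ⟨e, by simpa using he, ?_⟩, fun a ha => by simp [hXW a ha]⟩
      rw [← h]
      revert he
      generalize X e = s
      revert s
      decide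
    · exact ⟨X, hX, ⟨e, he, h⟩, hXW⟩
  obtain ⟨e, he0, he1⟩ := hYe
  have hU : N.Tope (comp Y T) := by
    refine (N.tope_iff hs _).2 ⟨N.comp_mem Y hY T hT'.1, fun a => ?_⟩
    show (if Y a = 0 then T a else Y a) ≠ 0
    by_cases h : Y a = 0
    · rw [if_pos h]
      exact hT'.2 a
    · rwa [if_neg h]
  have hne : T ≠ comp Y T := by
    intro h
    have h2 := congrFun h e
    have h3 : comp Y T e = Y e := if_neg he0
    rw [h3] at h2
    exact he1 h2.symm
  obtain ⟨V, b, hV, hb1, hb2, hb3⟩ := N.tope_step hs hT hU hne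
  have hV' := (N.tope_iff hs V).1 hV
  obtain ⟨Z, hZ, hZb, -, -, hZ3, -⟩ := N.elim' hT'.1 hV'.1 (s := b) (hT'.2 b) (by
    have a1 := hT'.2 b
    have a2 := hV'.2 b
    rw [← hb2] at hb1
    revert a1 a2 hb1
    generalize T b = s
    generalize V b = t
    revert s t
    decide)
  have hbW : b ∈ N.Wal T := ⟨Z, hZ, hZb, fun a ha => hZ3 a (hb3 a ha).symm⟩
  apply hb1
  show T b = (if Y b = 0 then T b else Y b)
  rw [if_pos (hYW b hbW)]

theorem wal_le [Finite β] (N : OM β) (hs : N.Simple) (hr : N.rank = 3) (e : β) :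
    {T | T ∈ N.Pat ∅ Set.univ ∧ e ∈ N.Wal T}.ncard ≤
      4 * {ℓ | ℓ ∈ N.lin ∧ e ∈ ℓ}.ncard := by
  classical
  let z : (β → SignType) → (β → SignType) := fun T => Function.update T e 0
  have hz1 : ∀ T, z T e = 0 := fun T => Function.update_self e 0 T
  have hz2 : ∀ T a, a ≠ e → z T a = T a := fun T a ha => Function.update_of_ne ha 0 T
  have h1 : ∀ s : SignType, {T | (T ∈ N.Pat ∅ Set.univ ∧ e ∈ N.Wal T) ∧ T e = s}.ncard ≤
      (N.Pat {e} {e}ᶜ).ncard := by
    intro s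
    refine Set.ncard_le_ncard_of_injOn z ?_ ?_ (Set.toFinite _)
    · rintro T ⟨⟨⟨-, h2, -⟩, Z, hZ, hZe, hZT⟩, -⟩
      refine ⟨fun a ha => ?_, fun a ha => ?_, Z, hZ, fun a ha => ?_, fun a ha => ?_⟩
      · rw [Set.mem_singleton_iff.1 (Set.notMem_compl_iff.1 ha), hz1]
      · rw [hz2 T a ha]
        exact h2 a (Set.mem_univ a)
      · rw [Set.mem_singleton_iff.1 ha, hZe]
      · rw [hz2 T a ha, hZT a ha]
    · rintro T ⟨-, hT⟩ T' ⟨-, hT'⟩ h
      funext a
      by_cases ha : a = e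
      · rw [ha, hT, hT']
      · have := congrFun h a
        rwa [hz2 T a ha, hz2 T' a ha] at this
  have h2 : {T | T ∈ N.Pat ∅ Set.univ ∧ e ∈ N.Wal T} ⊆
      {T | (T ∈ N.Pat ∅ Set.univ ∧ e ∈ N.Wal T) ∧ T e = 1} ∪
      {T | (T ∈ N.Pat ∅ Set.univ ∧ e ∈ N.Wal T) ∧ T e = -1} := by
    intro T hT
    have h3 := hT.1.2.1 e (Set.mem_univ e)
    have h4 : T e = 1 ∨ T e = -1 := by
      revert h3
      generalize T e = s
      revert s
      decide
    rcases h4 with h4 | h4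
    · exact Or.inl ⟨hT, h4⟩
    · exact Or.inr ⟨hT, h4⟩
  have h3 := Set.ncard_le_ncard h2 (Set.toFinite _)
  have h4 := Set.ncard_union_le {T | (T ∈ N.Pat ∅ Set.univ ∧ e ∈ N.Wal T) ∧ T e = 1}
    {T | (T ∈ N.Pat ∅ Set.univ ∧ e ∈ N.Wal T) ∧ T e = -1}
  have h5 := h1 1
  have h6 := h1 (-1)
  have hne : ({e}ᶜ : Set β).Nonempty := by
    by_contra hc
    rw [Set.not_nonempty_iff_eq_empty, Set.compl_empty_iff] at hc
    have h7 : N.rank = N.rk {e} := by
      rw [hc]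
      rfl
    rw [N.rk_one_of_simple hs] at h7
    omega
  have h7 : (N.Pat {e} {e}ᶜ).ncard = 2 * ((fun f => N.cl (insert f {e})) '' {e}ᶜ).ncard :=
    N.pat_rank2 (by rw [N.rk_one_of_simple hs, hr]) hne
      (fun f hf => N.notMem_cl_single hs (fun h => hf h.symm))
  have h8 : ((fun f => N.cl (insert f {e})) '' {e}ᶜ).ncard ≤ {ℓ | ℓ ∈ N.lin ∧ e ∈ ℓ}.ncard := by
    have h9 := N.lin_through hs (e := e) (S := {e}ᶜ) (by simp)
    rw [h9]
    exact Set.ncard_le_ncard (fun ℓ h => ⟨h.1, h.2.1⟩) (Set.toFinite _)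
  omega

theorem ncard_sum {γ : Type*} [Finite γ] (A : Set γ) (p : γ → Prop) [DecidablePred p] :
    {x | x ∈ A ∧ p x}.ncard = ∑ x ∈ (Set.toFinite A).toFinset, if p x then 1 else 0 := by
  rw [← Finset.card_filter, ← Set.ncard_coe_finset]
  congr 1
  ext x
  simp only [Finset.coe_filter, Set.Finite.mem_toFinset, Set.mem_ofPred_eq]

open Classical in
/-- Melchior's inequality, with the number of topes which have at least four walls. -/
theorem melchior [Finite β] (N : OM β) (hs : N.Simple) (hr : N.rank = 3) :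
    6 + 2 * ∑ ℓ ∈ (Set.toFinite N.lin).toFinset, ℓ.ncard +
      {T | T ∈ N.Pat ∅ Set.univ ∧ 4 ≤ (N.Wal T).ncard}.ncard ≤ 6 * N.lin.ncard := by
  have : Fintype β := Fintype.ofFinite β
  have hne : (Set.univ : Set β).Nonempty := by
    by_contra hc
    rw [Set.not_nonempty_iff_eq_empty] at hc
    have h1 : N.rank = N.rk ∅ := by
      rw [← hc]
      rfl
    rw [N.rk_empty] at h1
    omega
  have h1 := N.pat_rank3 hs hr hne
  set Ts := (Set.toFinite (N.Pat ∅ Set.univ)).toFinset with hTs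
  set L := (Set.toFinite N.lin).toFinset with hL
  have hcT : (N.Pat ∅ Set.univ).ncard = Ts.card := Set.ncard_eq_toFinset_card _ _
  have hcL : N.lin.ncard = L.card := Set.ncard_eq_toFinset_card _ _
  have htope : ∀ T ∈ N.Pat ∅ Set.univ, N.Tope T := by
    rintro T ⟨-, h2, X, hX, -, h3⟩
    have h4 : T = X := funext fun a => (h3 a (Set.mem_univ a)).symm
    exact (N.tope_iff hs T).2 ⟨h4 ▸ hX, fun a => h2 a (Set.mem_univ a)⟩
  have hQ : {T | T ∈ N.Pat ∅ Set.univ ∧ 4 ≤ (N.Wal T).ncard}.ncard =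
      ∑ T ∈ Ts, if 4 ≤ (N.Wal T).ncard then 1 else 0 := ncard_sum _ _
  have h2 : 3 * Ts.card + {T | T ∈ N.Pat ∅ Set.univ ∧ 4 ≤ (N.Wal T).ncard}.ncard ≤
      ∑ T ∈ Ts, (N.Wal T).ncard := by
    have e1 : 3 * Ts.card = ∑ _T ∈ Ts, 3 := by
      rw [Finset.sum_const, smul_eq_mul, mul_comm]
    rw [hQ, e1, ← Finset.sum_add_distrib]
    apply Finset.sum_le_sum
    intro T hT
    have := N.three_le_wal hs hr (htope T ((Set.Finite.mem_toFinset _).1 hT))
    split_ifs <;> omega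
  have h3 : ∑ T ∈ Ts, (N.Wal T).ncard = ∑ e : β, {T | T ∈ N.Pat ∅ Set.univ ∧ e ∈ N.Wal T}.ncard := by
    have e1 : ∀ T ∈ Ts, (N.Wal T).ncard = ∑ e : β, if e ∈ N.Wal T then 1 else 0 := by
      intro T _
      rw [← Finset.card_filter, ← Set.ncard_coe_finset]
      congr 1
      ext e
      simp
    have e2 : ∀ e : β, {T | T ∈ N.Pat ∅ Set.univ ∧ e ∈ N.Wal T}.ncard =
        ∑ T ∈ Ts, if e ∈ N.Wal T then 1 else 0 := fun e => ncard_sum _ _
    rw [Finset.sum_congr rfl e1, Finset.sum_comm]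
    exact Finset.sum_congr rfl fun e _ => (e2 e).symm
  have h4 : ∑ e : β, {T | T ∈ N.Pat ∅ Set.univ ∧ e ∈ N.Wal T}.ncard ≤
      ∑ e : β, 4 * {ℓ | ℓ ∈ N.lin ∧ e ∈ ℓ}.ncard := Finset.sum_le_sum fun e _ => N.wal_le hs hr e
  have h5 : ∑ e : β, {ℓ | ℓ ∈ N.lin ∧ e ∈ ℓ}.ncard = ∑ ℓ ∈ L, ℓ.ncard := by
    have e1 : ∀ ℓ ∈ L, ℓ.ncard = ∑ e : β, if e ∈ ℓ then 1 else 0 := by
      intro ℓ _
      rw [← Finset.card_filter, ← Set.ncard_coe_finset]
      congr 1
      ext e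
      simp
    have e2 : ∀ e : β, {ℓ | ℓ ∈ N.lin ∧ e ∈ ℓ}.ncard = ∑ ℓ ∈ L, if e ∈ ℓ then 1 else 0 :=
      fun e => ncard_sum _ _
    rw [Finset.sum_congr rfl e1, Finset.sum_comm]
    exact Finset.sum_congr rfl fun e _ => e2 e
  have h6 : ∑ ℓ ∈ L, ((ℓ ∩ Set.univ).ncard - 1) + L.card = ∑ ℓ ∈ L, ℓ.ncard := by
    rw [Finset.card_eq_sum_ones, ← Finset.sum_add_distrib]
    apply Finset.sum_congr rfl
    intro ℓ hℓ
    have := N.two_le_lin ((Set.Finite.mem_toFinset _).1 hℓ)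
    rw [Set.inter_univ]
    omega
  rw [← Finset.mul_sum, h5] at h4
  rw [hcT] at h1
  rw [hcL]
  omega

end OM

end MUR
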