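import Pool.Agent.MUR.TGA
import Pool.Agent.MUR.RKM

/-!
Counting sign patterns of oriented matroids of rank at most three.

`Pat N A S`: the nowhere zero sign vectors on `S` which are restrictions of covectors vanishing on
`A`. Deletion and contraction: `pat_insert`.
-/

namespace MUR

universe u v

namespace OM

variable {β : Type v}

/-- The nowhere zero sign vectors on `S` which are restrictions of covectors vanishing on `A`. -/
def Pat (N : OM β) (A S : Set β) : Set (β → SignType) :=
  {T | (∀ e, e ∉ S → T e = 0) ∧ (∀ e ∈ S, T e ≠ 0) ∧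
    ∃ X ∈ N.cov, (∀ a ∈ A, X a = 0) ∧ ∀ e ∈ S, X e = T e}

theorem pat_empty (N : OM β) (A : Set β) : N.Pat A ∅ = {fun _ => 0} := by
  ext T
  constructor
  · rintro ⟨h1, -, -⟩
    exact funext fun e => h1 e (Set.notMem_empty e)
  · rintro rfl
    exact ⟨fun _ _ => rfl, fun e he => absurd he (Set.notMem_empty e), _, N.zero_mem,
      fun _ _ => rfl, fun e he => absurd he (Set.notMem_empty e)⟩

theorem pat_loop (N : OM β) {A S : Set β} {e : β} (he : e ∈ S) (hc : e ∈ N.cl A) :
    N.Pat A S = ∅ := by
  apply Set.eq_empty_of_forall_notMem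
  rintro T ⟨-, h2, X, hX, h3, h4⟩
  exact h2 e he (by rw [← h4 e he]; exact hc X hX h3)

theorem pat_insert [Finite β] (N : OM β) {A S : Set β} {e : β} (heS : e ∉ S) (he : e ∉ N.cl A) :
    (N.Pat A (insert e S)).ncard = (N.Pat A S).ncard + (N.Pat (insert e A) S).ncard := by
  classical
  obtain ⟨Y, hY, hYA, hYe⟩ := N.not_mem_cl he
  let z : (β → SignType) → (β → SignType) := fun T => Function.update T e 0
  have hz1 : ∀ T, z T e = 0 := fun T => Function.update_self e 0 T
  have hz2 : ∀ T a, a ≠ e → z T a = T a := fun T a ha => Function.update_of_ne ha 0 T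
  let P1 := {T | T ∈ N.Pat A (insert e S) ∧ T e = 1}
  let P2 := {T | T ∈ N.Pat A (insert e S) ∧ T e = -1}
  have hinj : ∀ s : SignType, Set.InjOn z {T | T ∈ N.Pat A (insert e S) ∧ T e = s} := by
    rintro s T ⟨-, hT⟩ T' ⟨-, hT'⟩ h
    funext a
    by_cases ha : a = e
    · rw [ha, hT, hT']
    · have := congrFun h a
      rwa [hz2 T a ha, hz2 T' a ha] at this
  have hun : N.Pat A (insert e S) = P1 ∪ P2 := by
    ext T
    constructor
    · intro hT
      have h1 := hT.2.1 e (Set.mem_insert _ _)
      have h2 : T e = 1 ∨ T e = -1 := by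
        revert h1
        generalize T e = s
        revert s
        decide
      rcases h2 with h2 | h2
      · exact Or.inl ⟨hT, h2⟩
      · exact Or.inr ⟨hT, h2⟩
    · rintro (h | h)
      · exact h.1
      · exact h.1
  have hdis : Disjoint P1 P2 := by
    rw [Set.disjoint_left]
    rintro T ⟨-, h1⟩ ⟨-, h2⟩
    rw [h1] at h2
    exact absurd h2 (by decide)
  have hsub : ∀ s : SignType, z '' {T | T ∈ N.Pat A (insert e S) ∧ T e = s} ⊆ N.Pat A S := by
    rintro s _ ⟨T, ⟨⟨h1, h2, X, hX, h3, h4⟩, -⟩, rfl⟩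
    refine ⟨fun a ha => ?_, fun a ha => ?_, X, hX, h3, fun a ha => ?_⟩
    · by_cases hae : a = e
      · rw [hae, hz1]
      · rw [hz2 T a hae]
        exact h1 a (fun h => ha (h.resolve_left hae))
    · have hae : a ≠ e := fun h => heS (h ▸ ha)
      rw [hz2 T a hae]
      exact h2 a (Or.inr ha)
    · have hae : a ≠ e := fun h => heS (h ▸ ha)
      rw [hz2 T a hae]
      exact h4 a (Or.inr ha)
  -- extension of a pattern by the sign of a covector
  have hext : ∀ (T : β → SignType) (W : β → SignType), (∀ a, a ∉ S → T a = 0) →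
      (∀ a ∈ S, T a ≠ 0) → W ∈ N.cov → (∀ a ∈ A, W a = 0) → (∀ a ∈ S, W a = T a) → W e ≠ 0 →
      T ∈ z '' {T | T ∈ N.Pat A (insert e S) ∧ T e = W e} := by
    intro T W h1 h2 hW h3 h4 h5
    refine ⟨Function.update T e (W e), ⟨⟨fun a ha => ?_, fun a ha => ?_, W, hW, h3,
      fun a ha => ?_⟩, Function.update_self e _ T⟩, ?_⟩
    · have hae : a ≠ e := fun h => ha (Or.inl h)
      rw [Function.update_of_ne hae]
      exact h1 a (fun h => ha (Or.inr h))
    · by_cases hae : a = e
      · rw [hae, Function.update_self]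
        exact h5
      · rw [Function.update_of_ne hae]
        exact h2 a (ha.resolve_left hae)
    · by_cases hae : a = e
      · rw [hae, Function.update_self]
      · rw [Function.update_of_ne hae]
        exact h4 a (ha.resolve_left hae)
    · funext a
      by_cases hae : a = e
      · rw [hae, hz1, h1 e heS]
      · rw [hz2 _ a hae, Function.update_of_ne hae]
  have hA : z '' P1 ∪ z '' P2 = N.Pat A S := by
    apply Set.Subset.antisymm (Set.union_subset (hsub 1) (hsub (-1)))
    rintro T ⟨h1, h2, X, hX, h3, h4⟩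
    have h5 : ∀ a ∈ S, comp X Y a = T a := by
      intro a ha
      have : X a ≠ 0 := by rw [h4 a ha]; exact h2 a ha
      show (if X a = 0 then Y a else X a) = T a
      rw [if_neg this, h4 a ha]
    have h6 : comp X Y e ≠ 0 := by
      show (if X e = 0 then Y e else X e) ≠ 0
      by_cases h : X e = 0
      · rwa [if_pos h]
      · rwa [if_neg h]
    have h7 := hext T (comp X Y) h1 h2 (N.comp_mem X hX Y hY)
      (fun a ha => by simp [comp, h3 a ha, hYA a ha]) h5 h6
    have h8 : comp X Y e = 1 ∨ comp X Y e = -1 := by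
      revert h6
      generalize comp X Y e = s
      revert s
      decide
    rcases h8 with h8 | h8
    · rw [h8] at h7
      exact Or.inl h7
    · rw [h8] at h7
      exact Or.inr h7
  have hB : z '' P1 ∩ z '' P2 = N.Pat (insert e A) S := by
    apply Set.Subset.antisymm
    · rintro T ⟨⟨T1, ⟨⟨h1, h2, X1, hX1, h3, h4⟩, h5⟩, h6⟩, ⟨T2, ⟨⟨k1, k2, X2, hX2, k3, k4⟩, k5⟩, k6⟩⟩
      have hX1e : X1 e = 1 := by rw [h4 e (Or.inl rfl), h5]
      have hX2e : X2 e = -1 := by rw [k4 e (Or.inl rfl), k5]
      obtain ⟨Z, hZ, hZe, -, -, hZ3, -⟩ := N.elim' hX1 hX2 (s := e) (by rw [hX1e]; decide)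
        (by rw [hX1e, hX2e])
      have hT1 : ∀ a ∈ S, T a = T1 a := by
        intro a ha
        have hae : a ≠ e := fun h => heS (h ▸ ha)
        rw [← h6, hz2 T1 a hae]
      have hT2 : ∀ a ∈ S, T a = T2 a := by
        intro a ha
        have hae : a ≠ e := fun h => heS (h ▸ ha)
        rw [← k6, hz2 T2 a hae]
      have hTP := hsub 1 ⟨T1, ⟨⟨h1, h2, X1, hX1, h3, h4⟩, h5⟩, h6⟩
      refine ⟨hTP.1, hTP.2.1, Z, hZ, ?_, ?_⟩
      · intro a ha
        rcases ha with rfl | ha
        · exact hZe
        · rw [hZ3 a (by rw [h3 a ha, k3 a ha]), h3 a ha]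
      · intro a ha
        rw [hZ3 a (by rw [h4 a (Or.inr ha), k4 a (Or.inr ha), ← hT1 a ha, hT2 a ha]),
          h4 a (Or.inr ha), hT1 a ha]
    · rintro T ⟨h1, h2, Z, hZ, h3, h4⟩
      have hZe : Z e = 0 := h3 e (Or.inl rfl)
      have hne : ∀ a ∈ S, Z a ≠ 0 := fun a ha => by rw [h4 a ha]; exact h2 a ha
      have key : ∀ W ∈ N.cov, (∀ a ∈ A, W a = 0) → W e ≠ 0 →
          T ∈ z '' {T | T ∈ N.Pat A (insert e S) ∧ T e = W e} := by
        intro W hW hWA hWe
        have h5 := hext T (comp Z W) h1 h2 (N.comp_mem Z hZ W hW)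
          (fun a ha => by simp [comp, h3 a (Or.inr ha), hWA a ha])
          (fun a ha => by
            show (if Z a = 0 then W a else Z a) = T a
            rw [if_neg (hne a ha), h4 a ha])
          (by
            show (if Z e = 0 then W e else Z e) ≠ 0
            rwa [if_pos hZe])
        have h6 : comp Z W e = W e := if_pos hZe
        rwa [h6] at h5
      have h5 := key Y hY hYA hYe
      have h6 := key _ (N.neg_mem Y hY) (fun a ha => by simp [hYA a ha]) (by simpa using hYe)
      have h8 : Y e = 1 ∨ Y e = -1 := by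
        revert hYe
        generalize Y e = s
        revert s
        decide
      rcases h8 with h8 | h8
      · rw [h8] at h5
        simp only [h8] at h6
        exact ⟨h5, h6⟩
      · rw [h8] at h5
        simp only [h8, neg_neg] at h6
        exact ⟨h6, h5⟩
  rw [hun, Set.ncard_union_eq hdis, ← hA, ← hB, Set.ncard_union_add_ncard_inter,
    (hinj 1).ncard_image, (hinj (-1)).ncard_image]

theorem pat_rank1 [Finite β] (N : OM β) {A : Set β} (hr : N.rk A + 1 = N.rank) {S : Set β}
    (hS : S.Nonempty) (h : ∀ e ∈ S, e ∉ N.cl A) : (N.Pat A S).ncard = 2 := by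
  induction S, S.toFinite using Set.Finite.induction_on with
  | empty => exact absurd hS Set.not_nonempty_empty
  | @insert e S he _ ih =>
    rw [N.pat_insert he (h e (Set.mem_insert _ _))]
    rcases S.eq_empty_or_nonempty with rfl | hS'
    · rw [pat_empty, pat_empty, Set.ncard_singleton]
    · rw [ih hS' fun a ha => h a (Set.mem_insert_of_mem _ ha)]
      obtain ⟨f, hf⟩ := hS'
      have h1 : f ∈ N.cl (insert e A) := by
        have h2 := N.rk_insert_not (h e (Set.mem_insert _ _))
        exact N.sub_cl_of_rk (Set.subset_univ _) (by unfold rank at hr; omega) (Set.mem_univ f)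
      rw [N.pat_loop hf h1, Set.ncard_empty]

theorem cl_eq_of_mem (N : OM β) {A : Set β} {e f : β} (h1 : f ∈ N.cl (insert e A))
    (h2 : f ∉ N.cl A) : N.cl (insert f A) = N.cl (insert e A) := by
  have h3 := N.exch h1 h2
  apply Set.Subset.antisymm
  · exact N.cl_subset_of (Set.insert_subset h1 ((Set.subset_insert _ _).trans (N.subset_cl _)))
  · exact N.cl_subset_of (Set.insert_subset h3 ((Set.subset_insert _ _).trans (N.subset_cl _)))

theorem pat_rank2 [Finite β] (N : OM β) {A : Set β} (hr : N.rk A + 2 = N.rank) {S : Set β}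
    (hS : S.Nonempty) (h : ∀ e ∈ S, e ∉ N.cl A) :
    (N.Pat A S).ncard = 2 * ((fun e => N.cl (insert e A)) '' S).ncard := by
  induction S, S.toFinite using Set.Finite.induction_on with
  | empty => exact absurd hS Set.not_nonempty_empty
  | @insert e S he _ ih =>
    have heA := h e (Set.mem_insert _ _)
    rw [N.pat_insert he heA]
    rcases S.eq_empty_or_nonempty with rfl | hS'
    · rw [pat_empty, pat_empty, Set.ncard_singleton, insert_empty_eq, Set.image_singleton,
        Set.ncard_singleton]
    · have hS2 : ∀ a ∈ S, a ∉ N.cl A := fun a ha => h a (Set.mem_insert_of_mem _ ha)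
      rw [ih hS' hS2, Set.image_insert_eq]
      by_cases hc : ∃ f ∈ S, f ∈ N.cl (insert e A)
      · obtain ⟨f, hf, hfe⟩ := hc
        rw [N.pat_loop hf hfe, Set.ncard_empty, Set.insert_eq_of_mem, add_zero]
        exact ⟨f, hf, N.cl_eq_of_mem hfe (hS2 f hf)⟩
      · push Not at hc
        have h1 := N.rk_insert_not heA
        rw [N.pat_rank1 (by omega) hS' hc, Set.ncard_insert_of_notMem, mul_add]
        rintro ⟨f, hf, hfe⟩
        apply hc f hf
        show f ∈ N.cl (insert e A)
        rw [← hfe]
        exact N.subset_cl _ (Set.mem_insert _ _)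

end OM

end MUR
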