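import Pool.Agent.MUR.R3D0

/-!
Facts on points and directions of one line in rank three. (150 lines)

Throughout rank = 3. If Y is a vertex with Y c = 0 then f ∉ cl {c}; and if U is a vertex with U c = 0, U b ≠ 0 then b ∉ cl {c}.
Rank of {c, f} is 2 if c is not a loop and some vertex vanishes at c.
`dir_uniq`: `uniq` with G = {c, f} at p.
`pt_uniq`: `uniq` with G = {b, c} at f.
`carc_out`: X' := elimination of f between U and -Y (X' f = 0, X' c = 0, X' b = U b since Y b = 0). For e with U e = 0: X' e = -Y e. There is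
such an e with Y e ≠ 0 (zs U is not inside zs Y: equal ranks would give equal zero sets, but Y b = 0 ≠ U b). If X b = U b then X = X' by `uniq`
on {c, f} at b, and the arc has e as witness. Conversely the witness e of the arc gives X e = -Y e = X' e (nonzero) so X = X' (the covector in the arc is X by `dir_uniq`).
`carc_in`: the same with X'' := elimination of f between Y and -U: X'' b = -U b, X'' e = -U e for e with Y e = 0; e.g. witness e := b.
`dir_exists`: a nonzero covector vanishing on {c, f} (`exists_cov_of_rk`); it does not vanish at p because {c, p, f} spans: p ∉ cl {c}, and f ∉ cl {c, p} by Generic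
(a nonzero covector vanishing on {c, p} exists as the rank is 3). Sign by negation.
`carc_total`: choose b with Y b = 0, Z b ≠ 0; X b ≠ 0 since {c, b, f} spans; X b = Z b or X b = -Z b; use `carc_out`, `carc_in`.
`carc_trans`: choose b with Z b = 0, Y b ≠ 0 (the witness of the first arc). `carc_in`: X b = -Y b. W b ≠ 0 (otherwise W = Z by `pt_uniq`, but the second arc has a
witness e with W e = 0 ≠ Z e). `carc_out`: X b = W b. X' := elimination of f between W and -Y: X' b = X b (W b = -Y b = X b), so X' = X by `uniq`; choose e with W e = 0,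
Y e ≠ 0 (W ≠ Y as W b ≠ Y b), then X e = X' e = -Y e.
`carc_cross`: z := elimination of b between U and U' (z b = 0, z f = 1, z c = 0). X b = U' b: X' := elimination of f between U' and -U has X' b = U' b and agrees with X at the
witness e of the arc. Then `carc_in` and `carc_out`.
`pt_exists`: nonzero covector vanishing on {b, c}, nonzero at f by Generic and `uniq'`.
-/

namespace MUR

universe u v

namespace OM

variable {α : Type u} {β : Type v}

private theorem r3a_neg {t : SignType} : -t = 0 → t = 0 := by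
  revert t; decide

private theorem r3a_rk_fc [Finite α] (M : OM α) {f c : α} (hc : M.rk {c} = 1)
    {Y : α → SignType} (hY : M.Vx f Y) (hYc : Y c = 0) : M.rk (insert f {c}) = 2 := by
  have h1 : f ∉ M.cl {c} := by
    intro h
    have h2 := h Y hY.1 (by rintro a rfl; exact hYc)
    rw [hY.2.1] at h2
    exact absurd h2 (by decide)
  have h2 := M.rk_insert_not h1
  omega

private theorem r3a_rk_bc [Finite α] (M : OM α) {b c : α} (hc : M.rk {c} = 1)
    {Y : α → SignType} (hY : Y ∈ M.cov) (hYc : Y c = 0) (hYb : Y b ≠ 0) :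
    M.rk {b, c} = 2 := by
  have h1 : b ∉ M.cl {c} := fun h => hYb (h Y hY (by rintro a rfl; exact hYc))
  have h2 := M.rk_insert_not h1
  have h3 : ({b, c} : Set α) = insert b {c} := rfl
  rw [h3]
  omega

private theorem r3a_f_ne {f : α} {Y : α → SignType} (h : Y f = 1) : Y f ≠ 0 := by
  rw [h]; decide

/-- Elimination of `f` between `U` and the negative of `Y`. -/
private theorem r3a_el (M : OM α) {f c : α} {Y U : α → SignType} (hY : M.Vx f Y)
    (hU : M.Vx f U) (hYc : Y c = 0) (hUc : U c = 0) :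
    ∃ X ∈ M.cov, X f = 0 ∧ X c = 0 ∧ (∀ h, U h = 0 → X h = -Y h) ∧ (∀ h, Y h = 0 → X h = U h) ∧
      (∀ h, U h = -Y h → X h = U h) := by
  obtain ⟨X, hX, h0, h1, h2, h3, -⟩ := M.elim' hU.1 (M.neg_mem Y hY.1) (s := f)
    (r3a_f_ne hU.2.1) (by show -Y f = -U f; rw [hY.2.1, hU.2.1])
  refine ⟨X, hX, h0, ?_, h1, fun h hh => h2 h ?_, h3⟩
  · rw [h1 c hUc]
    show -Y c = 0
    rw [hYc]; rfl
  · show -Y h = 0
    rw [hh]; rfl

private theorem r3a_ne_wit [Finite α] (M : OM α) {f : α} {Y U : α → SignType} (hY : M.Vx f Y)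
    (hU : M.Vx f U) (hne : Y ≠ U) : ∃ e, U e = 0 ∧ Y e ≠ 0 := by
  by_contra hcon
  push Not at hcon
  apply hne
  exact M.uniq hY.1 hU.1 (G := zs U) hU.2.2 (fun g hg => hcon g hg) (fun g hg => hg)
    (e := f) (r3a_f_ne hY.2.1) (by rw [hY.2.1, hU.2.1])

theorem dir_uniq [Finite α] (M : OM α) {f p c : α} (hr : M.rank = 3) (hc : M.rk {c} = 1)
    {Y : α → SignType} (hY : M.Vx f Y) (hYc : Y c = 0) {X X' : α → SignType} (hX : X ∈ M.cov)
    (hX' : X' ∈ M.cov) (h1 : X c = 0) (h2 : X f = 0) (h3 : X p = 1) (h1' : X' c = 0)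
    (h2' : X' f = 0) (h3' : X' p = 1) : X = X' := by
  have h4 := M.r3a_rk_fc hc hY hYc
  refine M.uniq hX hX' (G := insert f {c}) (by omega) ?_ ?_ (e := p) (r3a_f_ne h3)
    (by rw [h3, h3'])
  · rintro g (rfl | rfl)
    · exact h2
    · exact h1
  · rintro g (rfl | rfl)
    · exact h2'
    · exact h1'

theorem pt_uniq [Finite α] (M : OM α) {f b c : α} (hr : M.rank = 3) (hbc : M.rk {b, c} = 2)
    {Y Z : α → SignType} (hY : M.Vx f Y) (hZ : M.Vx f Z) (hYb : Y b = 0) (hYc : Y c = 0)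
    (hZb : Z b = 0) (hZc : Z c = 0) : Y = Z := by
  refine M.uniq hY.1 hZ.1 (G := {b, c}) (by omega) ?_ ?_ (e := f) (r3a_f_ne hY.2.1)
    (by rw [hY.2.1, hZ.2.1])
  · rintro g (rfl | rfl)
    · exact hYb
    · exact hYc
  · rintro g (rfl | rfl)
    · exact hZb
    · exact hZc

/-- Two covectors vanishing at `c` and `f` which agree at a point of their support are equal. -/
private theorem r3a_eq [Finite α] (M : OM α) {f c e : α} (hr : M.rank = 3)
    (hc : M.rk {c} = 1) {Y : α → SignType} (hY : M.Vx f Y) (hYc : Y c = 0)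
    {X X' : α → SignType} (hX : X ∈ M.cov) (hX' : X' ∈ M.cov) (h1 : X c = 0) (h2 : X f = 0)
    (h1' : X' c = 0) (h2' : X' f = 0) (he : X e ≠ 0) (hee : X e = X' e) : X = X' := by
  have h4 := M.r3a_rk_fc hc hY hYc
  refine M.uniq hX hX' (G := insert f {c}) (by omega) ?_ ?_ (e := e) he hee
  · rintro g (rfl | rfl)
    · exact h2
    · exact h1
  · rintro g (rfl | rfl)
    · exact h2'
    · exact h1'

theorem carc_out [Finite α] (M : OM α) {f p b c : α} (hr : M.rank = 3) (hc : M.rk {c} = 1)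
    {X Y U : α → SignType} (hX : X ∈ M.cov) (h1 : X c = 0) (h2 : X f = 0) (h3 : X p = 1)
    (hY : M.Vx f Y) (hU : M.Vx f U) (hYc : Y c = 0) (hUc : U c = 0) (hYb : Y b = 0)
    (hUb : U b ≠ 0) : M.CArc f p c Y U ↔ X b = U b := by
  obtain ⟨X', hX', hf', hc', h4, h5, h6⟩ := M.r3a_el hY hU hYc hUc
  constructor
  · rintro ⟨-, -, -, -, X0, hX0, g1, g2, g3, e, he1, he2, he3⟩
    have hXX : X0 = X := M.dir_uniq hr hc hY hYc hX0 hX g1 g2 g3 h1 h2 h3
    rw [hXX] at he3
    have hee : X e = X' e := by rw [he3, h4 e he1]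
    have he : X e ≠ 0 := by
      rw [he3]
      intro h
      apply he2
      exact r3a_neg h
    have := M.r3a_eq hr hc hY hYc hX hX' h1 h2 hc' hf' he hee
    rw [this, h5 b hYb]
  · intro hXb
    have hee : X b = X' b := by rw [hXb, h5 b hYb]
    have hXX := M.r3a_eq hr hc hY hYc hX hX' h1 h2 hc' hf' (by rw [hXb]; exact hUb) hee
    have hne : Y ≠ U := fun h => hUb (by rw [← h]; exact hYb)
    obtain ⟨e, he1, he2⟩ := M.r3a_ne_wit hY hU hne
    exact ⟨hY, hU, hYc, hUc, X, hX, h1, h2, h3, e, he1, he2, by rw [hXX, h4 e he1]⟩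

theorem carc_in [Finite α] (M : OM α) {f p b c : α} (hr : M.rank = 3) (hc : M.rk {c} = 1)
    {X Y U : α → SignType} (hX : X ∈ M.cov) (h1 : X c = 0) (h2 : X f = 0) (h3 : X p = 1)
    (hY : M.Vx f Y) (hU : M.Vx f U) (hYc : Y c = 0) (hUc : U c = 0) (hYb : Y b = 0)
    (hUb : U b ≠ 0) : M.CArc f p c U Y ↔ X b = -U b := by
  obtain ⟨X', hX', hf', hc', h4, h5, h6⟩ := M.r3a_el hU hY hUc hYc
  constructor
  · rintro ⟨-, -, -, -, X0, hX0, g1, g2, g3, e, he1, he2, he3⟩
    have hXX : X0 = X := M.dir_uniq hr hc hY hYc hX0 hX g1 g2 g3 h1 h2 h3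
    rw [hXX] at he3
    have hee : X e = X' e := by rw [he3, h4 e he1]
    have he : X e ≠ 0 := by
      rw [he3]
      intro h
      apply he2
      exact r3a_neg h
    have := M.r3a_eq hr hc hY hYc hX hX' h1 h2 hc' hf' he hee
    rw [this, h4 b hYb]
  · intro hXb
    exact ⟨hU, hY, hUc, hYc, X, hX, h1, h2, h3, b, hYb, hUb, hXb⟩

theorem dir_exists [Finite α] (M : OM α) {f p c : α} (hg : M.Generic f) (hr : M.rank = 3)
    (hcf : c ≠ f) (hpf : p ≠ f) (hc : M.rk {c} = 1) (hpc : p ∉ M.cl {c}) :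
    ∃ X ∈ M.cov, X c = 0 ∧ X f = 0 ∧ X p = 1 := by
  have h1 : M.rk (insert f {c}) < M.rank := by
    have := M.rk_insert_le {c} f
    omega
  obtain ⟨X, hX, ⟨e, he⟩, hX0⟩ := M.exists_cov_of_rk h1
  have h2 := M.rk_insert_not hpc
  have h3 : f ∉ M.cl (insert p {c}) := by
    have h4 : f ∉ (insert p {c} : Set α) := by
      rintro (h | h)
      · exact hpf h.symm
      · exact hcf h.symm
    obtain ⟨W, hW, hWf, hW0⟩ := hg.2 _ h4
      (M.exists_cov_of_rk (by omega))
    exact fun h => hWf (h W hW hW0)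
  have h5 := M.rk_insert_not h3
  have hXp : X p ≠ 0 := by
    intro hXp
    apply he
    apply M.zero_of_span hX (A := insert f (insert p {c}))
    · rintro a (rfl | rfl | ha)
      · exact hX0 _ (Or.inl rfl)
      · exact hXp
      · exact hX0 _ (Or.inr ha)
    · omega
  have hXc : X c = 0 := hX0 c (Or.inr rfl)
  have hXf : X f = 0 := hX0 f (Or.inl rfl)
  by_cases hp : X p = 1
  · exact ⟨X, hX, hXc, hXf, hp⟩
  · refine ⟨_, M.neg_mem X hX, ?_, ?_, ?_⟩
    · show -X c = 0
      rw [hXc]; rfl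
    · show -X f = 0
      rw [hXf]; rfl
    · show -X p = 1
      revert hp hXp
      generalize X p = t
      revert t
      decide

theorem carc_total [Finite α] (M : OM α) {f p c : α} (hg : M.Generic f) (hr : M.rank = 3)
    (hcf : c ≠ f) (hpf : p ≠ f) (hc : M.rk {c} = 1) (hpc : p ∉ M.cl {c}) {Y Z : α → SignType}
    (hY : M.Vx f Y) (hZ : M.Vx f Z) (hYc : Y c = 0) (hZc : Z c = 0) (hne : Y ≠ Z) :
    M.CArc f p c Y Z ∨ M.CArc f p c Z Y := by
  obtain ⟨b, hYb, hZb⟩ := M.r3a_ne_wit hZ hY hne.symm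
  obtain ⟨X, hX, h1, h2, h3⟩ := M.dir_exists hg hr hcf hpf hc hpc
  have hbc := M.r3a_rk_bc hc hZ.1 hZc hZb
  have hXb : X b ≠ 0 := by
    intro hXb
    have h4 : f ∉ M.cl {b, c} := by
      intro h
      have h5 := h Y hY.1 (by
        rintro a (rfl | rfl)
        · exact hYb
        · exact hYc)
      rw [hY.2.1] at h5
      exact absurd h5 (by decide)
    have h5 := M.rk_insert_not h4
    have h6 := M.zero_of_span hX (A := insert f {b, c}) (by
      rintro a (rfl | rfl | rfl)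
      · exact h2
      · exact hXb
      · exact h1) (by omega) p
    rw [h3] at h6
    exact absurd h6 (by decide)
  have h7 := M.carc_out hr hc hX h1 h2 h3 hY hZ hYc hZc hYb hZb
  have h8 := M.carc_in hr hc hX h1 h2 h3 hY hZ hYc hZc hYb hZb
  rw [h7, h8]
  revert hXb hZb
  generalize X b = s
  generalize Z b = t
  revert s t
  decide

theorem carc_irrefl (M : OM α) {f p c : α} (Y : α → SignType) : ¬ M.CArc f p c Y Y := by
  rintro ⟨-, -, -, -, X, -, -, -, -, e, h1, h2, -⟩
  exact h2 h1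

theorem carc_trans [Finite α] (M : OM α) {f p c : α} (hr : M.rank = 3) (hc : M.rk {c} = 1)
    {Y Z W : α → SignType} (h1 : M.CArc f p c Y Z) (h2 : M.CArc f p c Z W) :
    M.CArc f p c Y W := by
  have h2' := h2
  obtain ⟨hY, hZ, hYc, hZc, X, hX, g1, g2, g3, b, hZb, hYb, hXb⟩ := h1
  obtain ⟨-, hW, -, hWc, X0, -, -, -, -, e0, he0, he0', -⟩ := h2
  have hbc := M.r3a_rk_bc hc hY.1 hYc hYb
  have hWb : W b ≠ 0 := by
    intro hWb
    have h3 := M.pt_uniq hr hbc hW hZ hWb hWc hZb hZc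
    rw [h3] at he0
    exact he0' he0
  have hXW : X b = W b := (M.carc_out hr hc hX g1 g2 g3 hZ hW hZc hWc hZb hWb).1 h2'
  obtain ⟨X', hX', hf', hc', h4, h5, h6⟩ := M.r3a_el hY hW hYc hWc
  have h7 : X' b = W b := h6 b (by rw [← hXW, hXb])
  have hXX := M.r3a_eq hr hc hY hYc hX hX' g1 g2 hc' hf' (e := b) (by rw [hXW]; exact hWb)
    (by rw [h7, hXW])
  have hne : Y ≠ W := by
    intro h
    have h8 : Y b = -Y b := by rw [← hXb, hXW, ← h]
    revert h8 hYb
    generalize Y b = t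
    revert t
    decide
  obtain ⟨e, he1, he2⟩ := M.r3a_ne_wit hY hW hne
  exact ⟨hY, hW, hYc, hWc, X, hX, g1, g2, g3, e, he1, he2, by rw [hXX, h4 e he1]⟩

theorem carc_cross [Finite α] (M : OM α) {f p b c : α} (hr : M.rank = 3) (hc : M.rk {c} = 1)
    {U U' : α → SignType} (h : M.CArc f p c U U') (hb : U b ≠ 0) (hb' : U' b = -U b) :
    ∃ z, M.CArc f p c U z ∧ M.CArc f p c z U' ∧ z b = 0 := by
  obtain ⟨hU, hU', hUc, hUc', X, hX, g1, g2, g3, e, he1, he2, he3⟩ := h
  obtain ⟨z, hz, hzb, hz1, -, hz3, -⟩ := M.elim' hU.1 hU'.1 (s := b) hb hb'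
  have hbc := M.r3a_rk_bc hc hU.1 hUc hb
  have hzf : z f = 1 := by
    rw [hz3 f (by rw [hU.2.1, hU'.2.1]), hU.2.1]
  have hzc : z c = 0 := by rw [hz1 c hUc, hUc']
  have hzv : M.Vx f z := ⟨hz, hzf, (M.rk_zs_eq hz (r3a_f_ne hzf) (A := {b, c}) (by
    rintro a (rfl | rfl)
    · exact hzb
    · exact hzc) (by omega)).1⟩
  obtain ⟨X', hX', hf', hc', h4, h5, h6⟩ := M.r3a_el hU hU' hUc hUc'
  have hXe : X e ≠ 0 := by
    rw [he3]
    intro h
    exact he2 (r3a_neg h)
  have hXX := M.r3a_eq hr hc hU hUc hX hX' g1 g2 hc' hf' hXe (by rw [he3, h4 e he1])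
  have hXb : X b = U' b := by rw [hXX, h6 b hb']
  have hb'' : U' b ≠ 0 := by
    rw [hb']
    intro h
    exact hb (r3a_neg h)
  refine ⟨z, ?_, ?_, hzb⟩
  · rw [M.carc_in hr hc hX g1 g2 g3 hzv hU hzc hUc hzb hb, hXb, hb']
  · rw [M.carc_out hr hc hX g1 g2 g3 hzv hU' hzc hUc' hzb hb'', hXb]

theorem pt_exists [Finite α] (M : OM α) {f b c : α} (hg : M.Generic f) (hr : M.rank = 3)
    (hbf : b ≠ f) (hcf : c ≠ f) (hbc : M.rk {b, c} = 2) :
    ∃ z, M.Vx f z ∧ z b = 0 ∧ z c = 0 := by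
  have h4 : f ∉ ({b, c} : Set α) := by
    rintro (h | h)
    · exact hbf h.symm
    · exact hcf h.symm
  obtain ⟨W, hW, hWf, hW0⟩ := hg.2 _ h4 (M.exists_cov_of_rk (by omega))
  obtain ⟨z, hz, hzf, hz0⟩ : ∃ z ∈ M.cov, z f = 1 ∧ ∀ a ∈ ({b, c} : Set α), z a = 0 := by
    by_cases hp : W f = 1
    · exact ⟨W, hW, hp, hW0⟩
    · refine ⟨_, M.neg_mem W hW, ?_, ?_⟩
      · show -W f = 1
        revert hp hWf
        generalize W f = t
        revert t
        decide
      · intro a ha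
        show -W a = 0
        rw [hW0 a ha]; rfl
  exact ⟨z, ⟨hz, hzf, (M.rk_zs_eq hz (r3a_f_ne hzf) hz0 (by omega)).1⟩, hz0 b (Or.inl rfl),
    hz0 c (Or.inr rfl)⟩

end OM

end MUR
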