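import Pool.Agent.MUR.R3A

/-!
No directed triangle. (70 lines)

Let Da, Db, Dc be the covectors of the three arcs (directions of a, b, c, value 1 at p, 0 at f). x c ≠ 0 (otherwise x = y by `pt_uniq` on b, c, contradicting the
witness of the arc), y a ≠ 0, z b ≠ 0 similarly. From CArc b x y: `carc_in` (element c, Y := y, U := x): Db c = -x c; `carc_out` (element a, Y := x, U := y): Db a = y a.
From CArc c y z: Dc a = -y a and Dc b = z b. From CArc a z x: Da b = -z b, Da c = x c. Eliminate a between Db and Dc (Db a = y a = -Dc a): K a = 0, K f = 0, K p = 1,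
K b = Dc b = z b (Db b = 0). K vanishes on {a, f} and K p = Da p so K = Da (`dir_uniq`), but Da b = -z b ≠ z b.
-/

namespace MUR

universe u v

namespace OM

variable {α : Type u} {β : Type v}

theorem no_triangle [Finite α] (M : OM α) {f p a b c : α} (hr : M.rank = 3)
    (ha : M.rk {a} = 1) (hb : M.rk {b} = 1) (hc : M.rk {c} = 1) (hab : M.rk {a, b} = 2)
    (hbc : M.rk {b, c} = 2) (hca : M.rk {c, a} = 2) {x y z : α → SignType}
    (h1 : M.CArc f p b x y) (h2 : M.CArc f p c y z) (h3 : M.CArc f p a z x) : False := by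
  have h1' := h1
  have h2' := h2
  have h3' := h3
  obtain ⟨hx, hy, hxb, hyb, Db, hDb, b1, b2, b3, -⟩ := h1'
  obtain ⟨-, hz, hyc, hzc, Dc, hDc, c1, c2, c3, -⟩ := h2'
  obtain ⟨-, -, hza, hxa, Da, hDa, a1, a2, a3, -⟩ := h3'
  have hxc : x c ≠ 0 := by
    intro h
    have h4 := M.pt_uniq hr hbc hx hy hxb h hyb hyc
    rw [h4] at h1
    exact M.carc_irrefl y h1
  have hya : y a ≠ 0 := by
    intro h
    have h4 := M.pt_uniq hr hab hy hx h hyb hxa hxb
    rw [h4] at h1
    exact M.carc_irrefl x h1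
  have hzb : z b ≠ 0 := by
    intro h
    have h4 := M.pt_uniq hr hbc hz hy h hzc hyb hyc
    rw [h4] at h2
    exact M.carc_irrefl y h2
  have e1 : Db a = y a := (M.carc_out hr hb hDb b1 b2 b3 hx hy hxb hyb hxa hya).1 h1
  have e2 : Dc a = -y a := (M.carc_in hr hc hDc c1 c2 c3 hz hy hzc hyc hza hya).1 h2
  have e3 : Dc b = z b := (M.carc_out hr hc hDc c1 c2 c3 hy hz hyc hzc hyb hzb).1 h2
  have e4 : Da b = -z b := (M.carc_in hr ha hDa a1 a2 a3 hx hz hxa hza hxb hzb).1 h3
  obtain ⟨K, hK, hKa, k1, -, k3, -⟩ := M.elim' hDb hDc (s := a) (by rw [e1]; exact hya)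
    (by rw [e1, e2])
  have hKf : K f = 0 := by rw [k1 f b2, c2]
  have hKp : K p = 1 := by rw [k3 p (by rw [b3, c3]), b3]
  have hKb : K b = z b := by rw [k1 b b1, e3]
  have hKD := M.dir_uniq hr ha hz hza hK hDa hKa hKf hKp a1 a2 a3
  rw [hKD, e4] at hKb
  revert hKb hzb
  generalize z b = t
  revert t
  decide

end OM

end MUR
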