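import Pool.Agent.MUR.R3A
import Pool.Agent.MUR.R3B

/-!
The excursion lemma. (100 lines)

Suppose CArc b z' y. Let D1, D2 be the covectors of the arcs CArc c1 y u1 and CArc c2 u z'. `carc_out`: D1 b = u1 b; `carc_in`: D2 b = -u b = -u1 b. So c1 ≠ c2 (`dir_uniq`), hence
rk {c1, c2} = 2. Let z be the vertex on c1 and c2 (`pt_exists`). z b ≠ 0: otherwise z = y (`pt_uniq` on b, c1) and z = z' (on b, c2), so y = z', contradicting irreflexivity.
Case z b = u1 b: CArc c1 y z (`carc_out`), CArc c2 z z' (`carc_in`), and CArc b z' y: `no_triangle` (cyclic order: lines c1, c2, b).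
Case z b = -u1 b: CArc c1 z y (`carc_in`), so CArc c1 z u1 by `carc_trans`; CArc c2 z' z (`carc_out`), so CArc c2 u z. Together with the chain from u1 to u we get a closed
chain at z of arcs along A, contradiction to hA.
-/

namespace MUR

universe u v

namespace OM

variable {α : Type u} {β : Type v}

theorem excursion [Finite α] (M : OM α) {f p b c1 c2 : α} (hg : M.Generic f) (hr : M.rank = 3)
    {A : Set α} (hA : ∀ Y, ¬ Relation.TransGen (M.RArc f p A) Y Y) (hbf : b ≠ f)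
    (hAf : ∀ c ∈ A, c ≠ f) (h1 : ∀ c, c ≠ f → M.rk {c} = 1)
    (h2 : ∀ c d, c ≠ f → d ≠ f → c ≠ d → M.rk {c, d} = 2) (hbA : b ∉ A)
    {y u1 u z' : α → SignType} (hc1 : c1 ∈ A) (hc2 : c2 ∈ A) (ha1 : M.CArc f p c1 y u1)
    (hch : Relation.ReflTransGen (M.RArc f p A) u1 u) (ha2 : M.CArc f p c2 u z')
    (hy : y b = 0) (hz : z' b = 0) (hu : u1 b = u b) (hu0 : u b ≠ 0) : ¬ M.CArc f p b z' y := by
  intro hzy
  have ha1' := ha1
  have ha2' := ha2
  have hf1 := hAf c1 hc1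
  have hf2 := hAf c2 hc2
  have hb1 : b ≠ c1 := fun h => hbA (h ▸ hc1)
  have hb2 : b ≠ c2 := fun h => hbA (h ▸ hc2)
  obtain ⟨hYv, hU1v, hYc1, hU1c1, D1, hD1, d1, d2, d3, -⟩ := ha1'
  obtain ⟨hUv, hZv, hUc2, hZc2, D2, hD2, g1, g2, g3, -⟩ := ha2'
  have hu10 : u1 b ≠ 0 := by rw [hu]; exact hu0
  have e1 : D1 b = u1 b :=
    (M.carc_out hr (h1 c1 hf1) hD1 d1 d2 d3 hYv hU1v hYc1 hU1c1 hy hu10).1 ha1
  have e2 : D2 b = -u b :=
    (M.carc_in hr (h1 c2 hf2) hD2 g1 g2 g3 hZv hUv hZc2 hUc2 hz hu0).1 ha2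
  have hne : c1 ≠ c2 := by
    intro h
    have h3 := M.dir_uniq hr (h1 c1 hf1) hYv hYc1 hD1 hD2 d1 d2 d3 (by rw [h]; exact g1) g2 g3
    rw [h3, e2, hu] at e1
    revert e1 hu0
    generalize u b = t
    revert t
    decide
  obtain ⟨z, hzv, hzc1, hzc2⟩ := M.pt_exists hg hr hf1 hf2 (h2 c1 c2 hf1 hf2 hne)
  have hzb : z b ≠ 0 := by
    intro h
    have h3 := M.pt_uniq hr (h2 b c1 hbf hf1 hb1) hzv hYv h hzc1 hy hYc1
    have h4 := M.pt_uniq hr (h2 b c2 hbf hf2 hb2) hzv hZv h hzc2 hz hZc2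
    rw [← h3, ← h4] at hzy
    exact M.carc_irrefl z hzy
  rcases (show z b = u1 b ∨ z b = -u1 b by
    revert hzb hu10
    generalize z b = s
    generalize u1 b = t
    revert s t
    decide) with hcase | hcase
  · have t1 : M.CArc f p c1 y z :=
      (M.carc_out hr (h1 c1 hf1) hD1 d1 d2 d3 hYv hzv hYc1 hzc1 hy hzb).2 (by rw [e1, hcase])
    have t2 : M.CArc f p c2 z z' :=
      (M.carc_in hr (h1 c2 hf2) hD2 g1 g2 g3 hZv hzv hZc2 hzc2 hz hzb).2 (by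
        rw [e2, hcase, hu])
    exact M.no_triangle hr (h1 c2 hf2) (h1 b hbf) (h1 c1 hf1) (h2 c2 b hf2 hbf hb2.symm)
      (h2 b c1 hbf hf1 hb1) (h2 c1 c2 hf1 hf2 hne) hzy t1 t2
  · have t1 : M.CArc f p c1 z y :=
      (M.carc_in hr (h1 c1 hf1) hD1 d1 d2 d3 hYv hzv hYc1 hzc1 hy hzb).2 (by
        rw [e1, hcase, neg_neg])
    have t2 : M.CArc f p c1 z u1 := M.carc_trans hr (h1 c1 hf1) t1 ha1
    have t3 : M.CArc f p c2 z' z :=
      (M.carc_out hr (h1 c2 hf2) hD2 g1 g2 g3 hZv hzv hZc2 hzc2 hz hzb).2 (by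
        rw [e2, hcase, hu])
    have t4 : M.CArc f p c2 u z := M.carc_trans hr (h1 c2 hf2) ha2 t3
    exact hA z ((Relation.TransGen.head' ⟨c1, hc1, t2⟩ hch).tail ⟨c2, hc2, t4⟩)

end OM

end MUR
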