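import Pool.Agent.MUR.RKC

/-!
Definition of arcs along one line in rank three.
-/

namespace MUR

universe u v

namespace OM

variable {α : Type u} {β : Type v}

/-- Arc from `Y` to `Z` along the line `c`. -/
def CArc (M : OM α) (f p c : α) (Y Z : α → SignType) : Prop :=
  M.Vx f Y ∧ M.Vx f Z ∧ Y c = 0 ∧ Z c = 0 ∧ ∃ X ∈ M.cov, X c = 0 ∧ X f = 0 ∧ X p = 1 ∧
    ∃ e, Z e = 0 ∧ Y e ≠ 0 ∧ X e = -Y e

/-- Arc along some line of the set `A`. -/
def RArc (M : OM α) (f p : α) (A : Set α) (Y Z : α → SignType) : Prop :=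
  ∃ c ∈ A, M.CArc f p c Y Z

end OM

end MUR
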