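import Pool.Agent.MUR.Basic

/-!
Rank from closure: the two insertion rules. (100 lines)

`rk A` is the largest size of an independent finite subset of `A`. Suggested route: build a Mathlib
matroid with `IndepMatroid.ofFinite` (ground set univ) from `Indep`, or argue directly (Steinitz).
Facts: (1) `Indep I` iff for all e in I, e not in `cl (I \ {e})`. (2) if I is independent and
e is not in `cl I` then `insert e I` is independent (use `exch`: for a in I, a in cl(insert e (I \ a)),
a not in cl(I \ a) would give e in cl I). (3) Steinitz: I, J finite independent and J inside cl I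
imply card J <= card I (induction: replace elements of I by elements of J one at a time; or
induct on card (I \ J)). (4) hence rk A = card I for every maximal independent subset I of A, and
A is inside cl I. (5) insertion rules.
-/

namespace MUR

universe u v

namespace OM

variable {α : Type u} {β : Type v}

private theorem rka_indep_iff (M : OM α) (I : Set α) :
    M.Indep I ↔ ∀ e ∈ I, e ∉ M.cl (I \ {e}) := by
  constructor
  · intro h e he hc
    obtain ⟨X, hX, hXe, h0⟩ := h e he
    exact hXe (hc X hX fun a ha => h0 a ha.1 ha.2)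
  · intro h e he
    obtain ⟨X, hX, h0, hXe⟩ := M.not_mem_cl (h e he)
    exact ⟨X, hX, hXe, fun a ha hae => h0 a ⟨ha, hae⟩⟩

private theorem rka_indep_insert (M : OM α) {I : Set α} {e : α} (hI : M.Indep I)
    (he : e ∉ M.cl I) : M.Indep (insert e I) := by
  rw [rka_indep_iff] at hI ⊢
  have heI : e ∉ I := fun h => he (M.subset_cl _ h)
  intro a ha
  rcases ha with rfl | ha
  · intro hc
    apply he
    apply M.cl_mono _ hc
    rintro x ⟨hx1 | hx1, hx2⟩
    · exact absurd hx1 hx2
    · exact hx1
  · intro hc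
    have hae : a ≠ e := fun h => heI (h ▸ ha)
    have h1 : (insert e I) \ {a} = insert e (I \ {a}) := by
      ext x
      constructor
      · rintro ⟨hx1 | hx1, hx2⟩
        · exact Or.inl hx1
        · exact Or.inr ⟨hx1, hx2⟩
      · rintro (hx | ⟨hx1, hx2⟩)
        · subst hx
          exact ⟨Or.inl rfl, fun h => hae (by simpa using h.symm)⟩
        · exact ⟨Or.inr hx1, hx2⟩
    rw [h1] at hc
    have h2 := M.exch hc (hI a ha)
    apply he
    apply M.cl_mono _ h2
    intro x hx
    rcases hx with rfl | hx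
    · exact ha
    · exact hx.1

private theorem rka_step [Finite α] (M : OM α) {A : Set α} {y : α} (hA : y ∉ M.cl A)
    (B : Set α) (h : y ∈ M.cl (A ∪ B)) :
    ∃ x ∈ B, ∃ K, A ⊆ K ∧ K ⊆ A ∪ B ∧ x ∉ K ∧ y ∉ M.cl K ∧ y ∈ M.cl (insert x K) := by
  have hB : B.Finite := Set.toFinite B
  induction B, hB using Set.Finite.induction_on with
  | empty => simp at h; exact absurd h hA
  | @insert b B hb _ ih =>
    by_cases hy : y ∈ M.cl (A ∪ B)
    · obtain ⟨x, hx, K, h1, h2, h3, h4, h5⟩ := ih hy
      exact ⟨x, Or.inr hx, K, h1, h2.trans (Set.union_subset_union_right _ (Set.subset_insert _ _)),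
        h3, h4, h5⟩
    · refine ⟨b, Or.inl rfl, A ∪ B, Set.subset_union_left,
        Set.union_subset_union_right _ (Set.subset_insert _ _), ?_, hy, ?_⟩
      · intro hbm
        apply hy
        have : A ∪ insert b B = A ∪ B := by
          rw [Set.union_insert]
          exact Set.insert_eq_of_mem hbm
        rwa [this] at h
      · rwa [Set.union_insert] at h

private theorem rka_steinitz [Finite α] (M : OM α) {J : Set α} (hJ : M.Indep J) :
    ∀ (n : ℕ) (I : Set α), (J \ I).ncard = n → J ⊆ M.cl I → J.ncard ≤ I.ncard := by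
  intro n
  induction n with
  | zero =>
    intro I h0 _
    have : J \ I = ∅ := by
      rwa [Set.ncard_eq_zero (Set.toFinite _)] at h0
    exact Set.ncard_le_ncard (Set.sdiff_eq_empty.mp this) (Set.toFinite _)
  | succ n ih =>
    intro I hn hJI
    have hne : (J \ I).Nonempty := by
      rw [Set.nonempty_iff_ne_empty]
      intro h
      rw [h, Set.ncard_empty] at hn
      omega
    obtain ⟨y, hyJ, hyI⟩ := hne
    have hy1 : y ∉ M.cl (I ∩ J) := by
      intro hc
      have := (rka_indep_iff M J).1 hJ y hyJ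
      apply this
      apply M.cl_mono _ hc
      rintro x ⟨hx1, hx2⟩
      exact ⟨hx2, fun h => hyI (by rw [Set.mem_singleton_iff] at h; rwa [h] at hx1)⟩
    have hy2 : y ∈ M.cl ((I ∩ J) ∪ (I \ J)) := by
      rw [Set.inter_union_sdiff]
      exact hJI hyJ
    obtain ⟨x, hx, K, h1, h2, h3, h4, h5⟩ := rka_step M hy1 _ hy2
    rw [Set.inter_union_sdiff] at h2
    have hxc := M.exch h5 h4
    have hsub : insert y K ⊆ insert y (I \ {x}) := by
      apply Set.insert_subset_insert
      intro z hz
      exact ⟨h2 hz, fun h => h3 (by rw [Set.mem_singleton_iff] at h; rwa [← h])⟩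
    have hIc : I ⊆ M.cl (insert y (I \ {x})) := by
      intro z hz
      by_cases hzx : z = x
      · rw [hzx]; exact M.cl_mono hsub hxc
      · exact M.subset_cl _ (Or.inr ⟨hz, hzx⟩)
    have hcard : (insert y (I \ {x})).ncard = I.ncard := by
      have hyx : y ∉ I \ {x} := fun h => hyI h.1
      rw [Set.ncard_insert_of_notMem hyx (Set.toFinite _),
        Set.ncard_sdiff_singleton_add_one hx.1 (Set.toFinite _)]
    rw [← hcard]
    apply ih
    · have : J \ insert y (I \ {x}) = (J \ I) \ {y} := by
        ext z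
        simp only [Set.mem_sdiff, Set.mem_insert_iff, Set.mem_singleton_iff, not_or, not_and, not_not]
        constructor
        · rintro ⟨hz1, hz2, hz3⟩
          refine ⟨⟨hz1, fun hzI => ?_⟩, hz2⟩
          have := hz3 hzI
          rw [this] at hz1
          exact hx.2 hz1
        · rintro ⟨⟨hz1, hz2⟩, hz3⟩
          exact ⟨hz1, hz3, fun h => absurd h hz2⟩
      rw [this]
      have := Set.ncard_sdiff_singleton_add_one (show y ∈ J \ I from ⟨hyJ, hyI⟩) (Set.toFinite _)
      omega
    · exact hJI.trans (M.cl_subset_of hIc)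

private theorem rka_basis [Finite α] (M : OM α) (A : Set α) :
    ∃ J, J ⊆ A ∧ M.Indep J ∧ A ⊆ M.cl J := by
  have hfin : {J : Set α | J ⊆ A ∧ M.Indep J}.Finite := Set.toFinite _
  have hne : {J : Set α | J ⊆ A ∧ M.Indep J}.Nonempty :=
    ⟨∅, Set.empty_subset _, fun e he => absurd he (Set.notMem_empty e)⟩
  obtain ⟨J, hJ⟩ := hfin.exists_maximal hne
  refine ⟨J, hJ.prop.1, hJ.prop.2, fun e he => ?_⟩
  by_contra hc
  have h1 : insert e J ∈ {J : Set α | J ⊆ A ∧ M.Indep J} :=
    ⟨Set.insert_subset he hJ.prop.1, rka_indep_insert M hJ.prop.2 hc⟩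
  have h2 := hJ.le_of_ge h1 (Set.subset_insert _ _)
  exact hc (M.subset_cl _ (h2 (Set.mem_insert _ _)))

private theorem rka_rk_eq [Finite α] (M : OM α) {A J : Set α} (hJA : J ⊆ A) (hJ : M.Indep J)
    (hA : A ⊆ M.cl J) : M.rk A = J.ncard := by
  have hub : ∀ n ∈ {n | ∃ I : Finset α, (I : Set α) ⊆ A ∧ M.Indep I ∧ I.card = n}, n ≤ J.ncard := by
    rintro n ⟨I, h1, h2, rfl⟩
    rw [← Set.ncard_coe_finset]
    exact rka_steinitz M h2 _ J rfl (h1.trans hA)
  have hfJ : J.Finite := Set.toFinite J
  have hmem : J.ncard ∈ {n | ∃ I : Finset α, (I : Set α) ⊆ A ∧ M.Indep I ∧ I.card = n} := by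
    refine ⟨hfJ.toFinset, ?_, ?_, ?_⟩
    · rwa [Set.Finite.coe_toFinset]
    · rwa [Set.Finite.coe_toFinset]
    · rw [← Set.ncard_eq_toFinset_card J hfJ]
  exact le_antisymm (csSup_le ⟨_, hmem⟩ hub) (le_csSup ⟨_, hub⟩ hmem)

theorem rk_empty [Finite α] (M : OM α) : M.rk ∅ = 0 := by
  rw [rka_rk_eq M (Set.Subset.refl ∅) (fun e he => absurd he (Set.notMem_empty e))
    (Set.empty_subset _), Set.ncard_empty]

theorem rk_insert_mem [Finite α] (M : OM α) {A : Set α} {e : α} (h : e ∈ M.cl A) :
    M.rk (insert e A) = M.rk A := by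
  obtain ⟨J, h1, h2, h3⟩ := rka_basis M A
  rw [rka_rk_eq M h1 h2 h3]
  exact rka_rk_eq M (h1.trans (Set.subset_insert _ _)) h2
    (Set.insert_subset (M.cl_subset_of h3 h) h3)

theorem rk_insert_not [Finite α] (M : OM α) {A : Set α} {e : α} (h : e ∉ M.cl A) :
    M.rk (insert e A) = M.rk A + 1 := by
  obtain ⟨J, h1, h2, h3⟩ := rka_basis M A
  have he : e ∉ M.cl J := fun hc => h (M.cl_mono h1 hc)
  rw [rka_rk_eq M h1 h2 h3, rka_rk_eq M (Set.insert_subset_insert h1) (rka_indep_insert M h2 he)
    (Set.insert_subset (M.subset_cl _ (Set.mem_insert _ _))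
      (h3.trans (M.cl_mono (Set.subset_insert _ _)))),
    Set.ncard_insert_of_notMem (fun hm => he (M.subset_cl _ hm)) (Set.toFinite _)]

end OM

end MUR
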