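import Pool.Agent.MUR.RKA

/-!
Consequences of the insertion rules for the rank function. (100 lines)

Everything follows from `rk_empty`, `rk_insert_mem`, `rk_insert_not` by adding the elements of a
finite set one at a time (`Set.Finite.induction_on`). For `rk_submod`: first show that for
A inside B and any finite C: rk(B ∪ C) - rk B <= rk(A ∪ C) - rk A, i.e.
rk(B ∪ C) + rk A <= rk(A ∪ C) + rk B, by induction on C (if e is not in cl(B ∪ C) then e is not in
cl(A ∪ C)); apply it with A := A ∩ B, B := B, C := A. For `sub_cl_of_rk`: if e in B is not in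
cl A then rk A + 1 = rk (insert e A) <= rk B.
-/

namespace MUR

universe u v

namespace OM

variable {α : Type u} {β : Type v}

private theorem rkb_union [Finite α] (M : OM α) (A C : Set α) : M.rk A ≤ M.rk (A ∪ C) := by
  have hC : C.Finite := Set.toFinite C
  induction C, hC using Set.Finite.induction_on with
  | empty => simp
  | @insert e C _ _ ih =>
    rw [Set.union_insert]
    by_cases he : e ∈ M.cl (A ∪ C)
    · rwa [M.rk_insert_mem he]
    · rw [M.rk_insert_not he]
      omega

private theorem rkb_union_cl [Finite α] (M : OM α) (A C : Set α) (h : C ⊆ M.cl A) :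
    M.rk (A ∪ C) = M.rk A := by
  have hC : C.Finite := Set.toFinite C
  induction C, hC using Set.Finite.induction_on with
  | empty => simp
  | @insert e C _ _ ih =>
    rw [Set.union_insert, M.rk_insert_mem]
    · exact ih ((Set.subset_insert _ _).trans h)
    · exact M.cl_mono Set.subset_union_left (h (Set.mem_insert _ _))

private theorem rkb_submod [Finite α] (M : OM α) {A B : Set α} (C : Set α) (h : A ⊆ B) :
    M.rk (B ∪ C) + M.rk A ≤ M.rk (A ∪ C) + M.rk B := by
  have hC : C.Finite := Set.toFinite C
  induction C, hC using Set.Finite.induction_on with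
  | empty => simp [Nat.add_comm]
  | @insert e C _ _ ih =>
    rw [Set.union_insert, Set.union_insert]
    by_cases he : e ∈ M.cl (B ∪ C)
    · rw [M.rk_insert_mem he]
      have : M.rk (A ∪ C) ≤ M.rk (insert e (A ∪ C)) := by
        by_cases he' : e ∈ M.cl (A ∪ C)
        · rw [M.rk_insert_mem he']
        · rw [M.rk_insert_not he']
          omega
      omega
    · have he' : e ∉ M.cl (A ∪ C) := fun hc =>
        he (M.cl_mono (Set.union_subset_union_left _ h) hc)
      rw [M.rk_insert_not he, M.rk_insert_not he']
      omega

theorem rk_mono [Finite α] (M : OM α) {A B : Set α} (h : A ⊆ B) : M.rk A ≤ M.rk B := by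
  have := rkb_union M A B
  rwa [Set.union_eq_self_of_subset_left h] at this

theorem rk_cl [Finite α] (M : OM α) (A : Set α) : M.rk (M.cl A) = M.rk A := by
  have := rkb_union_cl M A (M.cl A) (Set.Subset.refl _)
  rwa [Set.union_eq_self_of_subset_left (M.subset_cl A)] at this

theorem rk_submod [Finite α] (M : OM α) (A B : Set α) :
    M.rk (A ∪ B) + M.rk (A ∩ B) ≤ M.rk A + M.rk B := by
  have := rkb_submod M (A := A ∩ B) (B := B) A Set.inter_subset_right
  rw [Set.union_comm B A, Set.union_eq_self_of_subset_left Set.inter_subset_left] at this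
  exact this

theorem sub_cl_of_rk [Finite α] (M : OM α) {A B : Set α} (h : A ⊆ B) (hr : M.rk B ≤ M.rk A) :
    B ⊆ M.cl A := by
  intro e he
  by_contra hc
  have h1 := M.rk_insert_not hc
  have h2 := M.rk_mono (Set.insert_subset he h)
  omega

theorem rk_insert_le [Finite α] (M : OM α) (A : Set α) (e : α) :
    M.rk (insert e A) ≤ M.rk A + 1 := by
  by_cases he : e ∈ M.cl A
  · rw [M.rk_insert_mem he]
    omega
  · rw [M.rk_insert_not he]

end OM

end MUR
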