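import Pool.Agent.MUR.RKB

/-!
Covectors and ranks. (100 lines)

`zero_of_span`: cl A = univ by `sub_cl_of_rk`. `uniq`: see below. `flat_eq_zs`: for every x outside the
flat A there is a covector X_x vanishing on A with X_x x nonzero; compose all of them (finite type).
`uniq`: X e = Y e nonzero; eliminate e between X and -Y (axiom `elim`): the result Z vanishes on
insert e G, which has rank rk G + 1 = rank (e is not in cl G as X e is nonzero), so Z = 0; by the
description of Z outside the separation set of X and -Y: for every h either X h = Y h nonzero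
or comp X (-Y) h = 0, i.e. X h = Y h = 0. `hyp_exists`: take B containing A maximal with e not in cl B
(finite). Then cl B = B and rk B + 1 = rank: otherwise insert e B does not span, choose h outside
cl (insert e B); by maximality e in cl(insert h B), by exchange h in cl(insert e B), contradiction.
A covector Y vanishing on B with Y e nonzero has zs Y = B by maximality.
-/

namespace MUR

universe u v

namespace OM

variable {α : Type u} {β : Type v}

theorem zero_of_span [Finite α] (M : OM α) {A : Set α} {X : α → SignType} (hX : X ∈ M.cov)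
    (h0 : ∀ a ∈ A, X a = 0) (hr : M.rank ≤ M.rk A) (e : α) : X e = 0 :=
  M.sub_cl_of_rk (Set.subset_univ A) hr (Set.mem_univ e) X hX h0

theorem exists_cov_of_rk [Finite α] (M : OM α) {A : Set α} (h : M.rk A < M.rank) :
    ∃ X ∈ M.cov, (∃ e, X e ≠ 0) ∧ ∀ a ∈ A, X a = 0 := by
  have hne : M.cl A ≠ Set.univ := by
    intro hc
    have := M.rk_cl A
    rw [hc] at this
    unfold rank at h
    omega
  obtain ⟨e, he⟩ := (Set.ne_univ_iff_exists_notMem _).1 hne
  obtain ⟨X, hX, h0, h1⟩ := M.not_mem_cl he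
  exact ⟨X, hX, ⟨e, h1⟩, h0⟩

private theorem rkc_le [Finite α] (M : OM α) (A : Set α) : M.rk A ≤ M.rank :=
  M.rk_mono (Set.subset_univ A)

theorem rk_zs_lt [Finite α] (M : OM α) {X : α → SignType} (hX : X ∈ M.cov) {e : α}
    (he : X e ≠ 0) : M.rk (zs X) < M.rank := by
  by_contra hc
  exact he (M.zero_of_span hX (A := zs X) (fun a ha => ha) (not_lt.1 hc) e)

theorem rk_zs_eq [Finite α] (M : OM α) {X : α → SignType} (hX : X ∈ M.cov) {e : α} (he : X e ≠ 0)
    {A : Set α} (h0 : ∀ a ∈ A, X a = 0) (hA : M.rk A + 1 = M.rank) :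
    M.rk (zs X) + 1 = M.rank ∧ zs X = M.cl A := by
  have h1 := M.rk_zs_lt hX he
  have h2 : M.rk A ≤ M.rk (zs X) := M.rk_mono h0
  refine ⟨by omega, Set.Subset.antisymm (M.sub_cl_of_rk h0 (by omega)) (M.cl_sub_zs hX h0)⟩

private theorem rkc_flat [Finite α] (M : OM α) {A : Set α} (h : M.cl A = A) (B : Set α) :
    ∃ X ∈ M.cov, (∀ a ∈ A, X a = 0) ∧ ∀ b ∈ B, b ∉ A → X b ≠ 0 := by
  have hB : B.Finite := Set.toFinite B
  induction B, hB using Set.Finite.induction_on with
  | empty => exact ⟨_, M.zero_mem, fun _ _ => rfl, fun b hb => absurd hb (Set.notMem_empty b)⟩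
  | @insert b B _ _ ih =>
    obtain ⟨X, hX, h0, h1⟩ := ih
    by_cases hb : b ∈ A
    · refine ⟨X, hX, h0, fun c hc hcA => ?_⟩
      rcases hc with rfl | hc
      · exact absurd hb hcA
      · exact h1 c hc hcA
    · have hb' : b ∉ M.cl A := by rwa [h]
      obtain ⟨Y, hY, hY0, hY1⟩ := M.not_mem_cl hb'
      refine ⟨_, M.comp_mem X hX Y hY, fun a ha => by simp [comp, h0 a ha, hY0 a ha],
        fun c hc hcA => ?_⟩
      by_cases hXc : X c = 0
      · rcases hc with rfl | hc
        · simpa [comp, hXc] using hY1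
        · exact absurd hXc (h1 c hc hcA)
      · simpa [comp, hXc] using hXc

theorem flat_eq_zs [Finite α] (M : OM α) {A : Set α} (h : M.cl A = A) :
    ∃ X ∈ M.cov, zs X = A := by
  obtain ⟨X, hX, h0, h1⟩ := rkc_flat M h Set.univ
  refine ⟨X, hX, Set.Subset.antisymm (fun e he => ?_) h0⟩
  by_contra hc
  exact h1 e (Set.mem_univ e) hc he

theorem uniq [Finite α] (M : OM α) {X Y : α → SignType} (hX : X ∈ M.cov) (hY : Y ∈ M.cov)
    {G : Set α} (hG : M.rk G + 1 = M.rank) (hXG : ∀ g ∈ G, X g = 0) (hYG : ∀ g ∈ G, Y g = 0)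
    {e : α} (he : X e ≠ 0) (hXY : X e = Y e) : X = Y := by
  obtain ⟨Z, hZ, hZe, hZ1⟩ := M.elim X hX _ (M.neg_mem Y hY) e he (by rw [neg_neg]; exact hXY)
  have heG : e ∉ M.cl G := fun hc => he (hc X hX hXG)
  have hr := M.rk_insert_not heG
  have hZ0 : ∀ h, Z h = 0 := by
    apply M.zero_of_span hZ (A := insert e G) _ (by omega)
    intro a ha
    rcases ha with rfl | ha
    · exact hZe
    · rw [hZ1 a (Or.inl (hXG a ha))]
      simp [comp, hXG a ha, hYG a ha]
  funext h
  have h1 := hZ1 h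
  rw [hZ0 h] at h1
  by_cases hx : X h = 0
  · have h2 := h1 (Or.inl hx)
    rw [hx]
    simp only [comp, hx, if_true] at h2
    revert h2
    generalize Y h = t
    revert t
    decide
  · by_contra hne
    have h2 := h1 (Or.inr (by rw [neg_neg]; exact hne))
    simp only [comp, hx, if_false] at h2
    exact hx h2.symm

theorem uniq' [Finite α] (M : OM α) {X Y : α → SignType} (hX : X ∈ M.cov) (hY : Y ∈ M.cov)
    {G : Set α} (hG : M.rk G + 1 = M.rank) (hXG : ∀ g ∈ G, X g = 0) (hYG : ∀ g ∈ G, Y g = 0)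
    {a b : α} (ha : X a ≠ 0) (hb : Y b ≠ 0) : X = Y ∨ X = fun e => -Y e := by
  have hYa : Y a ≠ 0 := by
    intro hc
    have haG : a ∉ M.cl G := fun h => ha (h X hX hXG)
    have hr := M.rk_insert_not haG
    refine hb (M.zero_of_span hY (A := insert a G) ?_ (by omega) b)
    intro c hcm
    rcases hcm with rfl | hcm
    · exact hc
    · exact hYG c hcm
  by_cases hc : X a = Y a
  · exact Or.inl (M.uniq hX hY hG hXG hYG ha hc)
  · right
    apply M.uniq hX (M.neg_mem Y hY) hG hXG (fun g hg => by simp [hYG g hg]) ha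
    revert hc ha hYa
    generalize X a = s
    generalize Y a = t
    revert s t
    decide

private theorem rkc_hyp [Finite α] (M : OM α) {A : Set α} {e : α} (h : e ∉ M.cl A) :
    ∃ Y ∈ M.cov, (∀ a ∈ A, Y a = 0) ∧ Y e ≠ 0 ∧ M.rk (zs Y) + 1 = M.rank := by
  have hfin : {B : Set α | A ⊆ B ∧ e ∉ M.cl B}.Finite := Set.toFinite _
  obtain ⟨B, hB⟩ := hfin.exists_maximal ⟨A, Set.Subset.refl _, h⟩
  have hBA : A ⊆ B := hB.prop.1
  have hBe : e ∉ M.cl B := hB.prop.2
  obtain ⟨Y, hY, hY0, hY1⟩ := M.not_mem_cl hBe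
  have hzs : zs Y = B := by
    apply Set.Subset.antisymm _ hY0
    have h1 : zs Y ∈ {B : Set α | A ⊆ B ∧ e ∉ M.cl B} := by
      refine ⟨hBA.trans hY0, ?_⟩
      rw [M.cl_zs hY]
      exact hY1
    exact hB.le_of_ge h1 hY0
  refine ⟨Y, hY, fun a ha => hY0 a (hBA ha), hY1, ?_⟩
  rw [hzs]
  have hr := M.rk_insert_not hBe
  have hle := rkc_le M (insert e B)
  by_contra hne
  have hlt : M.rk (insert e B) < M.rank := by omega
  obtain ⟨X, hX, ⟨x, hx⟩, hX0⟩ := M.exists_cov_of_rk hlt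
  have hxc : x ∉ M.cl (insert e B) := fun hc => hx (hc X hX hX0)
  have hxB : x ∉ M.cl B := fun hc => hxc (M.cl_mono (Set.subset_insert _ _) hc)
  have hex : e ∈ M.cl (insert x B) := by
    by_contra hc
    have h1 : insert x B ∈ {B : Set α | A ⊆ B ∧ e ∉ M.cl B} :=
      ⟨hBA.trans (Set.subset_insert _ _), hc⟩
    have h2 := hB.le_of_ge h1 (Set.subset_insert _ _)
    exact hxB (M.subset_cl _ (h2 (Set.mem_insert _ _)))
  exact hxc (M.exch hex hBe)

theorem cocircuit_iff [Finite α] (M : OM α) (Y : α → SignType) :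
    M.Cocircuit Y ↔ Y ∈ M.cov ∧ (∃ e, Y e ≠ 0) ∧ M.rk (zs Y) + 1 = M.rank := by
  constructor
  · rintro ⟨hY, ⟨e, he⟩, hmax⟩
    refine ⟨hY, ⟨e, he⟩, ?_⟩
    have hecl : e ∉ M.cl (zs Y) := by
      rw [M.cl_zs hY]
      exact he
    obtain ⟨X, hX, hX0, hXe, hXr⟩ := rkc_hyp M hecl
    have h1 : zs Y = zs X :=
      Set.Subset.antisymm hX0 (fun a ha => hmax X hX ⟨e, hXe⟩ (fun c hc => hX0 c hc) a ha)
    rw [h1]
    exact hXr
  · rintro ⟨hY, ⟨e, he⟩, hr⟩
    refine ⟨hY, ⟨e, he⟩, ?_⟩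
    rintro X hX ⟨x, hx⟩ h0 a ha
    have h1 := (M.rk_zs_eq hX hx (A := zs Y) (fun c hc => h0 c hc) hr).2
    rw [M.cl_zs hY] at h1
    have : a ∈ zs X := ha
    rw [h1] at this
    exact this

theorem hyp_exists [Finite α] (M : OM α) {A : Set α} {e : α} (h : e ∉ M.cl A) :
    ∃ Y ∈ M.cov, (∀ a ∈ A, Y a = 0) ∧ Y e ≠ 0 ∧ M.rk (zs Y) + 1 = M.rank :=
  rkc_hyp M h

end OM

end MUR
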