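import Pool.Agent.MUR.RKC

/-!
Topes of a simple oriented matroid: full support, and one step towards another tope. (100 lines)

`tope_iff`: a tope has full support: if T e = 0 take X ∈ cov with X e ≠ 0; comp T X is larger. Conversely a full covector is
maximal. `tope_step`: among the topes U' ≠ T with S(T,U') ⊆ S(T,U) (S = set where they differ) choose one with S(T,U') minimal; claim
it has one element. Suppose e ≠ h in S := S(T,U'). Eliminate e between T and U': Z with Z e = 0 and Z = T outside S. comp Z T is a tope which
differs from T only inside S \ {e} so by minimality comp Z T = T. comp Z U' is a tope; it differs from T at e, only inside S, so by minimality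
S(T, comp Z U') = S, thus comp Z U' = U'. So Z = 0 on S. Simple gives X ∈ cov with X e ≠ 0... precisely: a covector X with
X h = 0 and X e ≠ 0; changing sign we may take X e = T e; compose with a covector having sign -T h at h (negation of T): W := comp X (-T);
W e = T e, W h = -T h, full support. comp Z W is a tope equal to T outside S and at e, and different at h: its difference set with T is
nonempty and properly inside S, contradiction.
-/

namespace MUR

universe u v

namespace OM

variable {α : Type u} {β : Type v}

theorem tope_iff [Finite α] (M : OM α) (hs : M.Simple) (T : α → SignType) :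
    M.Tope T ↔ T ∈ M.cov ∧ ∀ e, T e ≠ 0 := by
  constructor
  · rintro ⟨hT, hmax⟩
    refine ⟨hT, fun e he => ?_⟩
    obtain ⟨X, hX, hXe⟩ := hs.1 e
    have h := hmax (comp T X) (M.comp_mem T hT X hX) (fun h hh => by simp [comp, hh])
    have h' := congrFun h e
    simp only [comp, he, if_true] at h'
    exact hXe h'
  · rintro ⟨hT, hfull⟩
    refine ⟨hT, fun X _ hX => ?_⟩
    funext e
    exact hX e (hfull e)

theorem tope_step [Finite α] (M : OM α) (hs : M.Simple) {T U : α → SignType} (hT : M.Tope T)
    (hU : M.Tope U) (hne : T ≠ U) :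
    ∃ V e, M.Tope V ∧ T e ≠ U e ∧ V e = U e ∧ ∀ h, h ≠ e → V h = T h := by
  classical
  have hT' := (M.tope_iff hs T).1 hT
  have hU' := (M.tope_iff hs U).1 hU
  -- choose a nearest tope inside the separation set of `T` and `U`
  let P : Set (Set α) := {S | S.Nonempty ∧ ∃ V, M.Tope V ∧ S = {h | T h ≠ V h} ∧ ∀ h, T h ≠ V h → T h ≠ U h}
  have hPne : P.Nonempty := by
    refine ⟨{h | T h ≠ U h}, ?_, U, hU, rfl, fun h hh => hh⟩
    by_contra hc
    rw [Set.not_nonempty_iff_eq_empty] at hc
    apply hne
    funext h
    by_contra hh
    have : h ∈ {h | T h ≠ U h} := hh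
    rw [hc] at this
    exact this
  obtain ⟨S, hS, hmin⟩ := (Set.toFinite P).exists_minimal hPne
  obtain ⟨⟨e, heS⟩, V, hV, hSV, hVU⟩ := id hS
  have hV' := (M.tope_iff hs V).1 hV
  have key : ∀ V₁, M.Tope V₁ → (∀ h, T h ≠ V₁ h → h ∈ S) → (∃ h, T h ≠ V₁ h) →
      ∀ h ∈ S, T h ≠ V₁ h := by
    intro V₁ h1 h2 h3 h hh
    have hmem : {h | T h ≠ V₁ h} ∈ P := by
      refine ⟨h3, V₁, h1, rfl, fun k hk => hVU k ?_⟩
      have := h2 k hk
      rw [hSV] at this
      exact this
    exact hmin hmem (fun k hk => h2 k hk) hh
  have hSval : ∀ h ∈ S, V h = -T h := by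
    intro h hh
    rw [hSV] at hh
    have hh' : T h ≠ V h := hh
    have a1 := hT'.2 h
    have a2 := hV'.2 h
    revert hh' a1 a2
    generalize T h = a
    generalize V h = b
    revert a b
    decide
  have hSval' : ∀ h, h ∉ S → V h = T h := by
    intro h hh
    by_contra hc
    apply hh
    rw [hSV]
    exact fun h' => hc h'.symm
  have hSU : ∀ h ∈ S, V h = U h := by
    intro h hh
    have hh' : T h ≠ U h := hVU h (by rw [hSV] at hh; exact hh)
    rw [hSval h hh]
    have a1 := hT'.2 h
    have a2 := hU'.2 h
    revert hh' a1 a2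
    generalize T h = a
    generalize U h = b
    revert a b
    decide
  by_cases hone : ∀ h ∈ S, h = e
  · refine ⟨V, e, hV, ?_, hSU e heS, fun h hh => hSval' h (fun hc => hh (hone h hc))⟩
    exact hVU e (by rw [hSV] at heS; exact heS)
  exfalso
  push Not at hone
  obtain ⟨k, hkS, hke⟩ := hone
  obtain ⟨Z, hZ, hZe, -, -, hZeq, -⟩ := M.elim' hT'.1 hV'.1 (hT'.2 e) (hSval e heS)
  have hZout : ∀ h, h ∉ S → Z h = T h := fun h hh => hZeq h (hSval' h hh).symm
  -- composition with a full covector is a tope
  have htope : ∀ W ∈ M.cov, (∀ h, W h ≠ 0) → M.Tope (comp Z W) := by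
    intro W hW hWf
    rw [M.tope_iff hs]
    refine ⟨M.comp_mem Z hZ W hW, fun h => ?_⟩
    by_cases hz : Z h = 0
    · simpa [comp, hz] using hWf h
    · simpa [comp, hz] using hz
  have h1 : ∀ h ∈ S, Z h = 0 := by
    -- `comp Z T = T` on `S`
    have hA : ∀ h ∈ S, comp Z T h = T h := by
      by_contra hc
      push Not at hc
      obtain ⟨h, hh, hne'⟩ := hc
      have := key (comp Z T) (htope T hT'.1 hT'.2) (fun k hk => by
        by_contra hkS'
        apply hk
        have hz := hZout k hkS'
        simp only [comp, hz, hT'.2 k, if_false]) ⟨h, fun h' => hne' h'.symm⟩ e heS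
      apply this
      simp [comp, hZe]
    have hB : ∀ h ∈ S, T h ≠ comp Z V h := by
      apply key (comp Z V) (htope V hV'.1 hV'.2)
      · intro k hk
        by_contra hkS'
        apply hk
        have hz := hZout k hkS'
        simp only [comp, hz, hT'.2 k, if_false]
      · refine ⟨e, ?_⟩
        have : comp Z V e = V e := by simp [comp, hZe]
        rw [this, hSval e heS]
        have a1 := hT'.2 e
        revert a1
        generalize T e = a
        revert a
        decide
    intro h hh
    by_contra hz
    have a := hA h hh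
    have b := hB h hh
    simp only [comp, hz, if_false] at a b
    exact b a.symm
  -- a covector separating e and k
  obtain ⟨X, hX, hXk, hXe⟩ := hs.2 k e hke
  obtain ⟨X', hX', hX'k, hX'e⟩ : ∃ X' ∈ M.cov, X' k = 0 ∧ X' e = T e := by
    by_cases hc : X e = T e
    · exact ⟨X, hX, hXk, hc⟩
    · refine ⟨_, M.neg_mem X hX, by simp [hXk], ?_⟩
      show -X e = T e
      have a1 := hT'.2 e
      revert hc hXe a1
      generalize T e = a
      generalize X e = b
      revert a b
      decide
  have hnT := M.neg_mem T hT'.1
  have hWc := M.comp_mem X' hX' _ hnT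
  have hWfull : ∀ h, comp X' (fun h => -T h) h ≠ 0 := by
    intro h
    by_cases hx : X' h = 0
    · simpa [comp, hx] using hT'.2 h
    · simpa [comp, hx] using hx
  have hWk : comp X' (fun h => -T h) k = -T k := by simp [comp, hX'k]
  have hWe : comp X' (fun h => -T h) e = T e := by
    have : X' e ≠ 0 := by rw [hX'e]; exact hT'.2 e
    simp [comp, this, hX'e]
  have hfin := key (comp Z (comp X' (fun h => -T h))) (htope _ hWc hWfull) (fun m hm => by
    by_contra hmS
    apply hm
    have hz := hZout m hmS
    have a1 := hT'.2 m
    show T m = if Z m = 0 then _ else Z m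
    rw [hz, if_neg a1]) ⟨k, by
      show T k ≠ if Z k = 0 then comp X' (fun h => -T h) k else Z k
      rw [if_pos (h1 k hkS), hWk]
      have a1 := hT'.2 k
      revert a1
      generalize T k = a
      revert a
      decide⟩ e heS
  apply hfin
  show T e = if Z e = 0 then comp X' (fun h => -T h) e else Z e
  rw [if_pos hZe, hWe]

end OM

end MUR
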