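import Pool.Agent.MUR.RKB

/-!
A lemma on connectivity (in the spirit of Tutte): contraction by a suitable point off a hyperplane stays connected. (150 lines)

Let B range over flats with A ⊆ B ⊆ P, rk B = rk A + 1, not B ⊆ H, v ∉ B. Suppose all of them satisfy Disc P B.
(0) There is such a B: otherwise P = H ∪ D with D := cl (insert v A): for q ∈ P \ H, cl (insert q A) contains v, so it
equals D. H ∩ D = A (a flat between A and D that misses v), rk H + rk D = rk P + rk A, H ≠ A (rank), D ≠ A, so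
Disc P A. (1) Choose B and a separation X ∪ Y = P, X ∩ Y = B, rk X + rk Y = rk P + rk B, X ≠ B ≠ Y, v ∈ Y, with the
number of elements of X minimal (swap X and Y if v ∈ X; v ∉ B).
(2) X \ B is not inside H: otherwise let X1 := cl (A ∪ (X \ B)) ⊆ H. B is not inside X1. X1 ⊆ X, and rk X1 < rk X
(else X ⊆ X1). X1 ∪ Y = P. X1 ∩ Y ⊆ X ∩ Y = B and it is a flat containing A, not containing B, so it equals A. Submodularity:
rk X1 + rk Y ≥ rk P + rk A, and rk X1 + rk Y ≤ rk X - 1 + rk Y = rk P + rk A. So Disc P A (X1 ≠ A as X ≠ B; Y ≠ A as B ⊆ Y).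
(3) Let a' ∈ X, a' ∉ B, a' ∉ H. B' := cl (insert a' A). B' is a flat of rank rk A + 1, inside X, not inside H, B' ≠ B,
v ∉ B' (else v ∈ X ∩ Y = B). So Disc P B': X' ∪ Y' = P, X' ∩ Y' = B'. Take b ∈ B \ A and name the sides so that b ∈ Y'; then B ⊆ Y'
(B = cl (insert b A)), and b ∉ X' (else b ∈ B', B' = B).
(4) Claim Y ⊆ Y'. Put X2 := Y ∩ X', Y2 := Y ∩ Y'. X2 ∪ Y2 = Y, X2 ∩ Y2 = Y ∩ B' = A (a' ∉ Y because a' ∈ X \ B; a flat between A
and B' different from B' is A). For S := Y ∪ B': rk S + rk B' ≥ rk (S ∩ X') + rk (S ∩ Y'): by submodularity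
rk S + rk X' ≥ rk (S ∪ X') + rk (S ∩ X') and rk (S ∪ X') + rk Y' ≥ rk P + rk ((S ∪ X') ∩ Y') ≥ rk P + rk (S ∩ Y'). With rk S = rk Y + 1,
S ∩ X' ⊇ insert a' X2, S ∩ Y' ⊇ insert a' Y2, and a' ∉ cl Y: rk Y + rk A ≥ rk X2 + rk Y2. Then rk X2 + rk (X ∪ Y2) ≤ rk X2 + rk X + rk Y2 - rk B
≤ rk P + rk A (using rk (X ∪ Y2) + rk B ≤ rk X + rk Y2 as B ⊆ X ∩ Y2). Let Z := cl (X ∪ Y2): X2 ∪ Z = P, X2 ∩ Z is a flat containing A of rank
at most rk A by submodularity, so it is A. If X2 ≠ A then Disc P A (Z ≠ A clear). So X2 = A and Y = X2 ∪ Y2 ⊆ Y'.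
(5) v ∈ Y ⊆ Y'. X' ⊆ X: an element of X' \ B' is not in Y', so not in Y, so it is in X. b ∈ X, b ∉ X': X' is smaller than X.
This contradicts minimality (for B', X', Y', v ∈ Y').
-/

namespace MUR

universe u v

namespace OM

variable {α : Type u} {β : Type v}

/-! Auxiliary facts about flats. -/

private theorem tox_eq [Finite α] (M : OM α) {F G : Set α} (hF : M.cl F = F) (h : F ⊆ G)
    (hr : M.rk G ≤ M.rk F) : G = F :=
  Set.Subset.antisymm (by have := M.sub_cl_of_rk h hr; rwa [hF] at this) h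

private theorem tox_pt [Finite α] (M : OM α) {A : Set α} (hA : M.cl A = A) {q : α} (hq : q ∉ A) :
    M.rk (M.cl (insert q A)) = M.rk A + 1 := by
  rw [M.rk_cl, M.rk_insert_not (by rwa [hA])]

private theorem tox_ins (M : OM α) {A F : Set α} (hF : M.cl F = F) (hAF : A ⊆ F) {q : α} (hq : q ∈ F) :
    M.cl (insert q A) ⊆ F := by
  have h := M.cl_mono (Set.insert_subset hq hAF)
  rwa [hF] at h

private theorem tox_gen [Finite α] (M : OM α) {A B : Set α} (hA : M.cl A = A) (hB : M.cl B = B)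
    (hAB : A ⊆ B) (hr : M.rk B = M.rk A + 1) {b : α} (hb : b ∈ B) (hbA : b ∉ A) :
    M.cl (insert b A) = B := by
  have h1 := tox_ins M hB hAB hb
  exact (tox_eq M (M.cl_cl _) h1 (by rw [tox_pt M hA hbA, hr])).symm

private theorem tox_btw [Finite α] (M : OM α) {A B F : Set α} (hA : M.cl A = A) (hB : M.cl B = B)
    (hAB : A ⊆ B) (hr : M.rk B = M.rk A + 1) (hF : M.cl F = F) (hAF : A ⊆ F) (hFB : F ⊆ B)
    (hne : ¬ B ⊆ F) : F = A := by
  refine Set.Subset.antisymm (fun b hb => ?_) hAF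
  by_contra hbA
  apply hne
  rw [← tox_gen M hA hB hAB hr (hFB hb) hbA]
  exact tox_ins M hF hAF hb

private theorem tox_disc [Finite α] (M : OM α) {P A X Y : Set α} (hX : M.cl X = X) (hY : M.cl Y = Y)
    (hXY : X ∪ Y = P) (hA : X ∩ Y = A) (hXA : X ≠ A) (hYA : Y ≠ A)
    (hr : M.rk X + M.rk Y ≤ M.rk P + M.rk A) : M.Disc P A := by
  refine ⟨X, Y, hX, hY, hXY, hA, hXA, hYA, le_antisymm hr ?_⟩
  have := M.rk_submod X Y
  rwa [hXY, hA] at this

private structure ToxC (M : OM α) (P A H : Set α) (v : α) (B X Y : Set α) : Prop where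
  fB : M.cl B = B
  AB : A ⊆ B
  BP : B ⊆ P
  rB : M.rk B = M.rk A + 1
  BH : ¬ B ⊆ H
  vB : v ∉ B
  fX : M.cl X = X
  fY : M.cl Y = Y
  un : X ∪ Y = P
  int : X ∩ Y = B
  XB : X ≠ B
  YB : Y ≠ B
  rk : M.rk X + M.rk Y = M.rk P + M.rk B
  vY : v ∈ Y

private theorem tox_of_disc (M : OM α) {P A H B : Set α} {v : α} (hv : v ∈ P)
    (fB : M.cl B = B) (AB : A ⊆ B) (BP : B ⊆ P) (rB : M.rk B = M.rk A + 1) (BH : ¬ B ⊆ H)
    (vB : v ∉ B) (hd : M.Disc P B) : ∃ X Y, ToxC M P A H v B X Y := by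
  obtain ⟨X, Y, hX, hY, hun, hint, hXB, hYB, hr⟩ := hd
  have h1 : v ∈ X ∪ Y := by rw [hun]; exact hv
  rcases h1 with h1 | h1
  · exact ⟨Y, X, fB, AB, BP, rB, BH, vB, hY, hX, by rw [Set.union_comm]; exact hun,
      by rw [Set.inter_comm]; exact hint, hYB, hXB, by rw [add_comm]; exact hr, h1⟩
  · exact ⟨X, Y, fB, AB, BP, rB, BH, vB, hX, hY, hun, hint, hXB, hYB, hr, h1⟩

private theorem tox_step [Finite α] (M : OM α) {P A H : Set α} {v : α} (hP : M.cl P = P)
    (hA : M.cl A = A) (hH : M.cl H = H) (hAH : A ⊆ H) (hconn : ¬ M.Disc P A)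
    (hall : ∀ B, M.cl B = B → A ⊆ B → B ⊆ P → M.rk B = M.rk A + 1 → ¬ B ⊆ H → v ∉ B → M.Disc P B)
    {B X Y : Set α} (c : ToxC M P A H v B X Y) :
    ∃ B' X' Y', ToxC M P A H v B' X' Y' ∧ X' ⊂ X := by
  have hBX : B ⊆ X := by rw [← c.int]; exact Set.inter_subset_left
  have hBY : B ⊆ Y := by rw [← c.int]; exact Set.inter_subset_right
  have hXP : X ⊆ P := by rw [← c.un]; exact Set.subset_union_left
  have hYP : Y ⊆ P := by rw [← c.un]; exact Set.subset_union_right
  have hBA : ∃ b ∈ B, b ∉ A := by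
    by_contra hc
    push Not at hc
    have h1 := M.rk_mono (show B ⊆ A from hc)
    have h2 := c.rB
    omega
  -- step 2
  have h2 : ∃ a ∈ X, a ∉ B ∧ a ∉ H := by
    by_contra hc
    push Not at hc
    have hX1H : M.cl (A ∪ (X \ B)) ⊆ H := by
      have := M.cl_mono (show A ∪ (X \ B) ⊆ H from Set.union_subset hAH fun x hx => hc x hx.1 hx.2)
      rwa [hH] at this
    have hX1X : M.cl (A ∪ (X \ B)) ⊆ X := by
      have := M.cl_mono (show A ∪ (X \ B) ⊆ X from
        Set.union_subset (c.AB.trans hBX) Set.diff_subset)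
      rwa [c.fX] at this
    have hBX1 : ¬ B ⊆ M.cl (A ∪ (X \ B)) := fun h => c.BH (h.trans hX1H)
    have hr1 : M.rk (M.cl (A ∪ (X \ B))) < M.rk X := by
      by_contra hcc
      have h3 := tox_eq M (M.cl_cl _) hX1X (not_lt.1 hcc)
      exact hBX1 (hBX.trans h3.subset)
    have hAX1 : A ⊆ M.cl (A ∪ (X \ B)) := Set.subset_union_left.trans (M.subset_cl _)
    have hun : M.cl (A ∪ (X \ B)) ∪ Y = P := by
      apply Set.Subset.antisymm (Set.union_subset (hX1X.trans hXP) hYP)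
      intro x hx
      rw [← c.un] at hx
      rcases hx with hx | hx
      · by_cases hxB : x ∈ B
        · exact Or.inr (hBY hxB)
        · exact Or.inl (M.subset_cl _ (Or.inr ⟨hx, hxB⟩))
      · exact Or.inr hx
    have hint : M.cl (A ∪ (X \ B)) ∩ Y = A := by
      refine tox_btw M hA c.fB c.AB c.rB (M.cl_inter (M.cl_cl _) c.fY)
        (Set.subset_inter hAX1 (c.AB.trans hBY)) ?_ ?_
      · exact (Set.inter_subset_inter_left _ hX1X).trans c.int.subset
      · intro h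
        exact hBX1 (h.trans Set.inter_subset_left)
    apply hconn
    refine tox_disc M (M.cl_cl _) c.fY hun hint ?_ ?_ ?_
    · intro h
      apply c.XB
      apply Set.Subset.antisymm _ hBX
      intro x hx
      by_contra hxB
      have h3 : x ∈ M.cl (A ∪ (X \ B)) := M.subset_cl _ (Or.inr ⟨hx, hxB⟩)
      rw [h] at h3
      exact hxB (c.AB h3)
    · intro h
      obtain ⟨b, hb, hbA⟩ := hBA
      exact hbA (h ▸ hBY hb)
    · have h3 := c.rk
      have h4 := c.rB
      omega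
  obtain ⟨a, haX, haB, haH⟩ := h2
  have haA : a ∉ A := fun h => haB (c.AB h)
  have haY : a ∉ Y := fun h => haB (by rw [← c.int]; exact ⟨haX, h⟩)
  obtain ⟨b, hb, hbA⟩ := hBA
  have hB'X : M.cl (insert a A) ⊆ X := tox_ins M c.fX (c.AB.trans hBX) haX
  have haB' : a ∈ M.cl (insert a A) := M.subset_cl _ (Set.mem_insert _ _)
  have hAB' : A ⊆ M.cl (insert a A) := (Set.subset_insert _ _).trans (M.subset_cl _)
  have hvB' : v ∉ M.cl (insert a A) := fun h => c.vB (by rw [← c.int]; exact ⟨hB'X h, c.vY⟩)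
  have hbB' : b ∉ M.cl (insert a A) := by
    intro h
    have h3 := tox_gen M hA (M.cl_cl _) hAB' (tox_pt M hA haA) h hbA
    have h4 := tox_gen M hA c.fB c.AB c.rB hb hbA
    rw [h4] at h3
    exact haB (h3 ▸ haB')
  have hd := hall _ (M.cl_cl (insert a A)) hAB' (hB'X.trans hXP) (tox_pt M hA haA)
    (fun h => haH (h haB')) hvB'
  obtain ⟨X', Y', hX', hY', hun, hint, hXB, hYB, hr, hbY'⟩ : ∃ X' Y', M.cl X' = X' ∧ M.cl Y' = Y' ∧
      X' ∪ Y' = P ∧ X' ∩ Y' = M.cl (insert a A) ∧ X' ≠ M.cl (insert a A) ∧ Y' ≠ M.cl (insert a A) ∧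
      M.rk X' + M.rk Y' = M.rk P + M.rk (M.cl (insert a A)) ∧ b ∈ Y' := by
    obtain ⟨X', Y', hX', hY', hun, hint, hXB, hYB, hr⟩ := hd
    have h1 : b ∈ X' ∪ Y' := by rw [hun]; exact c.BP hb
    rcases h1 with h1 | h1
    · exact ⟨Y', X', hY', hX', by rw [Set.union_comm]; exact hun,
        by rw [Set.inter_comm]; exact hint, hYB, hXB, by rw [add_comm]; exact hr, h1⟩
    · exact ⟨X', Y', hX', hY', hun, hint, hXB, hYB, hr, h1⟩
  have hB'X' : M.cl (insert a A) ⊆ X' := by rw [← hint]; exact Set.inter_subset_left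
  have hB'Y' : M.cl (insert a A) ⊆ Y' := by rw [← hint]; exact Set.inter_subset_right
  have hbX' : b ∉ X' := fun h => hbB' (by rw [← hint]; exact ⟨h, hbY'⟩)
  have hBY' : B ⊆ Y' := by
    rw [← tox_gen M hA c.fB c.AB c.rB hb hbA]
    exact tox_ins M hY' (hAB'.trans hB'Y') hbY'
  -- step 4
  have hYY' : Y ⊆ Y' := by
    have hX2f : M.cl (Y ∩ X') = Y ∩ X' := M.cl_inter c.fY hX'
    have hrS : M.rk (Y ∪ M.cl (insert a A)) = M.rk Y + 1 := by
      have h1 : M.rk (insert a Y) = M.rk Y + 1 := M.rk_insert_not (by rwa [c.fY])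
      have h2 : insert a Y ⊆ Y ∪ M.cl (insert a A) :=
        Set.insert_subset (Or.inr haB') Set.subset_union_left
      have h3 : Y ∪ M.cl (insert a A) ⊆ M.cl (insert a Y) :=
        Set.union_subset ((Set.subset_insert _ _).trans (M.subset_cl _))
          (M.cl_mono (Set.insert_subset_insert (c.AB.trans hBY)))
      have h4 := M.rk_mono h2
      have h5 := M.rk_mono h3
      rw [M.rk_cl] at h5
      omega
    have i1 := M.rk_submod (Y ∪ M.cl (insert a A)) X'
    have i2 := M.rk_submod ((Y ∪ M.cl (insert a A)) ∪ X') Y'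
    have i3 : M.rk P ≤ M.rk (((Y ∪ M.cl (insert a A)) ∪ X') ∪ Y') := by
      apply M.rk_mono
      rw [← hun]
      exact Set.union_subset_union_left _ Set.subset_union_right
    have i4 : M.rk ((Y ∪ M.cl (insert a A)) ∩ Y') ≤ M.rk (((Y ∪ M.cl (insert a A)) ∪ X') ∩ Y') :=
      M.rk_mono (Set.inter_subset_inter_left _ Set.subset_union_left)
    have i5 : M.rk (Y ∩ X') + 1 ≤ M.rk ((Y ∪ M.cl (insert a A)) ∩ X') := by
      have h1 : a ∉ M.cl (Y ∩ X') := fun h => haY (by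
        have := M.cl_mono (Set.inter_subset_left : Y ∩ X' ⊆ Y) h
        rwa [c.fY] at this)
      rw [← M.rk_insert_not h1]
      exact M.rk_mono (Set.insert_subset ⟨Or.inr haB', hB'X' haB'⟩
        (Set.inter_subset_inter_left _ Set.subset_union_left))
    have i6 : M.rk (Y ∩ Y') + 1 ≤ M.rk ((Y ∪ M.cl (insert a A)) ∩ Y') := by
      have h1 : a ∉ M.cl (Y ∩ Y') := fun h => haY (by
        have := M.cl_mono (Set.inter_subset_left : Y ∩ Y' ⊆ Y) h
        rwa [c.fY] at this)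
      rw [← M.rk_insert_not h1]
      exact M.rk_mono (Set.insert_subset ⟨Or.inr haB', hB'Y' haB'⟩
        (Set.inter_subset_inter_left _ Set.subset_union_left))
    have i7 := M.rk_submod X (Y ∩ Y')
    have i8 : M.rk B ≤ M.rk (X ∩ (Y ∩ Y')) :=
      M.rk_mono (Set.subset_inter hBX (Set.subset_inter hBY hBY'))
    have i9 := c.rk
    have i10 := c.rB
    have i11 := tox_pt M hA haA
    have hZr : M.rk (Y ∩ X') + M.rk (M.cl (X ∪ (Y ∩ Y'))) ≤ M.rk P + M.rk A := by
      rw [M.rk_cl]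
      omega
    have hXZ : X ⊆ M.cl (X ∪ (Y ∩ Y')) := Set.subset_union_left.trans (M.subset_cl _)
    have hZun : (Y ∩ X') ∪ M.cl (X ∪ (Y ∩ Y')) = P := by
      apply Set.Subset.antisymm
      · apply Set.union_subset (Set.inter_subset_left.trans hYP)
        have := M.cl_mono (show X ∪ (Y ∩ Y') ⊆ P from
          Set.union_subset hXP (Set.inter_subset_left.trans hYP))
        rwa [hP] at this
      · intro x hx
        have hx' := hx
        rw [← c.un] at hx
        rw [← hun] at hx'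
        rcases hx with hx | hx
        · exact Or.inr (hXZ hx)
        · rcases hx' with hx' | hx'
          · exact Or.inl ⟨hx, hx'⟩
          · exact Or.inr (M.subset_cl _ (Or.inr ⟨hx, hx'⟩))
    have hAX2 : A ⊆ Y ∩ X' := Set.subset_inter (c.AB.trans hBY) (hAB'.trans hB'X')
    have hAZ : A ⊆ M.cl (X ∪ (Y ∩ Y')) := (c.AB.trans hBX).trans hXZ
    have hZint : (Y ∩ X') ∩ M.cl (X ∪ (Y ∩ Y')) = A := by
      apply tox_eq M hA (Set.subset_inter hAX2 hAZ)
      have h1 := M.rk_submod (Y ∩ X') (M.cl (X ∪ (Y ∩ Y')))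
      rw [hZun] at h1
      omega
    have hX2A : Y ∩ X' = A := by
      by_contra hne
      apply hconn
      refine tox_disc M hX2f (M.cl_cl _) hZun hZint hne ?_ hZr
      intro h
      exact haA (h ▸ hXZ haX)
    intro y hy
    have h1 : y ∈ X' ∪ Y' := by rw [hun]; exact hYP hy
    rcases h1 with h1 | h1
    · have h2 : y ∈ A := by rw [← hX2A]; exact ⟨hy, h1⟩
      exact hB'Y' (hAB' h2)
    · exact h1
  have hXX : X' ⊆ X := by
    intro x hx
    by_cases hxB : x ∈ M.cl (insert a A)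
    · exact hB'X hxB
    · have h1 : x ∉ Y' := fun h => hxB (by rw [← hint]; exact ⟨hx, h⟩)
      have h2 : x ∈ X ∪ Y := by
        rw [c.un, ← hun]; exact Or.inl hx
      rcases h2 with h2 | h2
      · exact h2
      · exact absurd (hYY' h2) h1
  refine ⟨M.cl (insert a A), X', Y', ⟨M.cl_cl _, hAB', hB'X.trans hXP, tox_pt M hA haA,
    fun h => haH (h haB'), hvB', hX', hY', hun, hint, hXB, hYB, hr, hYY' c.vY⟩, hXX, fun h => hbX' (h (hBX hb))⟩

theorem exists_conn_point [Finite α] (M : OM α) {P A H : Set α} {v : α} (hP : M.cl P = P)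
    (hA : M.cl A = A) (hH : M.cl H = H) (hAH : A ⊆ H) (hHP : H ⊆ P) (hrk : M.rk H + 1 = M.rk P)
    (h2 : M.rk A + 2 ≤ M.rk P) (hv : v ∈ P) (hvH : v ∉ H) (hconn : ¬ M.Disc P A) :
    ∃ B, M.cl B = B ∧ A ⊆ B ∧ B ⊆ P ∧ M.rk B = M.rk A + 1 ∧ ¬ B ⊆ H ∧ v ∉ B ∧ ¬ M.Disc P B := by
  by_contra hcon
  push Not at hcon
  have hall : ∀ B, M.cl B = B → A ⊆ B → B ⊆ P → M.rk B = M.rk A + 1 → ¬ B ⊆ H → v ∉ B →
      M.Disc P B := hcon
  have hvA : v ∉ A := fun h => hvH (hAH h)
  have hex : ∃ B X Y, ToxC M P A H v B X Y := by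
    by_contra hno
    apply hconn
    have hD : ∀ q ∈ P, q ∉ H → q ∈ M.cl (insert v A) := by
      intro q hq hqH
      have hqA : q ∉ A := fun h => hqH (hAH h)
      have hqD : q ∈ M.cl (insert q A) := M.subset_cl _ (Set.mem_insert _ _)
      have hAD : A ⊆ M.cl (insert q A) := (Set.subset_insert _ _).trans (M.subset_cl _)
      by_contra hc
      have hvD : v ∉ M.cl (insert q A) := by
        intro h
        have h1 := tox_gen M hA (M.cl_cl _) hAD (tox_pt M hA hqA) h hvA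
        exact hc (h1 ▸ hqD)
      have h2 := tox_ins M hP (hAH.trans hHP) hq
      apply hno
      obtain ⟨X, Y, h⟩ := tox_of_disc M hv (M.cl_cl _) hAD h2 (tox_pt M hA hqA)
        (fun h => hqH (h hqD)) hvD
        (hall _ (M.cl_cl _) hAD h2 (tox_pt M hA hqA) (fun h => hqH (h hqD)) hvD)
      exact ⟨_, X, Y, h⟩
    have hAD : A ⊆ M.cl (insert v A) := (Set.subset_insert _ _).trans (M.subset_cl _)
    have hvD : v ∈ M.cl (insert v A) := M.subset_cl _ (Set.mem_insert _ _)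
    refine tox_disc M hH (M.cl_cl (insert v A)) ?_ ?_ ?_ ?_ ?_
    · apply Set.Subset.antisymm (Set.union_subset hHP (tox_ins M hP (hAH.trans hHP) hv))
      intro q hq
      by_cases hqH : q ∈ H
      · exact Or.inl hqH
      · exact Or.inr (hD q hq hqH)
    · exact tox_btw M hA (M.cl_cl _) hAD (tox_pt M hA hvA) (M.cl_inter hH (M.cl_cl _))
        (Set.subset_inter hAH hAD) Set.inter_subset_right (fun h => hvH (h hvD).1)
    · intro h
      rw [h] at hrk
      omega
    · intro h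
      exact hvA (h ▸ hvD)
    · rw [tox_pt M hA hvA]
      omega
  obtain ⟨B, X, Y, hc⟩ := hex
  have key : ∀ n : ℕ, ∀ B X Y, ToxC M P A H v B X Y → X.ncard = n → False := by
    intro n
    induction n using Nat.strong_induction_on with
    | _ n ih =>
      intro B X Y c hn
      obtain ⟨B', X', Y', c', hlt⟩ := tox_step M hP hA hH hAH hconn hall c
      exact ih _ (hn ▸ Set.ncard_lt_ncard hlt (Set.toFinite _)) B' X' Y' c' rfl
  exact key _ B X Y hc rfl

end OM

end MUR
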